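import Pool.Agent.Lib.MP_185a46_al.Hom

/-!
# Lists, the antisymmetric form, and paths adapted to a list
-/

set_option autoImplicit false
set_option linter.unusedSectionVars false

open CoxeterSystem

namespace Pool.Agent.Lib.MP_185a46_al

section Bef

variable {B : Type*}

/-- `a` occurs before `b` in the list. -/
def bef : List B → B → B → Prop
  | [], _, _ => False
  | c :: l, a, b => (a = c ∧ b ∈ l) ∨ bef l a b

theorem bef_mem {l : List B} {a b : B} (h : bef l a b) : a ∈ l ∧ b ∈ l := by
  induction l with
  | nil => exact h.elim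
  | cons c l ih =>
    rcases h with ⟨rfl, h⟩ | h
    · exact ⟨List.mem_cons_self, List.mem_cons_of_mem _ h⟩
    · exact ⟨List.mem_cons_of_mem _ (ih h).1, List.mem_cons_of_mem _ (ih h).2⟩

theorem bef_append {l₁ l₂ : List B} {a b : B} :
    bef (l₁ ++ l₂) a b ↔ bef l₁ a b ∨ bef l₂ a b ∨ (a ∈ l₁ ∧ b ∈ l₂) := by
  induction l₁ with
  | nil => simp [bef]
  | cons c l₁ ih =>
    rw [List.cons_append, bef, ih, bef, List.mem_append, List.mem_cons]
    tauto

theorem bef_asymm {l : List B} (hl : l.Nodup) {a b : B} (h : bef l a b) :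
    a ≠ b ∧ ¬ bef l b a := by
  induction l with
  | nil => exact h.elim
  | cons c l ih =>
    rw [List.nodup_cons] at hl
    rcases h with ⟨rfl, h⟩ | h
    · refine ⟨fun h1 => hl.1 (h1 ▸ h), ?_⟩
      rintro (⟨rfl, h1⟩ | h1)
      · exact hl.1 h
      · exact hl.1 (bef_mem h1).2
    · refine ⟨(ih hl.2 h).1, ?_⟩
      rintro (⟨rfl, h1⟩ | h1)
      · exact hl.1 (bef_mem h).2
      · exact (ih hl.2 h).2 h1

theorem bef_total {l : List B} {a b : B} (ha : a ∈ l) (hb : b ∈ l) (hab : a ≠ b) :
    bef l a b ∨ bef l b a := by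
  induction l with
  | nil => simp at ha
  | cons c l ih =>
    rw [List.mem_cons] at ha hb
    rcases ha with rfl | ha
    · rcases hb with rfl | hb
      · exact absurd rfl hab
      · left; left; exact ⟨rfl, hb⟩
    · rcases hb with rfl | hb
      · right; left; exact ⟨rfl, ha⟩
      · rcases ih ha hb with h | h
        · left; right; exact h
        · right; right; exact h

/-- `J` is a sublist of `l`. -/
def Sub (J l : List B) : Prop :=
  (∀ a ∈ J, a ∈ l) ∧ ∀ a ∈ J, ∀ b ∈ J, (bef J a b ↔ bef l a b)

theorem sub_cons {J l : List B} {c : B} (hl : (c :: l).Nodup) (h : Sub J l) :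
    Sub J (c :: l) := by
  rw [List.nodup_cons] at hl
  refine ⟨fun a ha => List.mem_cons_of_mem _ (h.1 a ha), fun a ha b hb => ?_⟩
  rw [h.2 a ha b hb, bef]
  constructor
  · intro h1; right; exact h1
  · rintro (⟨rfl, _⟩ | h1)
    · exact absurd (h.1 _ ha) hl.1
    · exact h1

theorem sub_filter (p : B → Bool) {l : List B} (hl : l.Nodup) : Sub (l.filter p) l := by
  induction l with
  | nil => exact ⟨fun a ha => by simp at ha, fun a ha => by simp at ha⟩
  | cons c l ih =>
    have hl' := List.nodup_cons.1 hl
    have ih' := ih hl'.2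
    by_cases hp : p c
    · rw [List.filter_cons_of_pos hp]
      refine ⟨fun a ha => ?_, fun a ha b hb => ?_⟩
      · rw [List.mem_cons] at ha ⊢
        rcases ha with rfl | ha
        · left; rfl
        · right; exact ih'.1 a ha
      · rw [bef, bef]
        rw [List.mem_cons] at ha hb
        rcases ha with rfl | ha
        · have h1 : ¬ bef (l.filter p) a b := fun h => hl'.1 (ih'.1 _ (bef_mem h).1)
          have h2 : ¬ bef l a b := fun h => hl'.1 (bef_mem h).1
          rcases hb with rfl | hb
          · simp [h1, h2, hl'.1]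
          · simp [hb, ih'.1 b hb]
        · rcases hb with rfl | hb
          · have h1 : ¬ bef (l.filter p) a b := fun h => hl'.1 (ih'.1 _ (bef_mem h).2)
            have h2 : ¬ bef l a b := fun h => hl'.1 (bef_mem h).2
            simp [h1, h2, hl'.1]
          · rw [ih'.2 a ha b hb]
            have h1 : a ≠ c := fun h => hl'.1 (h ▸ ih'.1 a ha)
            simp [h1]
    · rw [List.filter_cons_of_neg hp]
      exact sub_cons hl ih'

theorem sub_erase {A C : List B} {s : B} (hl : (A ++ s :: C).Nodup) :
    Sub (A ++ C) (A ++ s :: C) := by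
  rw [List.nodup_append, List.nodup_cons] at hl
  obtain ⟨h1, ⟨h2, h3⟩, h4⟩ := hl
  have hsA : s ∉ A := fun h => h4 s h s List.mem_cons_self rfl
  refine ⟨fun a ha => ?_, fun a ha b hb => ?_⟩
  · rw [List.mem_append] at ha ⊢
    rcases ha with ha | ha
    · left; exact ha
    · right; exact List.mem_cons_of_mem _ ha
  · rw [bef_append, bef_append, bef, List.mem_cons]
    have ha' : a ≠ s := by
      rintro rfl
      rw [List.mem_append] at ha
      exact ha.elim hsA h2
    have hb' : b ≠ s := by
      rintro rfl
      rw [List.mem_append] at hb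
      exact hb.elim hsA h2
    simp [ha', hb']

/-- The first element with a given property. -/
theorem exists_first {P : B → Prop} {l : List B} (h : ∃ j ∈ l, P j) :
    ∃ A j C, l = A ++ j :: C ∧ P j ∧ ∀ a ∈ A, ¬ P a := by
  induction l with
  | nil => simp at h
  | cons c l ih =>
    by_cases hc : P c
    · exact ⟨[], c, l, rfl, hc, fun a ha => by simp at ha⟩
    · obtain ⟨j, hj, hPj⟩ := h
      rw [List.mem_cons] at hj
      rcases hj with rfl | hj
      · exact absurd hPj hc
      · obtain ⟨A, j', C, h1, h2, h3⟩ := ih ⟨j, hj, hPj⟩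
        refine ⟨c :: A, j', C, by rw [h1]; rfl, h2, ?_⟩
        intro a ha
        rw [List.mem_cons] at ha
        rcases ha with rfl | ha
        · exact hc
        · exact h3 a ha

/-- Moving the letter `s` from the front (up to commutation) to the end of the list. -/
def Step (M : CoxeterMatrix B) (l : List B) (s : B) (l' : List B) : Prop :=
  ∃ A C, l = A ++ s :: C ∧ l' = A ++ C ++ [s] ∧ ∀ a ∈ A, M a s = 2

/-- A sequence of steps. -/
def FirePath (M : CoxeterMatrix B) : List B → List B → List B → Prop
  | l, [], l' => l = l'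
  | l, s :: ω, l'' => ∃ l', Step M l s l' ∧ FirePath M l' ω l''

variable {M : CoxeterMatrix B}

theorem firePath_append {l l'' ω ω' : List B} :
    FirePath M l (ω ++ ω') l'' ↔ ∃ l', FirePath M l ω l' ∧ FirePath M l' ω' l'' := by
  induction ω generalizing l with
  | nil => simp [FirePath]
  | cons s ω ih =>
    simp only [List.cons_append, FirePath, ih]
    constructor
    · rintro ⟨l₁, h1, l₂, h2, h3⟩
      exact ⟨l₂, ⟨l₁, h1, h2⟩, h3⟩
    · rintro ⟨l₂, ⟨l₁, h1, h2⟩, h3⟩
      exact ⟨l₁, h1, l₂, h2, h3⟩

theorem Step.mem {l l' : List B} {s : B} (h : Step M l s l') (a : B) : a ∈ l' ↔ a ∈ l := by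
  obtain ⟨A, C, rfl, rfl, _⟩ := h
  simp only [List.mem_append, List.mem_cons, List.not_mem_nil, or_false]
  tauto

theorem Step.self_mem {l l' : List B} {s : B} (h : Step M l s l') : s ∈ l := by
  obtain ⟨A, C, rfl, rfl, _⟩ := h
  simp

theorem Step.nodup {l l' : List B} {s : B} (h : Step M l s l') (hl : l.Nodup) : l'.Nodup := by
  obtain ⟨A, C, rfl, rfl, _⟩ := h
  rw [List.nodup_append, List.nodup_cons] at hl
  obtain ⟨h1, ⟨h2, h3⟩, h4⟩ := hl
  have hsA : s ∉ A := fun h => h4 s h s List.mem_cons_self rfl
  rw [List.nodup_append, List.nodup_append]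
  refine ⟨⟨h1, h3, fun a ha b hb => h4 a ha b (List.mem_cons_of_mem _ hb)⟩,
    List.nodup_singleton _, fun a ha b hb => ?_⟩
  rw [List.mem_singleton] at hb
  subst hb
  rw [List.mem_append] at ha
  rintro rfl
  exact ha.elim hsA h2

theorem Step.length {l l' : List B} {s : B} (h : Step M l s l') : l'.length = l.length := by
  obtain ⟨A, C, rfl, rfl, _⟩ := h
  simp only [List.length_append, List.length_cons, List.length_nil]
  omega

theorem FirePath.mem {l l' ω : List B} (h : FirePath M l ω l') (a : B) : a ∈ l' ↔ a ∈ l := by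
  induction ω generalizing l with
  | nil =>
    have : l = l' := h
    rw [this]
  | cons s ω ih =>
    obtain ⟨l₁, h1, h2⟩ := h
    rw [ih h2, h1.mem]

theorem FirePath.word_mem {l l' ω : List B} (h : FirePath M l ω l') {a : B} (ha : a ∈ ω) :
    a ∈ l := by
  induction ω generalizing l with
  | nil => simp at ha
  | cons s ω ih =>
    obtain ⟨l₁, h1, h2⟩ := h
    rw [List.mem_cons] at ha
    rcases ha with rfl | ha
    · exact h1.self_mem
    · rw [← h1.mem]
      exact ih h2 ha

theorem FirePath.nodup {l l' ω : List B} (h : FirePath M l ω l') (hl : l.Nodup) :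
    l'.Nodup := by
  induction ω generalizing l with
  | nil =>
    have : l = l' := h
    rw [← this]
    exact hl
  | cons s ω ih =>
    obtain ⟨l₁, h1, h2⟩ := h
    exact ih h2 (h1.nodup hl)

theorem FirePath.length {l l' ω : List B} (h : FirePath M l ω l') : l'.length = l.length := by
  induction ω generalizing l with
  | nil =>
    have : l = l' := h
    rw [this]
  | cons s ω ih =>
    obtain ⟨l₁, h1, h2⟩ := h
    rw [ih h2, h1.length]

end Bef

section Om

variable {B : Type*} {M : CoxeterMatrix B}

/-- The vector `x` is supported in the list `l`. -/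
def Supp (l : List B) (x : B → ℝ) : Prop := ∀ a, a ∉ l → x a = 0

theorem Supp.mono {l l' : List B} {x : B → ℝ} (h : Supp l x) (h' : ∀ a ∈ l, a ∈ l') :
    Supp l' x := fun a ha => h a fun h1 => ha (h' a h1)

open Classical in
/-- Matrix of the antisymmetric form. -/
noncomputable def omM (M : CoxeterMatrix B) (l : List B) : Matrix B B ℝ := fun a b =>
  (if bef l b a then 2 * gram M a b else 0) - (if bef l a b then 2 * gram M a b else 0)

theorem omM_congr {J l : List B} {a b : B} (h1 : bef J a b ↔ bef l a b)
    (h2 : bef J b a ↔ bef l b a) : omM M J a b = omM M l a b := by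
  unfold omM
  by_cases h3 : bef l a b <;> by_cases h4 : bef l b a
  · rw [if_pos (h2.2 h4), if_pos (h1.2 h3), if_pos h4, if_pos h3]
  · rw [if_neg (fun h => h4 (h2.1 h)), if_pos (h1.2 h3), if_neg h4, if_pos h3]
  · rw [if_pos (h2.2 h4), if_neg (fun h => h3 (h1.1 h)), if_pos h4, if_neg h3]
  · rw [if_neg (fun h => h4 (h2.1 h)), if_neg (fun h => h3 (h1.1 h)), if_neg h4, if_neg h3]

theorem omM_anti (l : List B) (a b : B) : omM M l a b = -omM M l b a := by
  unfold omM
  rw [gram_symm a b]
  ring

theorem omM_self (l : List B) (a : B) : omM M l a a = 0 := by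
  unfold omM
  ring

theorem omM_of_bef {l : List B} (hl : l.Nodup) {a b : B} (h : bef l a b) :
    omM M l a b = -2 * gram M a b := by
  unfold omM
  rw [if_neg (bef_asymm hl h).2, if_pos h]
  ring

theorem omM_of_bef' {l : List B} (hl : l.Nodup) {a b : B} (h : bef l b a) :
    omM M l a b = 2 * gram M a b := by
  unfold omM
  rw [if_neg (bef_asymm hl h).2, if_pos h]
  ring

theorem gram_of_two {a b : B} (h : M a b = 2) : gram M a b = 0 := by
  unfold gram
  rw [h]
  simp

theorem two_of_gram {a b : B} (hab : a ≠ b) (h0 : M a b ≠ 0) (h : gram M a b = 0) :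
    M a b = 2 := by
  by_contra hne
  have h2 := M_ge_two hab h0
  have h3 : (3 : ℝ) ≤ M a b := by
    have : 3 ≤ M a b := by omega
    exact_mod_cast this
  unfold gram at h
  have h4 : 0 < Real.cos (Real.pi / M a b) := by
    apply Real.cos_pos_of_mem_Ioo
    constructor
    · have : 0 < Real.pi / M a b := by
        have := Real.pi_pos
        positivity
      linarith [Real.pi_pos]
    · rw [div_lt_div_iff_of_pos_left Real.pi_pos (by linarith) (by norm_num)]
      linarith
  linarith

variable [Fintype B] [DecidableEq B]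

/-- The antisymmetric form attached to a list. -/
noncomputable def om (M : CoxeterMatrix B) (l : List B) : LinearMap.BilinForm ℝ (B → ℝ) :=
  Matrix.toBilin' (omM M l)

theorem om_apply (l : List B) (x y : B → ℝ) :
    om M l x y = ∑ a, ∑ b, x a * omM M l a b * y b := by
  unfold om
  rw [Matrix.toBilin'_apply]

theorem om_anti (l : List B) (x y : B → ℝ) : om M l x y = -om M l y x := by
  rw [om_apply, om_apply, Finset.sum_comm, ← Finset.sum_neg_distrib]
  refine Finset.sum_congr rfl fun a _ => ?_
  rw [← Finset.sum_neg_distrib]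
  refine Finset.sum_congr rfl fun b _ => ?_
  rw [omM_anti]
  ring

theorem om_sr (l : List B) (a b : B) : om M l (sr a) (sr b) = omM M l a b := by
  unfold om sr
  rw [Matrix.toBilin'_single]

theorem om_sr_left (l : List B) (s : B) (y : B → ℝ) :
    om M l (sr s) y = ∑ b, omM M l s b * y b := by
  rw [om_apply, Finset.sum_eq_single s]
  · simp [sr]
  · intro a _ ha
    simp [sr, ha]
  · intro h
    exact absurd (Finset.mem_univ s) h

theorem bf_sr_left (s : B) (y : B → ℝ) : bf M (sr s) y = ∑ b, gram M s b * y b := by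
  unfold bf
  rw [Matrix.toBilin'_apply, Finset.sum_eq_single s]
  · simp [sr]
  · intro a _ ha
    simp [sr, ha]
  · intro h
    exact absurd (Finset.mem_univ s) h

theorem bf_sr_le {s : B} {x : B → ℝ} (hx : 0 ≤ x) : bf M (sr s) x ≤ x s := by
  rw [bf_sr_left]
  have h1 : x s = ∑ b, if b = s then x s else 0 := by simp
  rw [h1]
  refine Finset.sum_le_sum fun b _ => ?_
  by_cases hb : b = s
  · subst hb
    rw [if_pos rfl, gram_self, one_mul]
  · rw [if_neg hb]
    exact mul_nonpos_of_nonpos_of_nonneg (gram_nonpos (Ne.symm hb)) (hx b)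

/-- If equality holds then all terms vanish. -/
theorem bf_sr_eq {s : B} {x : B → ℝ} (hx : 0 ≤ x) (h : bf M (sr s) x = x s) {b : B}
    (hb : b ≠ s) : gram M s b * x b = 0 := by
  rw [bf_sr_left] at h
  have h1 : x s = ∑ b, if b = s then x s else 0 := by simp
  rw [h1] at h
  have h2 : ∀ b ∈ Finset.univ, gram M s b * x b ≤ if b = s then x s else 0 := by
    intro b _
    by_cases hb : b = s
    · subst hb
      rw [if_pos rfl, gram_self, one_mul]
    · rw [if_neg hb]
      exact mul_nonpos_of_nonpos_of_nonneg (gram_nonpos (Ne.symm hb)) (hx b)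
  have h3 := (Finset.sum_eq_sum_iff_of_le h2).1 h b (Finset.mem_univ b)
  rw [h3, if_neg hb]

theorem om_source {l : List B} (hl : l.Nodup) {s : B} (hs : s ∈ l)
    (hsrc : ∀ b, bef l b s → gram M b s = 0) {y : B → ℝ} (hy : Supp l y) :
    om M l (sr s) y = 2 * y s - 2 * bf M (sr s) y := by
  rw [om_sr_left, bf_sr_left, Finset.mul_sum]
  have h1 : 2 * y s = ∑ b, if b = s then 2 * y s else 0 := by simp
  rw [h1, ← Finset.sum_sub_distrib]
  refine Finset.sum_congr rfl fun b _ => ?_
  by_cases hb : b = s
  · subst hb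
    rw [if_pos rfl, omM_self, gram_self]
    ring
  · rw [if_neg hb]
    by_cases hbl : b ∈ l
    · rcases bef_total hs hbl (Ne.symm hb) with h | h
      · rw [omM_of_bef hl h]
        ring
      · rw [omM_of_bef' hl h, gram_symm, hsrc b h]
        ring
    · rw [hy b hbl]
      ring

theorem om_sink {l : List B} (hl : l.Nodup) {s : B} (hs : s ∈ l)
    (hsnk : ∀ b, bef l s b → gram M s b = 0) {y : B → ℝ} (hy : Supp l y) :
    om M l (sr s) y = 2 * bf M (sr s) y - 2 * y s := by
  rw [om_sr_left, bf_sr_left, Finset.mul_sum]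
  have h1 : 2 * y s = ∑ b, if b = s then 2 * y s else 0 := by simp
  rw [h1, ← Finset.sum_sub_distrib]
  refine Finset.sum_congr rfl fun b _ => ?_
  by_cases hb : b = s
  · subst hb
    rw [if_pos rfl, omM_self, gram_self]
    ring
  · rw [if_neg hb]
    by_cases hbl : b ∈ l
    · rcases bef_total hs hbl (Ne.symm hb) with h | h
      · rw [omM_of_bef hl h, hsnk b h]
        ring
      · rw [omM_of_bef' hl h]
        ring
    · rw [hy b hbl]
      ring

theorem om_congr {J l : List B} (h : ∀ a ∈ J, ∀ b ∈ J, (bef J a b ↔ bef l a b)) {x y : B → ℝ}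
    (hx : Supp J x) (hy : Supp J y) : om M J x y = om M l x y := by
  rw [om_apply, om_apply]
  refine Finset.sum_congr rfl fun a _ => Finset.sum_congr rfl fun b _ => ?_
  by_cases ha : a ∈ J
  · by_cases hb : b ∈ J
    · rw [omM_congr (h a ha b hb) (h b hb a ha)]
    · rw [hy b hb, mul_zero, mul_zero]
  · rw [hx a ha, zero_mul, zero_mul, zero_mul, zero_mul]

/-- In a step, the letter is a source before and a sink after. -/
theorem Step.source {l l' : List B} {s : B} (h : Step M l s l') (hl : l.Nodup) :
    ∀ b, bef l b s → gram M b s = 0 := by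
  obtain ⟨A, C, rfl, rfl, hA⟩ := h
  intro b hb
  rw [List.nodup_append, List.nodup_cons] at hl
  obtain ⟨h1, ⟨h2, h3⟩, h4⟩ := hl
  have hsA : s ∉ A := fun h => h4 s h s List.mem_cons_self rfl
  rw [bef_append] at hb
  rcases hb with hb | hb | hb
  · exact absurd (bef_mem hb).2 hsA
  · rcases hb with ⟨_, hb⟩ | hb
    · exact absurd hb h2
    · exact absurd (bef_mem hb).2 h2
  · exact gram_of_two (hA b hb.1)

theorem Step.sink {l l' : List B} {s : B} (h : Step M l s l') (hl : l.Nodup) :
    ∀ b, ¬ bef l' s b := by
  obtain ⟨A, C, rfl, rfl, hA⟩ := h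
  intro b hb
  rw [List.nodup_append, List.nodup_cons] at hl
  obtain ⟨h1, ⟨h2, h3⟩, h4⟩ := hl
  have hsA : s ∉ A := fun h => h4 s h s List.mem_cons_self rfl
  have hs : s ∉ A ++ C := by
    rw [List.mem_append]
    exact fun h => h.elim hsA h2
  rw [bef_append] at hb
  rcases hb with hb | hb | hb
  · exact hs (bef_mem hb).1
  · simp [bef] at hb
  · exact hs hb.1

theorem Step.bef_iff {l l' : List B} {s : B} (h : Step M l s l') {a b : B}
    (ha : a ≠ s) (hb : b ≠ s) : bef l' a b ↔ bef l a b := by
  obtain ⟨A, C, rfl, rfl, hA⟩ := h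
  simp only [bef_append, bef, List.mem_append, List.mem_cons, List.not_mem_nil, or_false, ha, hb,
    false_or, false_and]
  tauto

theorem om_eq_of_vanish {l l' : List B} {s : B}
    (h : ∀ a b, a ≠ s → b ≠ s → (bef l' a b ↔ bef l a b)) {x y : B → ℝ} (hx : x s = 0)
    (hy : y s = 0) : om M l' x y = om M l x y := by
  rw [om_apply, om_apply]
  refine Finset.sum_congr rfl fun a _ => Finset.sum_congr rfl fun b _ => ?_
  by_cases ha : a = s
  · rw [ha, hx]
    ring
  · by_cases hb : b = s
    · rw [hb, hy]
      ring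
    · rw [omM_congr (h a b ha hb) (h b a hb ha)]

theorem om_split (l : List B) (s : B) (x y : B → ℝ) :
    om M l x y = x s * om M l (sr s) y - y s * om M l (sr s) x +
      om M l (x - x s • sr s) (y - y s • sr s) := by
  have h0 : om M l (sr s) (sr s) = 0 := by rw [om_sr, omM_self]
  have h1 : om M l x (sr s) = -om M l (sr s) x := om_anti l _ _
  simp only [map_sub, map_smul, LinearMap.sub_apply, LinearMap.smul_apply, smul_eq_mul, h0, h1]
  ring

end Om

section Adapted

variable {B W : Type*} [Group W] {M : CoxeterMatrix B} (cs : CoxeterSystem M W)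
  [DecidableEq B] [Fintype B]

theorem Step.om_eq {l l' : List B} {s : B} (h : Step M l s l') (hl : l.Nodup) {x y : B → ℝ}
    (hx : Supp l x) (hy : Supp l y) :
    om M l (rho cs (cs.simple s) x) (rho cs (cs.simple s) y) = om M l' x y := by
  have hl' := h.nodup hl
  have hs := h.self_mem
  have hx' : Supp l' x := hx.mono fun a ha => (h.mem a).2 ha
  have hy' : Supp l' y := hy.mono fun a ha => (h.mem a).2 ha
  have e1 := om_source hl hs (h.source hl) hx
  have e2 := om_source hl hs (h.source hl) hy
  have e3 := om_sink (M := M) hl' ((h.mem s).2 hs)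
    (fun b hb => absurd hb (h.sink hl b)) hx'
  have e4 := om_sink (M := M) hl' ((h.mem s).2 hs)
    (fun b hb => absurd hb (h.sink hl b)) hy'
  have e5 := om_split (M := M) l s x y
  have e6 := om_split (M := M) l' s x y
  have e7 := om_eq_of_vanish (M := M) (fun a b ha hb => h.bef_iff ha hb)
    (x := x - x s • sr s) (y := y - y s • sr s) (by simp [sr]) (by simp [sr])
  have h0 : om M l (sr s) (sr s) = 0 := by rw [om_sr, omM_self]
  have h1 : om M l x (sr s) = -om M l (sr s) x := om_anti l _ _
  rw [rho_simple, rfl'_apply, rfl'_apply]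
  simp only [map_sub, map_smul, LinearMap.sub_apply, LinearMap.smul_apply, smul_eq_mul, h0, h1]
  rw [e6, e7, e5, e1, e2, e3, e4]
  ring

/-- Elements acting trivially on the coordinates outside of `l`. -/
def WS (l : List B) (g : W) : Prop := ∀ (x : B → ℝ) (k : B), k ∉ l → rho cs g x k = x k

variable {cs}

theorem WS.one (l : List B) : WS cs l 1 := fun x k _ => by rw [rho_one]

theorem WS.simple {l : List B} {s : B} (hs : s ∈ l) : WS cs l (cs.simple s) := by
  intro x k hk
  have hks : k ≠ s := fun h => hk (h ▸ hs)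
  rw [rho_simple, rfl'_apply]
  simp [sr, hks]

theorem WS.mul {l : List B} {g g' : W} (h : WS cs l g) (h' : WS cs l g') :
    WS cs l (g * g') := fun x k hk => by rw [rho_mul, h _ k hk, h' _ k hk]

theorem WS.inv {l : List B} {g : W} (h : WS cs l g) : WS cs l g⁻¹ := fun x k hk => by
  have h1 := h (rho cs g⁻¹ x) k hk
  rw [rho_self_inv] at h1
  exact h1.symm

theorem WS.word {l ω : List B} (h : ∀ a ∈ ω, a ∈ l) : WS cs l (cs.wordProd ω) := by
  induction ω with
  | nil =>
    rw [cs.wordProd_nil]
    exact WS.one l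
  | cons s ω ih =>
    rw [cs.wordProd_cons]
    exact (WS.simple (h s List.mem_cons_self)).mul (ih fun a ha => h a (List.mem_cons_of_mem _ ha))

theorem WS.supp {l : List B} {g : W} (h : WS cs l g) {x : B → ℝ} (hx : Supp l x) :
    Supp l (rho cs g x) := fun a ha => by rw [h x a ha, hx a ha]

theorem FirePath.om_eq {l l' ω : List B} (h : FirePath M l ω l') (hl : l.Nodup) {x y : B → ℝ}
    (hx : Supp l x) (hy : Supp l y) :
    om M l (rho cs (cs.wordProd ω) x) (rho cs (cs.wordProd ω) y) = om M l' x y := by
  induction ω generalizing l with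
  | nil =>
    have : l = l' := h
    rw [cs.wordProd_nil, rho_one, rho_one, this]
  | cons s ω ih =>
    obtain ⟨l₁, h1, h2⟩ := h
    have hx1 : Supp l₁ x := hx.mono fun a ha => (h1.mem a).2 ha
    have hy1 : Supp l₁ y := hy.mono fun a ha => (h1.mem a).2 ha
    have hws : WS cs l (cs.wordProd ω) := WS.word fun a ha => (h1.mem a).1 (h2.word_mem ha)
    rw [cs.wordProd_cons, rho_mul, rho_mul, h1.om_eq cs hl (hws.supp hx) (hws.supp hy),
      ih h2 (h1.nodup hl) hx1 hy1]

variable [Finite W]

variable (cs) in
/-- The alignment condition. -/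
def KK (l : List B) (v : W) : Prop := ∀ u t : Refl cs, Supp l (root cs u) → Supp l (root cs t) →
  u ∈ invSet cs v → t ∉ invSet cs v → 0 ≤ om M l (root cs u) (root cs t)

theorem KK.one (l : List B) : KK cs l 1 := by
  intro u t _ _ hu
  rw [invSet_one] at hu
  exact absurd hu (Set.notMem_empty u)

theorem root_conj_simple {s : B} {t : Refl cs} (ht : t ≠ simpleR cs s) :
    root cs (conjR cs (cs.simple s) t) = rho cs (cs.simple s) (root cs t) :=
  root_conjR cs (simple_nonneg cs ht)

theorem conj_conj_simple (s : B) (t : Refl cs) :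
    conjR cs (cs.simple s) (conjR cs (cs.simple s) t) = t := by
  rw [conjR_conjR, cs.simple_mul_simple_self, conjR_one]

theorem conj_simple_self (s : B) : conjR cs (cs.simple s) (simpleR cs s) = simpleR cs s := by
  apply Subtype.ext
  simp

theorem conj_simple_ne {s : B} {t : Refl cs} (ht : t ≠ simpleR cs s) :
    conjR cs (cs.simple s) t ≠ simpleR cs s := by
  intro h
  apply ht
  rw [← conj_conj_simple s t, h, conj_simple_self]

theorem Step.supp_conj {l l' : List B} {s : B} (h : Step M l s l') {t : Refl cs}
    (ht : t ≠ simpleR cs s) (hs : Supp l' (root cs t)) :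
    Supp l (root cs (conjR cs (cs.simple s) t)) := by
  rw [root_conj_simple ht]
  exact (WS.simple h.self_mem).supp (hs.mono fun a ha => (h.mem a).1 ha)

theorem Step.kk_iff {l l' : List B} {s : B} (h : Step M l s l') (hl : l.Nodup) {q : W}
    (hq : ¬ cs.IsLeftDescent q s) : KK cs l (cs.simple s * q) ↔ KK cs l' q := by
  have hl' := h.nodup hl
  have hs := h.self_mem
  have hsq : simpleR cs s ∉ invSet cs q := by
    rw [simpleR_mem_invSet]
    exact hq
  have hssq : simpleR cs s ∈ invSet cs (cs.simple s * q) := by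
    rw [simpleR_mem_invSet, cs.isLeftDescent_iff_not_isLeftDescent_mul,
      cs.simple_mul_simple_cancel_left]
    exact hq
  constructor
  · intro hK u t hu ht huq htq
    have hus : u ≠ simpleR cs s := fun h => hsq (h ▸ huq)
    have hu' : conjR cs (cs.simple s) u ∈ invSet cs (cs.simple s * q) := by
      rw [mem_invSet_simple_mul cs (conj_simple_ne hus), conj_conj_simple]
      exact huq
    have hxu : Supp l (root cs u) := hu.mono fun a ha => (h.mem a).1 ha
    have hxt : Supp l (root cs t) := ht.mono fun a ha => (h.mem a).1 ha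
    by_cases hts : t = simpleR cs s
    · rw [hts, root_simpleR, om_anti, om_sink (M := M) hl' ((h.mem s).2 hs)
        (fun b hb => absurd hb (h.sink hl b)) hu]
      have := bf_sr_le (M := M) (s := s) (root_nonneg cs u)
      linarith
    · have ht' : conjR cs (cs.simple s) t ∉ invSet cs (cs.simple s * q) := by
        rw [mem_invSet_simple_mul cs (conj_simple_ne hts), conj_conj_simple]
        exact htq
      have h1 := hK _ _ (h.supp_conj hus hu) (h.supp_conj hts ht) hu' ht'
      rwa [root_conj_simple hus, root_conj_simple hts, h.om_eq cs hl hxu hxt] at h1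
  · intro hK u t hu ht huq htq
    have hts : t ≠ simpleR cs s := fun h => htq (h ▸ hssq)
    by_cases hus : u = simpleR cs s
    · rw [hus, root_simpleR, om_source hl hs (h.source hl) ht]
      have := bf_sr_le (M := M) (s := s) (root_nonneg cs t)
      linarith
    · rw [mem_invSet_simple_mul cs hus] at huq
      rw [mem_invSet_simple_mul cs hts] at htq
      have hu' : Supp l (root cs (conjR cs (cs.simple s) u)) := by
        rw [root_conj_simple hus]
        exact (WS.simple hs).supp hu
      have ht' : Supp l (root cs (conjR cs (cs.simple s) t)) := by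
        rw [root_conj_simple hts]
        exact (WS.simple hs).supp ht
      have h1 := hK _ _ (hu'.mono fun a ha => (h.mem a).2 ha)
        (ht'.mono fun a ha => (h.mem a).2 ha) huq htq
      rw [← h.om_eq cs hl hu' ht', ← root_conj_simple (conj_simple_ne hus),
        ← root_conj_simple (conj_simple_ne hts), conj_conj_simple, conj_conj_simple] at h1
      exact h1

theorem asc_tail {s : B} {ω : List B} (h : Asc cs 1 (s :: ω)) :
    Asc cs 1 ω ∧ ¬ cs.IsLeftDescent (cs.wordProd ω) s := by
  rw [asc_iff, one_mul, cs.length_one, zero_add, List.length_cons, cs.wordProd_cons] at h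
  have h1 := cs.length_wordProd_le ω
  have h2 := cs.length_simple_mul (cs.wordProd ω) s
  constructor
  · rw [asc_iff, one_mul, cs.length_one, zero_add]
    omega
  · rw [cs.not_isLeftDescent_iff]
    omega

theorem KK.path {l l' ω : List B} (hl : l.Nodup) (h : FirePath M l ω l') (ha : Asc cs 1 ω) :
    KK cs l (cs.wordProd ω) := by
  induction ω generalizing l with
  | nil =>
    rw [cs.wordProd_nil]
    exact KK.one l
  | cons s ω ih =>
    obtain ⟨l₁, h1, h2⟩ := h
    obtain ⟨h3, h4⟩ := asc_tail ha
    rw [cs.wordProd_cons, h1.kk_iff hl h4]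
    exact ih (h1.nodup hl) h2 h3

/-- Greedy extension of a path. -/
theorem exists_extend {l l' ω : List B} (hl : l.Nodup) (h : FirePath M l ω l')
    (ha : Asc cs 1 ω) (hex : ∃ j ∈ l, ¬ cs.IsRightDescent (cs.wordProd ω) j) :
    ∃ j l'', FirePath M l (ω ++ [j]) l'' ∧ Asc cs 1 (ω ++ [j]) := by
  obtain ⟨j₀, hj₀, hj₀'⟩ := hex
  obtain ⟨A, j, C, hA, hj, hdesc⟩ := exists_first (P := fun j => ¬ cs.IsRightDescent
    (cs.wordProd ω) j) (l := l') ⟨j₀, (h.mem _).2 hj₀, hj₀'⟩
  have hK := KK.path hl h ha
  have hl' := h.nodup hl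
  have hws : WS cs l (cs.wordProd ω) := WS.word fun a ha => h.word_mem ha
  have hjl : j ∈ l := by
    rw [← h.mem, hA]
    simp
  refine ⟨j, A ++ C ++ [j], ?_, ?_⟩
  · rw [firePath_append]
    refine ⟨l', h, A ++ C ++ [j], ⟨A, C, hA, rfl, fun a haA => ?_⟩, rfl⟩
    have had := not_not.1 (hdesc a haA)
    have hal : a ∈ l := by
      rw [← h.mem, hA]
      simp [haA]
    have hbef : bef l' a j := by
      rw [hA, bef_append]
      right; right
      exact ⟨haA, List.mem_cons_self⟩
    have haj : a ≠ j := (bef_asymm hl' hbef).1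
    refine two_of_gram haj (M_ne_zero cs haj) ?_
    -- the two walls
    have hneg : rho cs (cs.wordProd ω) (sr a) ≤ 0 := rho_sr_nonpos cs had
    have ht : root cs (conjR cs (cs.wordProd ω) (simpleR cs j)) = rho cs (cs.wordProd ω) (sr j) :=
      root_wall cs hj
    have hu : root cs (conjR cs (cs.wordProd ω) (simpleR cs a)) =
        -rho cs (cs.wordProd ω) (sr a) := by
      rw [root_conjR_neg cs (by rw [root_simpleR]; exact hneg), root_simpleR]
    have hsa : Supp l (sr a) := fun k hk => by
      have : k ≠ a := fun h => hk (h ▸ hal)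
      simp [sr, this]
    have hsj : Supp l (sr j) := fun k hk => by
      have : k ≠ j := fun h => hk (h ▸ hjl)
      simp [sr, this]
    have h1 := hK (conjR cs (cs.wordProd ω) (simpleR cs a)) (conjR cs (cs.wordProd ω) (simpleR cs j))
      (by
        rw [hu]
        intro k hk
        rw [Pi.neg_apply, hws.supp hsa k hk, neg_zero])
      (by
        rw [ht]
        exact hws.supp hsj)
      (by
        rw [mem_invSet, hu, map_neg, rho_inv_self]
        exact neg_nonpos.2 (sr_nonneg a))
      (wall_not_mem cs hj)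
    rw [ht, hu, map_neg, LinearMap.neg_apply, h.om_eq hl hsa hsj, om_sr, omM_of_bef hl' hbef] at h1
    have h2 := gram_nonpos (M := M) haj
    linarith
  · rw [asc_append, one_mul]
    exact ⟨ha, hj, trivial⟩

/-- Extension to a full path. -/
theorem exists_full {l l' ω : List B} (hl : l.Nodup) (h : FirePath M l ω l')
    (ha : Asc cs 1 ω) : ∃ ω' l'', FirePath M l (ω ++ ω') l'' ∧ Asc cs 1 (ω ++ ω') ∧
      ∀ j ∈ l, cs.IsRightDescent (cs.wordProd (ω ++ ω')) j := by
  obtain ⟨w₀, hw₀⟩ := Finite.exists_max (fun w : W => cs.length w)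
  have main : ∀ (k : ℕ) (ω l' : List B), FirePath M l ω l' → Asc cs 1 ω →
      cs.length w₀ - ω.length = k → ∃ ω' l'', FirePath M l (ω ++ ω') l'' ∧ Asc cs 1 (ω ++ ω') ∧
      ∀ j ∈ l, cs.IsRightDescent (cs.wordProd (ω ++ ω')) j := by
    intro k
    induction k with
    | zero =>
      intro ω l' h ha hk
      by_cases hex : ∃ j ∈ l, ¬ cs.IsRightDescent (cs.wordProd ω) j
      · obtain ⟨j, l'', h1, h2⟩ := exists_extend hl h ha hex
        exfalso
        rw [asc_iff, one_mul, cs.length_one, zero_add, List.length_append,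
          List.length_singleton] at h2
        have := hw₀ (cs.wordProd (ω ++ [j]))
        omega
      · push Not at hex
        exact ⟨[], l', by rwa [List.append_nil], by rwa [List.append_nil], by
          rwa [List.append_nil]⟩
    | succ k ih =>
      intro ω l' h ha hk
      by_cases hex : ∃ j ∈ l, ¬ cs.IsRightDescent (cs.wordProd ω) j
      · obtain ⟨j, l'', h1, h2⟩ := exists_extend hl h ha hex
        obtain ⟨ω', l₃, h3, h4, h5⟩ := ih (ω ++ [j]) l'' h1 h2 (by
          rw [List.length_append, List.length_singleton]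
          omega)
        rw [List.append_assoc] at h3 h4 h5
        exact ⟨_, _, h3, h4, h5⟩
      · push Not at hex
        exact ⟨[], l', by rwa [List.append_nil], by rwa [List.append_nil], by
          rwa [List.append_nil]⟩
  exact main _ ω l' h ha rfl

/-- All reflections supported in `l` are crossed by a full path. -/
theorem mem_crossings_full {l l' ω : List B} (h : FirePath M l ω l') (ha : Asc cs 1 ω)
    (hd : ∀ j ∈ l, cs.IsRightDescent (cs.wordProd ω) j) {t : Refl cs}
    (ht : Supp l (root cs t)) : t ∈ crossings cs 1 ω := by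
  have hws : WS cs l (cs.wordProd ω) := WS.word fun a ha => h.word_mem ha
  have h1 := invSet_path cs ha
  rw [one_mul, invSet_one, Set.empty_union] at h1
  have h2 : t ∈ invSet cs (cs.wordProd ω) := by
    by_contra hn
    rw [not_mem_invSet] at hn
    have h3 := rho_nonpos_of cs (w := cs.wordProd ω) hn (fun i hi => by
      apply hd
      by_contra hi'
      exact hi (hws.inv.supp ht i hi'))
    rw [rho_self_inv] at h3
    exact root_ne_zero cs t (le_antisymm h3 (root_nonneg cs t))
  rw [h1] at h2
  exact h2

end Adapted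

end Pool.Agent.Lib.MP_185a46_al
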