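import Pool.Agent.Lib.MP_185a46_al.Roots

/-!
# The Artin group and Matsumoto's theorem
-/

set_option autoImplicit false

open CoxeterSystem

namespace Pool.Agent.Lib.MP_185a46_al

section Artin

variable {B : Type*}

/-- The braid relations. -/
def artinRels (M : CoxeterMatrix B) : Set (FreeGroup B) :=
  {x | ∃ i j, x = ((alt i j (M i j)).map FreeGroup.of).prod *
    (((alt j i (M i j)).map FreeGroup.of).prod)⁻¹}

/-- The Artin group. -/
abbrev Artin (M : CoxeterMatrix B) := PresentedGroup (artinRels M)

variable {M : CoxeterMatrix B}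

/-- The generators of the Artin group. -/
def ag (i : B) : Artin M := PresentedGroup.of i

/-- The product of a word in the Artin group. -/
def aw (ω : List B) : Artin M := (ω.map ag).prod

@[simp] theorem aw_nil : aw ([] : List B) = (1 : Artin M) := rfl

@[simp] theorem aw_cons (i : B) (ω : List B) : (aw (i :: ω) : Artin M) = ag i * aw ω := by
  simp [aw]

@[simp] theorem aw_append (ω ω' : List B) : (aw (ω ++ ω') : Artin M) = aw ω * aw ω' := by
  simp [aw]

theorem aw_eq_mk (ω : List B) :
    (aw ω : Artin M) = PresentedGroup.mk (artinRels M) ((ω.map FreeGroup.of).prod) := by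
  induction ω with
  | nil => simp
  | cons i ω ih =>
    rw [aw_cons, ih, List.map_cons, List.prod_cons, map_mul]
    rfl

theorem aw_alt (i j : B) : (aw (alt i j (M i j)) : Artin M) = aw (alt j i (M i j)) := by
  rw [aw_eq_mk, aw_eq_mk, ← mul_inv_eq_one, ← map_inv, ← map_mul]
  exact PresentedGroup.one_of_mem ⟨i, j, rfl⟩

theorem aw_alt_reverse (i j : B) :
    (aw (alt i j (M i j)).reverse : Artin M) = aw (alt j i (M i j)).reverse := by
  rw [alt_reverse, alt_reverse]
  rcases nxt_mem i j (M i j) with h | h
  · rw [h.1, h.2]
    exact (aw_alt i j).symm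
  · rw [h.1, h.2]
    exact aw_alt i j

variable {W : Type*} [Group W] (cs : CoxeterSystem M W)

/-- The projection of the Artin group to the Coxeter group. -/
def aToW : Artin M →* W :=
  PresentedGroup.toGroup (f := cs.simple) (by
    rintro r ⟨i, j, rfl⟩
    have h := wordProd_alt cs i j
    unfold CoxeterSystem.wordProd at h
    have h1 : ∀ ω : List B, FreeGroup.lift cs.simple ((ω.map FreeGroup.of).prod) =
        (ω.map cs.simple).prod := by
      intro ω
      rw [map_list_prod, List.map_map]
      congr 1
      exact List.map_congr_left fun a _ => by simp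
    rw [map_mul, map_inv, mul_inv_eq_one, h1, h1, h])

@[simp] theorem aToW_ag (i : B) : aToW cs (ag i) = cs.simple i := by
  exact PresentedGroup.toGroup.of _

@[simp] theorem aToW_aw (ω : List B) : aToW cs (aw ω) = cs.wordProd ω := by
  induction ω with
  | nil => simp
  | cons i ω ih => rw [aw_cons, map_mul, ih, aToW_ag, cs.wordProd_cons]

end Artin

section Matsumoto

variable {B W : Type*} [Group W] {M : CoxeterMatrix B} (cs : CoxeterSystem M W)
  [DecidableEq B] [Fintype B] [Finite W]

/-- If `i` and `j` are right descents of `w`, then `w` can be shortened along the alternating word. -/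
theorem length_mul_alt {w : W} {i j : B} (hij : i ≠ j) (hi : cs.IsRightDescent w i)
    (hj : cs.IsRightDescent w j) {k : ℕ} (hk : k ≤ M i j) :
    cs.length (w * cs.wordProd (alt i j k)) + k = cs.length w := by
  induction k with
  | zero => simp
  | succ k ih =>
    have h1 := ih (by omega)
    have h2 : cs.IsRightDescent (w * cs.wordProd (alt i j k)) (nxt i j k) := by
      rw [← nonpos_iff, rho_mul, rho_wordProd_alt, map_add, map_smul, map_smul]
      exact add_nonpos
        (smul_nonpos_of_nonneg_of_nonpos (cc_nonneg hij (M_ne_zero cs hij) hk)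
          (rho_sr_nonpos cs hi))
        (smul_nonpos_of_nonneg_of_nonpos (cc_nonneg hij (M_ne_zero cs hij) (by omega))
          (rho_sr_nonpos cs hj))
    have h3 := cs.isRightDescent_iff.1 h2
    rw [alt_succ', cs.wordProd_append, cs.wordProd_singleton, ← mul_assoc]
    omega

/-- If `i` and `j` are right ascents of `w`, then `w` can be lengthened along the alternating
word. -/
theorem length_mul_alt' {w : W} {i j : B} (hij : i ≠ j) (hi : ¬ cs.IsRightDescent w i)
    (hj : ¬ cs.IsRightDescent w j) {k : ℕ} (hk : k ≤ M i j) :
    cs.length (w * cs.wordProd (alt i j k)) = cs.length w + k := by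
  induction k with
  | zero => simp
  | succ k ih =>
    have h1 := ih (by omega)
    have h2 : ¬ cs.IsRightDescent (w * cs.wordProd (alt i j k)) (nxt i j k) := by
      rw [← nonneg_iff, rho_mul, rho_wordProd_alt, map_add, map_smul, map_smul]
      exact add_nonneg
        (smul_nonneg (cc_nonneg hij (M_ne_zero cs hij) hk) (rho_sr_nonneg cs hi))
        (smul_nonneg (cc_nonneg hij (M_ne_zero cs hij) (by omega)) (rho_sr_nonneg cs hj))
    have h3 := cs.not_isRightDescent_iff.1 h2
    rw [alt_succ', cs.wordProd_append, cs.wordProd_singleton, ← mul_assoc]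
    omega

theorem isReduced_init {ω : List B} {i : B} (h : cs.IsReduced (ω ++ [i])) : cs.IsReduced ω := by
  have := h.take ω.length
  rwa [List.take_left] at this

theorem descent_last {ω : List B} {i : B} (h : cs.IsReduced (ω ++ [i])) :
    cs.IsRightDescent (cs.wordProd (ω ++ [i])) i := by
  unfold CoxeterSystem.IsRightDescent
  rw [h.eq, cs.wordProd_append, cs.wordProd_singleton, cs.simple_mul_simple_cancel_right,
    (isReduced_init cs h).eq]
  simp

theorem matsumoto : ∀ (n : ℕ) (ω ω' : List B), ω.length = n → cs.IsReduced ω →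
    cs.IsReduced ω' → cs.wordProd ω = cs.wordProd ω' → (aw ω : Artin M) = aw ω' := by
  intro n
  induction n with
  | zero =>
    intro ω ω' hn hω hω' h
    have h1 := hω.eq
    rw [h, hω'.eq, hn] at h1
    rw [List.eq_nil_of_length_eq_zero hn, List.eq_nil_of_length_eq_zero h1]
  | succ n ih =>
    intro ω ω' hn hω hω' h
    have hn' : ω'.length = n + 1 := by
      have h1 := hω.eq
      rw [h, hω'.eq, hn] at h1
      exact h1
    rcases List.eq_nil_or_concat ω with rfl | ⟨ω₁, i, rfl⟩
    · simp at hn
    rcases List.eq_nil_or_concat ω' with rfl | ⟨ω₁', j, rfl⟩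
    · simp at hn'
    rw [List.concat_eq_append] at hω hn h ⊢
    rw [List.concat_eq_append] at hω' hn' h ⊢
    rw [List.length_append, List.length_singleton] at hn hn'
    by_cases hij : i = j
    · subst hij
      rw [aw_append, aw_append]
      congr 1
      refine ih ω₁ ω₁' (by omega) (isReduced_init cs hω) (isReduced_init cs hω') ?_
      rw [cs.wordProd_append, cs.wordProd_append] at h
      exact mul_right_cancel h
    -- the two words end with different letters
    have key : ∀ (w : W) (a b : B) (ν : List B), a ≠ b → cs.IsRightDescent w a →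
        cs.IsRightDescent w b → cs.IsReduced ν → cs.wordProd ν = w * cs.wordProd (alt a b (M a b)) →
        ∀ ω₀ : List B, ω₀.length = n → cs.IsReduced (ω₀ ++ [a]) → cs.wordProd (ω₀ ++ [a]) = w →
        (aw (ω₀ ++ [a]) : Artin M) = aw (ν ++ (alt a b (M a b)).reverse) := by
      intro w a b ν hab ha hb hν hνw ω₀ hω₀ hred hw
      obtain ⟨m, hm⟩ : ∃ m, M a b = m + 1 := ⟨M a b - 1, by
        have := M_ne_zero cs hab
        omega⟩
      have hlen := length_mul_alt cs hab ha hb (le_refl (M a b))
      have hp : cs.wordProd (ν ++ (alt a b (M a b)).reverse) = w := by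
        rw [cs.wordProd_append, cs.wordProd_reverse, hνw, mul_inv_cancel_right]
      have hred2 : cs.IsReduced (ν ++ (alt a b (M a b)).reverse) := by
        unfold CoxeterSystem.IsReduced
        rw [hp, List.length_append, List.length_reverse, alt_length, ← hν.eq, hνw]
        omega
      rw [hm, alt_succ, List.reverse_cons, ← List.append_assoc] at hred2 hp ⊢
      rw [aw_append, aw_append (ν ++ _)]
      congr 1
      refine ih ω₀ _ hω₀ (isReduced_init cs hred) (isReduced_init cs hred2) ?_
      have h5 := hw.trans hp.symm
      rw [cs.wordProd_append, cs.wordProd_append (ν ++ _)] at h5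
      exact mul_right_cancel h5
    set w := cs.wordProd (ω₁ ++ [i]) with hw
    have hi : cs.IsRightDescent w i := descent_last cs hω
    have hj : cs.IsRightDescent w j := by
      rw [h]
      exact descent_last cs hω'
    obtain ⟨ν, hν, hνw⟩ := cs.exists_isReduced (w * cs.wordProd (alt i j (M i j)))
    have e1 := key w i j ν hij hi hj hν hνw.symm ω₁ (by omega) hω rfl
    have e2 := key w j i ν (Ne.symm hij) hj hi hν (by
      rw [← hνw, M.symmetric j i, wordProd_alt]) ω₁' (by omega) hω' h.symm
    rw [e1, e2, aw_append, aw_append, M.symmetric j i, aw_alt_reverse]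

/-- The positive lift of an element of `W` (Matsumoto section). -/
noncomputable def sg (w : W) : Artin M := aw (cs.exists_isReduced w).choose

theorem sg_wordProd {ω : List B} (hω : cs.IsReduced ω) : sg cs (cs.wordProd ω) = aw ω := by
  obtain ⟨h1, h2⟩ := (cs.exists_isReduced (cs.wordProd ω)).choose_spec
  exact matsumoto cs _ _ _ rfl h1 hω h2.symm

@[simp] theorem sg_one : sg cs (1 : W) = 1 := by
  have := sg_wordProd cs (ω := []) (by simp [CoxeterSystem.IsReduced])
  simpa using this

theorem sg_mul {u v : W} (h : cs.length (u * v) = cs.length u + cs.length v) :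
    sg cs (u * v) = sg cs u * sg cs v := by
  obtain ⟨ω, hω, rfl⟩ := cs.exists_isReduced u
  obtain ⟨ω', hω', rfl⟩ := cs.exists_isReduced v
  rw [← cs.wordProd_append, sg_wordProd cs hω, sg_wordProd cs hω', sg_wordProd, aw_append]
  unfold CoxeterSystem.IsReduced
  rw [cs.wordProd_append, h, hω.eq, hω'.eq, List.length_append]

@[simp] theorem sg_simple (i : B) : sg cs (cs.simple i) = ag i := by
  have := sg_wordProd cs (ω := [i]) (by simp [CoxeterSystem.IsReduced])
  simpa using this

theorem sg_mul_simple {w : W} {i : B} (h : ¬ cs.IsRightDescent w i) :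
    sg cs (w * cs.simple i) = sg cs w * ag i := by
  rw [sg_mul, sg_simple]
  rw [cs.not_isRightDescent_iff.1 h, cs.length_simple]

theorem sg_simple_mul {w : W} {i : B} (h : ¬ cs.IsLeftDescent w i) :
    sg cs (cs.simple i * w) = ag i * sg cs w := by
  rw [sg_mul, sg_simple]
  rw [cs.not_isLeftDescent_iff.1 h, cs.length_simple, add_comm]

theorem sg_comm {g : W} {i j : B} (h : g * cs.simple i = cs.simple j * g) :
    sg cs g * ag i = ag j * sg cs g := by
  have main : ∀ g : W, g * cs.simple i = cs.simple j * g → ¬ cs.IsRightDescent g i →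
      sg cs g * ag i = ag j * sg cs g := by
    intro g h hi
    have hj : ¬ cs.IsLeftDescent g j := by
      rw [cs.not_isLeftDescent_iff, ← h]
      exact cs.not_isRightDescent_iff.1 hi
    rw [← sg_mul_simple cs hi, ← sg_simple_mul cs hj, h]
  by_cases hi : cs.IsRightDescent g i
  · have h1 := cs.isRightDescent_iff_not_isRightDescent_mul.1 hi
    have h2 : g * cs.simple i * cs.simple i = cs.simple j * (g * cs.simple i) := by
      rw [h, ← mul_assoc, cs.simple_mul_simple_self, one_mul, ← h,
        cs.simple_mul_simple_cancel_right]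
    have h3 := main _ h2 h1
    have h4 := sg_mul_simple cs h1
    rw [cs.simple_mul_simple_cancel_right] at h4
    rw [h4, h3, mul_assoc, h3]
  · exact main g h hi

@[simp] theorem aToW_sg (w : W) : aToW cs (sg cs w) = w := by
  obtain ⟨ω, hω, rfl⟩ := cs.exists_isReduced w
  rw [sg_wordProd cs hω, aToW_aw]

end Matsumoto

end Pool.Agent.Lib.MP_185a46_al
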