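import Mathlib

/-!
# Dual presentation of the braid group of a Coxeter system, the full twist and its reduced words
-/

set_option autoImplicit false

open CoxeterSystem

namespace Pool.Agent.Lib.MP_185a46_al

variable {B W : Type*} [Group W] {M : CoxeterMatrix B} (cs : CoxeterSystem M W)

/-- The reflections of the Coxeter system. -/
abbrev Refl := {t : W // cs.IsReflection t}

/-- The simple reflection of index `i`, as a reflection. -/
def simpleR (i : B) : Refl cs := ⟨cs.simple i, cs.isReflection_simple i⟩

/-- The dual braid relations of `c`: the products of any two factorizations of `c` into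
`r` reflections are equal, where `r` is the number of simple reflections. -/
def dualRels (c : W) : Set (FreeGroup (Refl cs)) :=
  {x | ∃ L L' : List (Refl cs), L.length = Nat.card B ∧ L'.length = Nat.card B ∧
    (L.map Subtype.val).prod = c ∧ (L'.map Subtype.val).prod = c ∧
    x = (L.map FreeGroup.of).prod * ((L'.map FreeGroup.of).prod)⁻¹}

/-- The braid group, given by its dual presentation. -/
abbrev DualBraid (c : W) := PresentedGroup (dualRels cs c)

/-- The dual generator attached to the reflection `t`. -/
def dgen (c : W) (t : Refl cs) : DualBraid cs c := PresentedGroup.of t

/-- The homomorphism from the braid group to `W`; it maps the generator of `t` to `t`. -/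
def toW (c : W) : DualBraid cs c →* W :=
  PresentedGroup.toGroup (f := Subtype.val) (by
    rintro r ⟨L, L', _, _, h1, h2, rfl⟩
    have h : ∀ L : List (Refl cs), FreeGroup.lift (Subtype.val : Refl cs → W)
        ((L.map FreeGroup.of).prod) = (L.map Subtype.val).prod := by
      intro L
      rw [map_list_prod, List.map_map]
      congr 1
      exact List.map_congr_left fun a _ => by simp
    rw [map_mul, map_inv, mul_inv_eq_one, h, h, h1, h2])

theorem toW_dgen (c : W) (t : Refl cs) : toW cs c (dgen cs c t) = t := by
  exact PresentedGroup.toGroup.of _

/-- The pure braid group: the kernel of the homomorphism to `W`. -/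
abbrev PureBraid (c : W) : Type _ := (toW cs c).ker

/-- The square of the dual generator of `t`, as an element of the pure braid group. -/
def sqgen (c : W) (t : Refl cs) : PureBraid cs c :=
  ⟨dgen cs c t ^ 2, by rw [MonoidHom.mem_ker, map_pow, toW_dgen, t.2.pow_two]⟩

/-- The lift to the braid group of a word in the simple reflections. If the word contains each
simple reflection once and `c` is its product, this is the lift of the Coxeter element `c`. -/
def wordLift (c : W) (ω : List B) : DualBraid cs c :=
  (ω.map fun i => dgen cs c (simpleR cs i)).prod

theorem toW_wordLift (c : W) (ω : List B) : toW cs c (wordLift cs c ω) = cs.wordProd ω := by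
  unfold wordLift
  rw [map_list_prod, List.map_map]
  unfold CoxeterSystem.wordProd
  congr 1
  exact List.map_congr_left fun a _ => by
    simp only [Function.comp_apply, toW_dgen]
    rfl

/-- The power `𝐜 ^ h` of the lift `𝐜` of the Coxeter element `c`, the product of the list `l`,
where `h` is the order of `c`; as an element of the pure braid group. -/
noncomputable def coxTwist (l : List B) : PureBraid cs (cs.wordProd l) :=
  ⟨wordLift cs (cs.wordProd l) l ^ orderOf (cs.wordProd l), by
    rw [MonoidHom.mem_ker, map_pow, toW_wordLift, pow_orderOf_eq_one]⟩

/-- The element `z` is the full twist: it is the power `𝐜 ^ h` of the lift of the Coxeter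
element, or the square of the lift of a reduced word of the longest element. (The two coincide
if the Coxeter group is irreducible.) -/
def IsFullTwist (l : List B) (z : PureBraid cs (cs.wordProd l)) : Prop :=
  z = coxTwist cs l ∨ ∃ ω : List B, cs.IsReduced ω ∧
    (∀ i, cs.IsRightDescent (cs.wordProd ω) i) ∧
    z.1 = wordLift cs (cs.wordProd l) ω ^ 2

/-- A positive word in the squares of the dual generators that evaluates to `z`. -/
def IsWordFor (c : W) (z : PureBraid cs c) (w : List (Refl cs)) : Prop :=
  (w.map (sqgen cs c)).prod = z

/-- A reduced word for `z`: it has minimal length among the positive words that evaluate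
to `z`. -/
def IsReducedWordFor (c : W) (z : PureBraid cs c) (w : List (Refl cs)) : Prop :=
  IsWordFor cs c z w ∧ ∀ w' : List (Refl cs), IsWordFor cs c z w' → w.length ≤ w'.length

/-- The relations that equate all reduced words for `z`. -/
def redRels (c : W) (z : PureBraid cs c) : Set (FreeGroup (Refl cs)) :=
  {x | ∃ w w' : List (Refl cs), IsReducedWordFor cs c z w ∧ IsReducedWordFor cs c z w' ∧
    x = (w.map FreeGroup.of).prod * ((w'.map FreeGroup.of).prod)⁻¹}

/-- The group with one generator for each reflection and the relations that equate all reduced
words for `z`. -/
abbrev RedGroup (c : W) (z : PureBraid cs c) := PresentedGroup (redRels cs c z)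

end Pool.Agent.Lib.MP_185a46_al
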