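import Pool.Agent.Lib.MP_185a46_al.Fact

/-!
# The dual braid group is the Artin group
-/

set_option autoImplicit false
set_option linter.unusedSectionVars false

open CoxeterSystem

namespace Pool.Agent.Lib.MP_185a46_al

variable {B W : Type*} [Group W] {M : CoxeterMatrix B} {cs : CoxeterSystem M W}
  [DecidableEq B] [Fintype B] [Finite W]

theorem dual_rel {c : W} {L L' : List (Refl cs)} (hL : L.length = Nat.card B)
    (hL' : L'.length = Nat.card B) (h : rp cs L = c) (h' : rp cs L' = c) :
    (L.map (dgen cs c)).prod = (L'.map (dgen cs c)).prod := by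
  have hmk : ∀ L : List (Refl cs), (L.map (dgen cs c)).prod =
      PresentedGroup.mk (dualRels cs c) ((L.map FreeGroup.of).prod) := by
    intro L
    rw [map_list_prod, List.map_map]
    rfl
  rw [hmk, hmk, ← mul_inv_eq_one, ← map_inv, ← map_mul]
  exact PresentedGroup.one_of_mem ⟨L, L', hL, hL', h, h', rfl⟩

/-- Two reflections adjacent in a factorization. -/
def Adj (c : W) (t u : Refl cs) : Prop :=
  ∃ A C : List (Refl cs), (A ++ t :: u :: C).length = Nat.card B ∧ rp cs (A ++ t :: u :: C) = c

theorem hurwitz {c : W} {t u t' u' : Refl cs} (h : Adj c t u)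
    (h' : (t : W) * u = t' * u') : dgen cs c t * dgen cs c u = dgen cs c t' * dgen cs c u' := by
  obtain ⟨A, C, h1, h2⟩ := h
  have h3 : rp cs (A ++ t' :: u' :: C) = c := by
    rw [← h2, rp_append, rp_append, rp_cons, rp_cons, rp_cons, rp_cons, ← mul_assoc (t' : W),
      ← h', mul_assoc (t : W)]
  have h4 := dual_rel h1 (L' := A ++ t' :: u' :: C) (by
    simp only [List.length_append, List.length_cons] at h1 ⊢
    exact h1) h2 h3
  simp only [List.map_append, List.map_cons, List.prod_append, List.prod_cons] at h4
  have h5 := mul_left_cancel h4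
  rw [← mul_assoc, ← mul_assoc] at h5
  exact mul_right_cancel h5

theorem bef_split {l : List B} {a b : B} (h : bef l a b) :
    ∃ A C E, l = A ++ a :: (C ++ b :: E) := by
  induction l with
  | nil => exact h.elim
  | cons c l ih =>
    rcases h with ⟨rfl, h⟩ | h
    · obtain ⟨C, E, rfl⟩ := List.append_of_mem h
      exact ⟨[], C, E, rfl⟩
    · obtain ⟨A, C, E, rfl⟩ := ih h
      exact ⟨c :: A, C, E, rfl⟩

theorem adj_of_bef {l : List B} (hn : l.length = Nat.card B) {i j : B} (h : bef l i j) :
    Adj (cs.wordProd l) (simpleR cs i) (simpleR cs j) := by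
  obtain ⟨A, C, E, rfl⟩ := bef_split h
  refine ⟨A.map (simpleR cs), (C.map (simpleR cs)).map (conjR cs (cs.simple j)) ++
    E.map (simpleR cs), ?_, ?_⟩
  · rw [← hn]
    simp only [List.length_append, List.length_cons, List.length_map]
    omega
  · rw [rp_append, rp_cons, rp_cons, rp_append, rp_conj, rp_simple, rp_simple, rp_simple,
      cs.wordProd_append, cs.wordProd_cons, cs.wordProd_append, cs.wordProd_cons, simpleR_val,
      simpleR_val, cs.inv_simple]
    simp only [mul_assoc]
    rw [cs.simple_mul_simple_cancel_left]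

theorem braid_dual {c : W} {i j : B} (h : Adj c (simpleR cs i) (simpleR cs j))
    (h0 : M i j ≠ 0) :
    ((alt i j (M i j)).map fun a => dgen cs c (simpleR cs a)).prod =
      ((alt j i (M i j)).map fun a => dgen cs c (simpleR cs a)).prod := by
  set X : ℕ → DualBraid cs c := fun k =>
    dgen cs c (conjR cs (cs.wordProd (alt i j k)) (simpleR cs (nxt i j k))) with hX
  set S : ℕ → DualBraid cs c := fun k =>
    ((alt i j k).map fun a => dgen cs c (simpleR cs a)).prod with hS
  have hT : ∀ k, (conjR cs (cs.wordProd (alt i j k)) (simpleR cs (nxt i j k)) : W) =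
      cs.wordProd (alt i j (k + 1)) * (cs.wordProd (alt i j k))⁻¹ := by
    intro k
    rw [conjR_val, simpleR_val, alt_succ', cs.wordProd_append, cs.wordProd_singleton]
  have hP : ∀ k, cs.wordProd (alt i j (k + 2)) =
      cs.simple i * cs.simple j * cs.wordProd (alt i j k) := by
    intro k
    rw [alt_succ, alt_succ, cs.wordProd_cons, cs.wordProd_cons, mul_assoc]
  have hXX : ∀ k, X (k + 1) * X k =
      dgen cs c (simpleR cs i) * dgen cs c (simpleR cs j) := by
    intro k
    refine (hurwitz h ?_).symm
    rw [hT, hT, hP, simpleR_val, simpleR_val]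
    group
  have hSS : ∀ k, S (k + 1) = X k * S k := by
    intro k
    induction k with
    | zero => simp [hS, hX]
    | succ k ih =>
      have h1 : S (k + 2) = dgen cs c (simpleR cs i) * dgen cs c (simpleR cs j) * S k := by
        simp only [hS, alt_succ, List.map_cons, List.prod_cons, mul_assoc]
      rw [show k + 1 + 1 = k + 2 by ring, h1, ih, ← mul_assoc, hXX k]
  obtain ⟨m, hm⟩ : ∃ m, M i j = m + 1 := ⟨M i j - 1, by omega⟩
  have hlast : X m = dgen cs c (simpleR cs j) := by
    show dgen cs c _ = _
    congr 1
    apply Subtype.ext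
    rw [hT, simpleR_val, ← hm, wordProd_alt, hm, alt_succ, cs.wordProd_cons,
      mul_inv_cancel_right]
  have h1 := hSS m
  rw [hlast] at h1
  rw [hm]
  rw [show ((alt i j (m + 1)).map fun a => dgen cs c (simpleR cs a)).prod = S (m + 1) from rfl, h1,
    alt_succ j i, List.map_cons, List.prod_cons]

/-- The list contains each index once. -/
structure Complete (l : List B) : Prop where
  nodup : l.Nodup
  mem : ∀ i, i ∈ l

theorem Complete.length {l : List B} (h : Complete l) : l.length = Nat.card B := by
  rw [Nat.card_eq_fintype_card, ← List.toFinset_card_of_nodup h.nodup]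
  congr 1
  ext i
  simp [h.mem i]

theorem Complete.supp {l : List B} (h : Complete l) (x : B → ℝ) : Supp l x :=
  fun a ha => absurd (h.mem a) ha

theorem Complete.step {l l' : List B} {s : B} (h : Complete l) (hs : Step M l s l') :
    Complete l' := ⟨hs.nodup h.nodup, fun i => (hs.mem i).2 (h.mem i)⟩

theorem Complete.path {l l' ω : List B} (h : Complete l) (hs : FirePath M l ω l') :
    Complete l' := ⟨hs.nodup h.nodup, fun i => (hs.mem i).2 (h.mem i)⟩

variable (cs) in
/-- The homomorphism from the Artin group to the dual braid group. -/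
def beta {l : List B} (h : Complete l) : Artin M →* DualBraid cs (cs.wordProd l) :=
  PresentedGroup.toGroup (f := fun i => dgen cs (cs.wordProd l) (simpleR cs i)) (by
    rintro r ⟨i, j, rfl⟩
    have h1 : ∀ ω : List B, FreeGroup.lift (fun i => dgen cs (cs.wordProd l) (simpleR cs i))
        ((ω.map FreeGroup.of).prod) =
        (ω.map fun i => dgen cs (cs.wordProd l) (simpleR cs i)).prod := by
      intro ω
      rw [map_list_prod, List.map_map]
      exact congrArg List.prod (List.map_congr_left fun a _ => by simp)
    rw [map_mul, map_inv, mul_inv_eq_one, h1, h1]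
    by_cases hij : i = j
    · subst hij; trivial
    rcases bef_total (h.mem i) (h.mem j) hij with hb | hb
    · exact braid_dual (adj_of_bef h.length hb) (M_ne_zero cs hij)
    · have h2 := braid_dual (adj_of_bef (cs := cs) h.length hb) (M_ne_zero cs (Ne.symm hij))
      rw [M.symmetric j i] at h2
      exact h2.symm)

theorem beta_ag {l : List B} (h : Complete l) (i : B) :
    beta cs h (ag i) = dgen cs _ (simpleR cs i) := by
  exact PresentedGroup.toGroup.of _

theorem beta_aw {l : List B} (h : Complete l) (ω : List B) :
    beta cs h (aw ω) = (ω.map fun i => dgen cs _ (simpleR cs i)).prod := by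
  induction ω with
  | nil => simp
  | cons i ω ih => rw [aw_cons, map_mul, ih, beta_ag, List.map_cons, List.prod_cons]

variable (cs) in
/-- Conjugation as a homomorphism between dual braid groups. -/
def conjD (g : W) {c c' : W} (h : g * c' * g⁻¹ = c) : DualBraid cs c' →* DualBraid cs c :=
  PresentedGroup.toGroup (f := fun t => dgen cs c (conjR cs g t)) (by
    rintro r ⟨L, L', h1, h2, h3, h4, rfl⟩
    have h5 : ∀ L : List (Refl cs), FreeGroup.lift (fun t => dgen cs c (conjR cs g t))
        ((L.map FreeGroup.of).prod) = ((L.map (conjR cs g)).map (dgen cs c)).prod := by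
      intro L
      rw [map_list_prod, List.map_map, List.map_map]
      exact congrArg List.prod (List.map_congr_left fun a _ => by simp)
    rw [map_mul, map_inv, mul_inv_eq_one, h5, h5]
    apply dual_rel
    · rw [List.length_map, h1]
    · rw [List.length_map, h2]
    · rw [rp_conj, ← h]
      rw [show rp cs L = c' from h3]
    · rw [rp_conj, ← h]
      rw [show rp cs L' = c' from h4])

theorem conjD_dgen (g : W) {c c' : W} (h : g * c' * g⁻¹ = c) (t : Refl cs) :
    conjD cs g h (dgen cs c' t) = dgen cs c (conjR cs g t) := by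
  exact PresentedGroup.toGroup.of _

theorem dgen_conj_step {l l' : List B} {s : B} (h : Complete l) (hs : Step M l s l') (i : B) :
    dgen cs (cs.wordProd l) (conjR cs (cs.simple s) (simpleR cs i)) =
      dgen cs _ (simpleR cs s) * dgen cs _ (simpleR cs i) * (dgen cs _ (simpleR cs s))⁻¹ := by
  by_cases hi : i = s
  · rw [hi, conj_simple_self, mul_inv_cancel_right]
  obtain ⟨A, C, hl, _, hA⟩ := hs
  have hil : i ∈ A ++ C := by
    have h1 := h.mem i
    rw [hl] at h1
    simp only [List.mem_append, List.mem_cons, hi, false_or] at h1 ⊢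
    exact h1
  have hprod : cs.wordProd l = cs.wordProd (s :: (A ++ C)) := by
    rw [hl]
    have h1 := Step.prod' (M := M) (f := cs.simple) (fun a b => simple_comm) (C := C) hA
    rw [cs.wordProd_cons]
    exact h1
  have hadj : Adj (cs.wordProd l) (simpleR cs s) (simpleR cs i) := by
    rw [hprod]
    apply adj_of_bef
    · rw [← h.length, hl]
      simp only [List.length_cons, List.length_append]
      omega
    · left
      exact ⟨rfl, hil⟩
  have h2 := hurwitz hadj (t' := conjR cs (cs.simple s) (simpleR cs i)) (u' := simpleR cs s) (by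
    rw [conjR_val, simpleR_val, simpleR_val, inv_mul_cancel_right])
  rw [h2, mul_inv_cancel_right]

theorem step_conj {l l' : List B} {s : B} (hs : Step M l s l') :
    cs.simple s * cs.wordProd l' * (cs.simple s)⁻¹ = cs.wordProd l := by
  have h1 : cs.wordProd l * cs.simple s = cs.simple s * cs.wordProd l' :=
    hs.prod (f := cs.simple) fun a b => simple_comm
  rw [← h1, mul_inv_cancel_right]

theorem conjD_beta {l l' : List B} {s : B} (h : Complete l) (hs : Step M l s l')
    (h' : Complete l') (a : Artin M) :
    conjD cs (cs.simple s) (step_conj hs) (beta cs h' a) =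
      dgen cs _ (simpleR cs s) * beta cs h a * (dgen cs _ (simpleR cs s))⁻¹ := by
  have e : (conjD cs (cs.simple s) (step_conj hs)).comp (beta cs h') =
      ((MulAut.conj (dgen cs _ (simpleR cs s))).toMonoidHom).comp (beta cs h) := by
    apply PresentedGroup.ext
    intro i
    show conjD cs (cs.simple s) (step_conj hs) (beta cs h' (ag i)) =
      MulAut.conj (dgen cs _ (simpleR cs s)) (beta cs h (ag i))
    rw [beta_ag, beta_ag, conjD_dgen, MulAut.conj_apply, dgen_conj_step h hs]
  exact DFunLike.congr_fun e a

theorem dgen_path {l l' ω : List B} (h : Complete l) (hp : FirePath M l ω l') (i : B) :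
    dgen cs (cs.wordProd l) (conjR cs (cs.wordProd ω) (simpleR cs i)) =
      beta cs h (aw ω * ag i * (aw ω)⁻¹) := by
  induction ω generalizing l with
  | nil =>
    rw [cs.wordProd_nil, conjR_one]
    simp [beta_ag]
  | cons s ω ih =>
    obtain ⟨l₁, h1, h2⟩ := hp
    have h3 := congrArg (conjD cs (cs.simple s) (step_conj h1)) (ih (h.step h1) h2)
    rw [conjD_dgen, conjR_conjR, ← cs.wordProd_cons, conjD_beta h h1] at h3
    rw [h3, aw_cons]
    simp only [map_mul, map_inv, beta_ag, mul_inv_rev, mul_assoc]

/-- The lifts are mapped to the dual generators. -/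
theorem beta_lam {l : List B} (h : Complete l) (t : Refl cs) :
    beta cs h (lam cs l t) = dgen cs _ t := by
  obtain ⟨ω, i, l', l'', h1, h2, h3, h4⟩ := exists_path_to (cs := cs) h.nodup (h.supp (root cs t))
  have hfull : FirePath M l (ω ++ i :: []) l'' := firePath_append.2 ⟨l', h1, l'', h2, rfl⟩
  obtain ⟨h5, h6, h7⟩ := lf_of_path h.nodup hfull h3
  have h8 : Asc cs 1 ω := ((asc_append cs _ _ _).1 h3).1
  rw [lam_eq h.nodup (h.supp (root cs t)) ⟨_, _, h5, h4, h6, h7, rfl⟩,
    sg_wordProd cs ((isReduced_iff_asc cs ω).2 h8), ← dgen_path h h1, ← h4]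

variable (cs) in
/-- The homomorphism from the dual braid group to the Artin group. -/
noncomputable def alpha {l : List B} (h : Complete l) : DualBraid cs (cs.wordProd l) →* Artin M :=
  PresentedGroup.toGroup (f := lam cs l) (by
    rintro r ⟨L, L', h1, h2, h3, h4, rfl⟩
    have h5 : ∀ L : List (Refl cs), FreeGroup.lift (lam cs l)
        ((L.map FreeGroup.of).prod) = (L.map (lam cs l)).prod := by
      intro L
      rw [map_list_prod, List.map_map]
      exact congrArg List.prod (List.map_congr_left fun a _ => by simp)
    rw [map_mul, map_inv, mul_inv_eq_one, h5, h5,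
      lam_prod _ l rfl h.nodup L (h1.trans h.length.symm) h3,
      lam_prod _ l rfl h.nodup L' (h2.trans h.length.symm) h4])

theorem alpha_dgen {l : List B} (h : Complete l) (t : Refl cs) :
    alpha cs h (dgen cs _ t) = lam cs l t := by
  exact PresentedGroup.toGroup.of _

theorem beta_alpha {l : List B} (h : Complete l) (a : DualBraid cs (cs.wordProd l)) :
    beta cs h (alpha cs h a) = a := by
  have e : (beta cs h).comp (alpha cs h) = MonoidHom.id _ := by
    apply PresentedGroup.ext
    intro t
    show beta cs h (alpha cs h (dgen cs _ t)) = dgen cs _ t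
    rw [alpha_dgen, beta_lam]
  exact DFunLike.congr_fun e a

theorem alpha_beta {l : List B} (h : Complete l) (a : Artin M) :
    alpha cs h (beta cs h a) = a := by
  have e : (alpha cs h).comp (beta cs h) = MonoidHom.id _ := by
    apply PresentedGroup.ext
    intro i
    show alpha cs h (beta cs h (ag i)) = ag i
    rw [beta_ag, alpha_dgen, lam_simple h.nodup (h.mem i)]
  exact DFunLike.congr_fun e a

theorem aToW_lam {l : List B} (h : Complete l) (t : Refl cs) :
    aToW cs (lam cs l t) = t := by
  obtain ⟨p, i, _, ht, _, _, ha⟩ := lf_lam h.nodup (h.supp (root cs t))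
  rw [ha, map_mul, map_mul, map_inv, aToW_sg, aToW_ag, ht, conjR_val, simpleR_val]

theorem aToW_alpha {l : List B} (h : Complete l) (a : DualBraid cs (cs.wordProd l)) :
    aToW cs (alpha cs h a) = toW cs _ a := by
  have e : (aToW cs).comp (alpha cs h) = toW cs _ := by
    apply PresentedGroup.ext
    intro t
    show aToW cs (alpha cs h (dgen cs _ t)) = toW cs _ (dgen cs _ t)
    rw [alpha_dgen, aToW_lam h, toW_dgen]
  exact DFunLike.congr_fun e a

end Pool.Agent.Lib.MP_185a46_al
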