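import Pool.Agent.Lib.MP_185a46_al.Lift

/-!
# Factorizations of a Coxeter element and the products of the lifts
-/

set_option autoImplicit false
set_option linter.unusedSectionVars false

open CoxeterSystem

namespace Pool.Agent.Lib.MP_185a46_al

variable {B W : Type*} [Group W] {M : CoxeterMatrix B} {cs : CoxeterSystem M W}
  [DecidableEq B] [Fintype B] [Finite W]

variable (cs) in
/-- The product of a list of reflections. -/
def rp (L : List (Refl cs)) : W := (L.map Subtype.val).prod

@[simp] theorem rp_nil : rp cs [] = 1 := rfl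

@[simp] theorem rp_cons (t : Refl cs) (L : List (Refl cs)) : rp cs (t :: L) = t * rp cs L := by
  simp [rp]

theorem rp_append (L L' : List (Refl cs)) : rp cs (L ++ L') = rp cs L * rp cs L' := by
  simp [rp]

theorem rp_conj (g : W) (L : List (Refl cs)) :
    rp cs (L.map (conjR cs g)) = g * rp cs L * g⁻¹ := by
  induction L with
  | nil => simp
  | cons t L ih =>
    rw [List.map_cons, rp_cons, rp_cons, ih, conjR_val]
    group

theorem rp_simple (l : List B) : rp cs (l.map (simpleR cs)) = cs.wordProd l := by
  induction l with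
  | nil => simp
  | cons i l ih => rw [List.map_cons, rp_cons, ih, cs.wordProd_cons, simpleR_val]

theorem Step.prod {N : Type*} [Monoid N] {f : B → N}
    (hf : ∀ a b, M a b = 2 → f a * f b = f b * f a) {l l' : List B} {s : B}
    (h : Step M l s l') : (l.map f).prod * f s = f s * (l'.map f).prod := by
  obtain ⟨A, C, rfl, rfl, hA⟩ := h
  have h1 : (A.map f).prod * f s = f s * (A.map f).prod := by
    induction A with
    | nil => simp
    | cons a A ih =>
      rw [List.map_cons, List.prod_cons, mul_assoc, ih fun b hb => hA b (List.mem_cons_of_mem _ hb),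
        ← mul_assoc, hf a s (hA a List.mem_cons_self), mul_assoc]
  simp only [List.map_append, List.map_cons, List.prod_append, List.prod_cons, List.map_nil,
    List.prod_nil, mul_one]
  rw [← mul_assoc ((A.map f).prod) (f s), h1]
  simp only [mul_assoc]

theorem Step.prod' {N : Type*} [Monoid N] {f : B → N}
    (hf : ∀ a b, M a b = 2 → f a * f b = f b * f a) {A C : List B} {s : B}
    (hA : ∀ a ∈ A, M a s = 2) :
    ((A ++ s :: C).map f).prod = f s * ((A ++ C).map f).prod := by
  have h1 : (A.map f).prod * f s = f s * (A.map f).prod := by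
    induction A with
    | nil => simp
    | cons a A ih =>
      rw [List.map_cons, List.prod_cons, mul_assoc, ih fun b hb => hA b (List.mem_cons_of_mem _ hb),
        ← mul_assoc, hf a s (hA a List.mem_cons_self), mul_assoc]
  simp only [List.map_append, List.map_cons, List.prod_append, List.prod_cons]
  rw [← mul_assoc ((A.map f).prod) (f s), h1]
  simp only [mul_assoc]

theorem FirePath.prod {N : Type*} [Monoid N] {f : B → N}
    (hf : ∀ a b, M a b = 2 → f a * f b = f b * f a) {l l' ω : List B}
    (h : FirePath M l ω l') : (l.map f).prod * (ω.map f).prod = (ω.map f).prod * (l'.map f).prod := by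
  induction ω generalizing l with
  | nil =>
    have : l = l' := h
    rw [this]
    simp
  | cons s ω ih =>
    obtain ⟨l₁, h1, h2⟩ := h
    rw [List.map_cons, List.prod_cons, ← mul_assoc, h1.prod hf, mul_assoc, ih h2, mul_assoc]

theorem simple_comm {a b : B} (h : M a b = 2) :
    cs.simple a * cs.simple b = cs.simple b * cs.simple a := by
  have h1 := wordProd_alt cs a b
  rw [h] at h1
  simpa [cs.wordProd_cons] using h1

theorem ag_comm {a b : B} (h : M a b = 2) : (ag a * ag b : Artin M) = ag b * ag a := by
  have h1 := aw_alt (M := M) a b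
  rw [h] at h1
  simpa using h1

theorem sub_rho_mem {U : Submodule ℝ (B → ℝ)} {L : List (Refl cs)}
    (hU : ∀ t ∈ L, root cs t ∈ U) (x : B → ℝ) : x - rho cs (rp cs L) x ∈ U := by
  induction L with
  | nil => simp
  | cons t L ih =>
    have h1 := ih fun u hu => hU u (List.mem_cons_of_mem _ hu)
    have h2 := hU t List.mem_cons_self
    rw [rp_cons, rho_mul, rho_refl, rfl'_apply]
    have h3 : x - (rho cs (rp cs L) x - (2 * bf M (root cs t) (rho cs (rp cs L) x)) • root cs t) =
        (x - rho cs (rp cs L) x) +
          (2 * bf M (root cs t) (rho cs (rp cs L) x)) • root cs t := by module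
    rw [h3]
    exact U.add_mem h1 (U.smul_mem _ h2)

theorem bf_eq_zero_of_fixed {l : List B} (hl : l.Nodup) {x : B → ℝ}
    (h : rho cs (cs.wordProd l) x = x) : ∀ j ∈ l, bf M (sr j) x = 0 := by
  induction l with
  | nil => intro j hj; simp at hj
  | cons s l ih =>
    rw [List.nodup_cons] at hl
    have h1 : rho cs (cs.wordProd l) x = x - (2 * bf M (sr s) x) • sr s := by
      rw [cs.wordProd_cons, rho_mul] at h
      have h2 := congrArg (rho cs (cs.simple s)) h
      rw [← rho_mul, cs.simple_mul_simple_self, rho_one] at h2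
      rw [h2, rho_simple, rfl'_apply]
    have hws : WS cs l (cs.wordProd l) := WS.word fun a ha => ha
    have h3 := hws x s hl.1
    rw [h1] at h3
    simp only [Pi.sub_apply, Pi.smul_apply, smul_eq_mul, sr, Pi.single_eq_same, mul_one] at h3
    have h4 : bf M (sr s) x = 0 := by
      have : bf M (Pi.single s 1) x = 0 := by linarith
      exact this
    rw [h4, mul_zero, zero_smul, sub_zero] at h1
    intro j hj
    rw [List.mem_cons] at hj
    rcases hj with rfl | hj
    · exact h4
    · exact ih hl.2 h1 j hj

variable (cs) in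
include cs in
theorem eq_zero_of_bf {l : List B} {x : B → ℝ} (hx : Supp l x)
    (h : ∀ j ∈ l, bf M (sr j) x = 0) : x = 0 := by
  classical
  let G : Subgroup W := Subgroup.closure {w | ∃ j ∈ l, w = cs.simple j}
  have : Fintype G := Fintype.ofFinite G
  have hfix : ∀ g : G, rho cs (g : W) x = x := by
    rintro ⟨g, hg⟩
    show rho cs g x = x
    induction hg using Subgroup.closure_induction with
    | mem g hg =>
      obtain ⟨j, hj, rfl⟩ := hg
      rw [rho_simple, rfl'_apply, h j hj, mul_zero, zero_smul, sub_zero]
    | one => rw [rho_one]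
    | mul a b _ _ iha ihb => rw [rho_mul, ihb, iha]
    | inv a _ iha =>
      have h2 := congrArg (rho cs a⁻¹) iha
      rw [rho_inv_self] at h2
      exact h2.symm
  have hsum : ∀ j ∈ l, ∑ g : G, rho cs (g : W) (sr j) = 0 := by
    intro j hj
    let s : G := ⟨cs.simple j, Subgroup.subset_closure ⟨j, hj, rfl⟩⟩
    have h1 : ∑ g : G, rho cs (g : W) (sr j) = ∑ g : G, rho cs ((g * s : G) : W) (sr j) :=
      (Equiv.sum_comp (Equiv.mulRight s) fun g : G => rho cs (g : W) (sr j)).symm
    have h2 : ∀ g : G, rho cs ((g * s : G) : W) (sr j) = -rho cs (g : W) (sr j) := by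
      intro g
      show rho cs ((g : W) * cs.simple j) (sr j) = _
      rw [rho_mul, rho_simple_sr, map_neg]
    simp only [h2, Finset.sum_neg_distrib] at h1
    exact self_eq_neg.1 h1
  have h1 : ∑ g : G, rho cs (g : W) x = (Fintype.card G : ℝ) • x := by
    rw [Finset.sum_congr rfl fun g _ => hfix g, Finset.sum_const, Finset.card_univ,
      Nat.cast_smul_eq_nsmul]
  have h2 : ∑ g : G, rho cs (g : W) x = 0 := by
    have h3 : ∀ g : G, rho cs (g : W) x = ∑ i, x i • rho cs (g : W) (sr i) :=
      fun g => rho_eq_sum cs _ _
    rw [Finset.sum_congr rfl fun g _ => h3 g, Finset.sum_comm]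
    refine Finset.sum_eq_zero fun i _ => ?_
    rw [← Finset.smul_sum]
    by_cases hi : i ∈ l
    · rw [hsum i hi, smul_zero]
    · rw [hx i hi, zero_smul]
  rw [h1] at h2
  have h3 : (Fintype.card G : ℝ) ≠ 0 := by
    exact_mod_cast Fintype.card_ne_zero
  exact (smul_eq_zero.1 h2).resolve_left h3

/-- Roots of a shortest factorization of a parabolic Coxeter element lie in the parabolic
subspace. -/
theorem supp_of_prod {l : List B} (hl : l.Nodup) {L : List (Refl cs)} (hL : L.length = l.length)
    (hp : rp cs L = cs.wordProd l) : ∀ t ∈ L, Supp l (root cs t) := by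
  classical
  let V : Submodule ℝ (B → ℝ) :=
    { carrier := {x | Supp l x}
      add_mem' := fun {x y} hx hy a ha => by
        rw [Pi.add_apply, hx a ha, hy a ha, add_zero]
      zero_mem' := fun a _ => rfl
      smul_mem' := fun c x hx a ha => by
        rw [Pi.smul_apply, hx a ha, smul_zero] }
  let U : Submodule ℝ (B → ℝ) := Submodule.span ℝ ((L.map (root cs)).toFinset : Set (B → ℝ))
  have hU : ∀ t ∈ L, root cs t ∈ U := fun t ht =>
    Submodule.subset_span (by
      rw [Finset.mem_coe, List.mem_toFinset, List.mem_map]
      exact ⟨t, ht, rfl⟩)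
  have hws : WS cs l (cs.wordProd l) := WS.word fun a ha => ha
  let f : V →ₗ[ℝ] V := LinearMap.restrict (LinearMap.id - rho cs (cs.wordProd l)) (p := V)
    (q := V) (fun x hx a ha => by
      rw [LinearMap.sub_apply, Pi.sub_apply, hws x a ha]
      simp)
  have hf : ∀ x : V, (f x : B → ℝ) = x - rho cs (cs.wordProd l) x := fun x => rfl
  have hinj : Function.Injective f := by
    rw [injective_iff_map_eq_zero]
    intro x hx
    have h1 := congrArg Subtype.val hx
    rw [hf] at h1
    have h2 : rho cs (cs.wordProd l) x = x := (sub_eq_zero.1 h1).symm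
    apply Subtype.ext
    exact eq_zero_of_bf cs x.2 (bf_eq_zero_of_fixed hl h2)
  have hsurj : Function.Surjective f := LinearMap.injective_iff_surjective.1 hinj
  have hVU : V ≤ U := by
    intro x hx
    obtain ⟨y, hy⟩ := hsurj ⟨x, hx⟩
    have h1 := congrArg Subtype.val hy
    rw [hf] at h1
    have h2 := sub_rho_mem hU (y : B → ℝ)
    rw [hp, h1] at h2
    exact h2
  have hUc : Module.finrank ℝ U ≤ l.length := by
    refine (finrank_span_finset_le_card _).trans ?_
    refine (List.toFinset_card_le _).trans ?_
    rw [List.length_map, hL]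
  have hVc : l.length ≤ Module.finrank ℝ V := by
    have hli : LinearIndependent ℝ (fun j : {j // j ∈ l.toFinset} =>
        (⟨sr j.1, fun k hk => by
          have : k ≠ j.1 := fun h => hk (h ▸ List.mem_toFinset.1 j.2)
          simp [sr, this]⟩ : V)) := by
      apply LinearIndependent.of_comp V.subtype
      have h1 := (Pi.basisFun ℝ B).linearIndependent.comp
        (fun j : {j // j ∈ l.toFinset} => j.1) Subtype.val_injective
      convert h1 using 1
      funext j
      simp [sr, Function.comp]
    have h2 := hli.fintype_card_le_finrank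
    rw [Fintype.card_coe, List.toFinset_card_of_nodup hl] at h2
    exact h2
  have hVU' : V = U := Submodule.eq_of_le_of_finrank_le hVU (hUc.trans hVc)
  intro t ht
  have h1 := hU t ht
  rw [← hVU'] at h1
  exact h1

theorem prod_conj {G : Type*} [Group G] {T : Type*} (f h : T → G) (a : G) (L : List T)
    (hL : ∀ t ∈ L, f t = a * h t * a⁻¹) : (L.map f).prod = a * (L.map h).prod * a⁻¹ := by
  induction L with
  | nil => simp
  | cons t L ih =>
    rw [List.map_cons, List.map_cons, List.prod_cons, List.prod_cons,
      ih fun u hu => hL u (List.mem_cons_of_mem _ hu), hL t List.mem_cons_self]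
    group

/-- The product of the lifts over a factorization. -/
theorem lam_prod (n : ℕ) : ∀ l : List B, l.length = n → l.Nodup → ∀ L : List (Refl cs),
    L.length = n → rp cs L = cs.wordProd l → (L.map (lam cs l)).prod = aw l := by
  induction n with
  | zero =>
    intro l hl _ L hL _
    rw [List.eq_nil_of_length_eq_zero hl, List.eq_nil_of_length_eq_zero hL]
    simp
  | succ n ih =>
    intro l hln hl L hLn hp
    have hsupp := supp_of_prod hl (hLn.trans hln.symm) hp
    rcases L with _ | ⟨t₁, L₁⟩
    · simp at hLn
    obtain ⟨ω, i, l', l'', h1, h2, h3, h4⟩ :=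
      exists_path_to (cs := cs) hl (hsupp t₁ List.mem_cons_self)
    have hl' := h1.nodup hl
    set g := cs.wordProd ω with hg
    have hws : WS cs l g := WS.word fun a ha => h1.word_mem ha
    have hfs : ∀ a b, M a b = 2 → cs.simple a * cs.simple b = cs.simple b * cs.simple a :=
      fun a b => simple_comm
    have hfa : ∀ a b, M a b = 2 → (ag a * ag b : Artin M) = ag b * ag a := fun a b => ag_comm
    -- conjugate the factorization
    have hgp : cs.wordProd l * g = g * cs.wordProd l' := h1.prod hfs
    have hp' : rp cs ((t₁ :: L₁).map (conjR cs g⁻¹)) = cs.wordProd l' := by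
      rw [rp_conj, hp, inv_inv, mul_assoc, hgp, inv_mul_cancel_left]
    have ht₁ : conjR cs g⁻¹ t₁ = simpleR cs i := by rw [h4, conjR_inv_conjR]
    rw [List.map_cons, ht₁, rp_cons, simpleR_val] at hp'
    obtain ⟨A, C, hA1, hA2, hA3⟩ := h2
    subst hA1
    set L₁' := L₁.map (conjR cs g⁻¹) with hL₁'
    have hp'' : rp cs L₁' = cs.wordProd (A ++ C) := by
      have h5 : cs.wordProd (A ++ i :: C) = cs.simple i * cs.wordProd (A ++ C) :=
        Step.prod' hfs hA3
      rw [h5] at hp'
      exact mul_left_cancel hp'
    have hJn : (A ++ C).length = n := by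
      have := h1.length
      rw [hln] at this
      simp only [List.length_append, List.length_cons] at this ⊢
      omega
    have hJsub : Sub (A ++ C) (A ++ i :: C) := sub_erase hl'
    have hJnd : (A ++ C).Nodup := by
      rw [List.nodup_append, List.nodup_cons] at hl'
      rw [List.nodup_append]
      exact ⟨hl'.1, hl'.2.1.2, fun a ha b hb => hl'.2.2 a ha b (List.mem_cons_of_mem _ hb)⟩
    have hL₁n : L₁'.length = n := by
      rw [hL₁', List.length_map]
      simpa using hLn
    have hIH := ih (A ++ C) hJn hJnd L₁' hL₁n hp''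
    have hsupp' := supp_of_prod hJnd (hL₁n.trans hJn.symm) hp''
    have e1 : (L₁'.map (lam cs (A ++ i :: C))).prod = aw (A ++ C) := by
      rw [← hIH]
      congr 1
      apply List.map_congr_left
      intro t ht
      exact lam_sub hJsub hl' hJnd (hsupp' t ht)
    have e2 : (aw (A ++ i :: C) : Artin M) = ag i * aw (A ++ C) := Step.prod' hfa hA3
    have e3 : (aw l : Artin M) * aw ω = aw ω * aw (A ++ i :: C) := h1.prod hfa
    have e4 : (((t₁ :: L₁).map (conjR cs g⁻¹)).map (lam cs (A ++ i :: C))).prod =
        aw (A ++ i :: C) := by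
      rw [List.map_cons, ht₁, List.map_cons, List.prod_cons, ← hL₁', e1, e2,
        lam_simple hl' (by simp)]
    rw [List.map_map] at e4
    rw [prod_conj (lam cs l) (lam cs (A ++ i :: C) ∘ conjR cs g⁻¹) (aw ω) (t₁ :: L₁)
      (fun t ht => lam_path h1 hl (hsupp t ht)), e4, ← e3, mul_inv_cancel_right]

end Pool.Agent.Lib.MP_185a46_al
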