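import Pool.Agent.Lib.MP_185a46_al.Full

/-!
# The presentation attached to an element of the pure braid group
-/

set_option autoImplicit false
set_option linter.unusedSectionVars false

open CoxeterSystem

namespace Pool.Agent.Lib.MP_185a46_al

section Aux

variable {B W : Type*} [Group W] {M : CoxeterMatrix B} (cs : CoxeterSystem M W)

/-- The homomorphism that counts dual generators. -/
def lenHom (c : W) : DualBraid cs c →* Multiplicative ℤ :=
  PresentedGroup.toGroup (f := fun _ => Multiplicative.ofAdd 1) (by
    rintro r ⟨L, L', h1, h2, _, _, rfl⟩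
    have h : ∀ L : List (Refl cs), FreeGroup.lift (fun _ : Refl cs => Multiplicative.ofAdd (1 : ℤ))
        ((L.map FreeGroup.of).prod) = Multiplicative.ofAdd (L.length : ℤ) := by
      intro L
      induction L with
      | nil => simp
      | cons t L ih =>
        rw [List.map_cons, List.prod_cons, map_mul, ih, FreeGroup.lift_apply_of, ← ofAdd_add,
          List.length_cons]
        congr 1
        push_cast
        ring
    rw [map_mul, map_inv, mul_inv_eq_one, h, h, h1, h2])

theorem lenHom_dgen (c : W) (t : Refl cs) :
    lenHom cs c (dgen cs c t) = Multiplicative.ofAdd 1 := by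
  exact PresentedGroup.toGroup.of _

theorem coe_sqgen (c : W) (t : Refl cs) : (sqgen cs c t : DualBraid cs c) = dgen cs c t ^ 2 := rfl

theorem coe_prod (c : W) (w : List (Refl cs)) :
    (((w.map (sqgen cs c)).prod : PureBraid cs c) : DualBraid cs c) =
      (w.map fun t => dgen cs c t ^ 2).prod := by
  induction w with
  | nil => rfl
  | cons t w ih =>
    rw [List.map_cons, List.prod_cons, List.map_cons, List.prod_cons, Subgroup.coe_mul, ih,
      coe_sqgen]

theorem lenHom_word (c : W) (w : List (Refl cs)) :
    lenHom cs c (w.map fun t => dgen cs c t ^ 2).prod =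
      Multiplicative.ofAdd (2 * (w.length : ℤ)) := by
  induction w with
  | nil => simp
  | cons t w ih =>
    rw [List.map_cons, List.prod_cons, map_mul, ih, map_pow, lenHom_dgen, ← ofAdd_nsmul,
      ← ofAdd_add, List.length_cons]
    congr 1
    push_cast
    ring

theorem length_eq {c : W} {z : PureBraid cs c} {w w' : List (Refl cs)}
    (h : IsWordFor cs c z w) (h' : IsWordFor cs c z w') : w.length = w'.length := by
  unfold IsWordFor at h h'
  have h1 := congrArg (fun a : PureBraid cs c => lenHom cs c a) (h.trans h'.symm)
  simp only [coe_prod, lenHom_word] at h1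
  have h2 := Multiplicative.ofAdd.injective h1
  omega

theorem isReduced_iff {c : W} {z : PureBraid cs c} {w : List (Refl cs)} :
    IsReducedWordFor cs c z w ↔ IsWordFor cs c z w :=
  ⟨fun h => h.1, fun h => ⟨h, fun _ h' => (length_eq cs h h').le⟩⟩

/-- The homomorphism from the presented group to the pure braid group. -/
def psi (c : W) (z : PureBraid cs c) : RedGroup cs c z →* PureBraid cs c :=
  PresentedGroup.toGroup (f := sqgen cs c) (by
    rintro r ⟨w, w', h1, h2, rfl⟩
    have h : ∀ L : List (Refl cs), FreeGroup.lift (sqgen cs c)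
        ((L.map FreeGroup.of).prod) = (L.map (sqgen cs c)).prod := by
      intro L
      rw [map_list_prod, List.map_map]
      exact congrArg List.prod (List.map_congr_left fun a _ => by simp)
    rw [map_mul, map_inv, mul_inv_eq_one, h, h]
    exact h1.1.trans h2.1.symm)

theorem psi_of (c : W) (z : PureBraid cs c) (t : Refl cs) :
    psi cs c z (PresentedGroup.of t) = sqgen cs c t := by
  exact PresentedGroup.toGroup.of _

theorem rel_of {c : W} {z : PureBraid cs c} {w w' : List (Refl cs)} (h : IsWordFor cs c z w)
    (h' : IsWordFor cs c z w') :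
    (w.map fun t => (PresentedGroup.of t : RedGroup cs c z)).prod =
      (w'.map fun t => (PresentedGroup.of t : RedGroup cs c z)).prod := by
  have hmk : ∀ L : List (Refl cs), (L.map fun t => (PresentedGroup.of t : RedGroup cs c z)).prod =
      PresentedGroup.mk (redRels cs c z) ((L.map FreeGroup.of).prod) := by
    intro L
    rw [map_list_prod, List.map_map]
    rfl
  rw [hmk, hmk, ← mul_inv_eq_one, ← map_inv, ← map_mul]
  exact PresentedGroup.one_of_mem
    ⟨w, w', (isReduced_iff cs).2 h, (isReduced_iff cs).2 h', rfl⟩

variable [DecidableEq B] [Fintype B] [Finite W] {cs}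

theorem alpha_injective {l : List B} (h : Complete l) : Function.Injective (alpha cs h) := by
  intro a b hab
  rw [← beta_alpha h a, ← beta_alpha h b, hab]

theorem alpha_wordLift {l : List B} (h : Complete l) (ω : List B) :
    alpha cs h (wordLift cs (cs.wordProd l) ω) = aw ω := by
  have h1 : wordLift cs (cs.wordProd l) ω = beta cs h (aw ω) := (beta_aw h ω).symm
  rw [h1, alpha_beta]

theorem isWordFor_iff {l : List B} (h : Complete l) {z : PureBraid cs (cs.wordProd l)}
    {w : List (Refl cs)} : IsWordFor cs (cs.wordProd l) z w ↔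
      (w.map fun t => lam cs l t * lam cs l t).prod =
        alpha cs h (z : DualBraid cs (cs.wordProd l)) := by
  have h3 : alpha cs h (((w.map (sqgen cs (cs.wordProd l))).prod : PureBraid cs _) :
      DualBraid cs _) = (w.map fun t => lam cs l t * lam cs l t).prod := by
    rw [coe_prod, map_list_prod, List.map_map]
    congr 1
    apply List.map_congr_left
    intro t _
    rw [Function.comp_apply, map_pow, alpha_dgen, pow_two]
  unfold IsWordFor
  rw [← h3]
  constructor
  · intro h4
    rw [h4]
  · intro h4
    exact Subtype.ext (alpha_injective h h4)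

/-- The presentation, for any element that is the square of the lift of the longest element
times a positive word in the squares. -/
theorem presentation {l : List B} (h : Complete l) {w₀ : W} (hw₀ : IsTop cs w₀)
    (z : PureBraid cs (cs.wordProd l)) (r : List (Refl cs))
    (hr : alpha cs h (z : DualBraid cs (cs.wordProd l)) =
      sg cs w₀ * sg cs w₀ * (r.map fun t => lam cs l t * lam cs l t).prod) :
    ∃ e : RedGroup cs (cs.wordProd l) z ≃* PureBraid cs (cs.wordProd l),
      ∀ t : Refl cs, e (PresentedGroup.of t) = sqgen cs (cs.wordProd l) t := by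
  obtain ⟨ω, l', hp, ha, ht⟩ := h.exists_path cs
  have hlift := isLift_path (cs := cs) h.nodup hp ha
  have hww : cs.wordProd ω = w₀ := by
    have h1 : PTop cs l (cs.wordProd ω) := ⟨fun x j hj => absurd (h.mem j) hj, fun j _ => ht j⟩
    have h2 : PTop cs l w₀ := ⟨fun x j hj => absurd (h.mem j) hj, fun j _ => hw₀ j⟩
    exact h1.unique h2
  set x : Refl cs → RedGroup cs (cs.wordProd l) z := fun t => PresentedGroup.of t with hx
  -- the natural words
  have hword : ∀ w : W, IsWordFor cs (cs.wordProd l) z (wl (invSet cs w) (crossings cs 1 ω) ++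
      wl (invSet cs w)ᶜ (crossings cs 1 ω) ++ r) := by
    intro w
    rw [isWordFor_iff h, List.map_append, List.map_append, List.prod_append, List.prod_append,
      prod_wl, prod_wl, ht.natural ha hlift rfl, hr, hww]
  have hz : ∀ w, wd x (invSet cs w) (crossings cs 1 ω) *
      wd x (invSet cs w)ᶜ (crossings cs 1 ω) =
        wd x (invSet cs 1) (crossings cs 1 ω) * wd x (invSet cs 1)ᶜ (crossings cs 1 ω) := by
    intro w
    have h1 := rel_of cs (hword w) (hword 1)
    rw [List.map_append, List.map_append, List.prod_append, List.prod_append, prod_wl, prod_wl,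
      List.map_append, List.map_append, List.prod_append, List.prod_append, prod_wl, prod_wl]
      at h1
    exact mul_right_cancel h1
  obtain ⟨φ, hφ⟩ := exists_phi h hp ha ht x _ hz
  -- the inverse homomorphism
  let ρ : PureBraid cs (cs.wordProd l) →* (aToW cs).ker :=
    ((alpha cs h).comp (toW cs (cs.wordProd l)).ker.subtype).codRestrict _ (fun a => by
      rw [MonoidHom.mem_ker]
      show aToW cs (alpha cs h a) = 1
      rw [aToW_alpha]
      exact a.2)
  have hρ : ∀ t, φ (ρ (sqgen cs _ t)) = x t := by
    intro t
    rw [← hφ t (lam_sq_mem h t)]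
    congr 1
    apply Subtype.ext
    show alpha cs h (dgen cs _ t ^ 2) = lam cs l t * lam cs l t
    rw [map_pow, alpha_dgen, pow_two]
  have hleft : ∀ g, φ (ρ (psi cs _ z g)) = g := by
    intro g
    have e : (φ.comp ρ).comp (psi cs _ z) = MonoidHom.id _ := by
      apply PresentedGroup.ext
      intro t
      show φ (ρ (psi cs _ z (PresentedGroup.of t))) = PresentedGroup.of t
      rw [psi_of, hρ]
    exact DFunLike.congr_fun e g
  have hinj : Function.Injective (psi cs _ z) := by
    intro a b hab
    rw [← hleft a, ← hleft b, hab]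
  have hsurj : Function.Surjective (psi cs _ z) := by
    intro a
    have h1 := mem_closure_mul_sg ht ha hlift rfl
      (alpha cs h (a : DualBraid cs (cs.wordProd l)))
    have h0 : toW cs (cs.wordProd l) (a : DualBraid cs (cs.wordProd l)) = 1 :=
      MonoidHom.mem_ker.1 a.2
    rw [aToW_alpha, h0, sg_one, inv_one, mul_one] at h1
    have h2 : Subgroup.closure (Set.range fun t => lam cs l t * lam cs l t) ≤
        (((psi cs _ z).range.map (toW cs (cs.wordProd l)).ker.subtype).comap
          (beta cs h)) := by
      rw [Subgroup.closure_le]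
      rintro _ ⟨t, rfl⟩
      rw [SetLike.mem_coe, Subgroup.mem_comap, map_mul, beta_lam, ← pow_two]
      exact ⟨sqgen cs _ t, ⟨PresentedGroup.of t, psi_of cs _ z t⟩, rfl⟩
    have h3 := h2 h1
    rw [Subgroup.mem_comap, beta_alpha] at h3
    obtain ⟨b, ⟨g, hg⟩, hb⟩ := h3
    exact ⟨g, hg.trans (Subtype.ext hb)⟩
  exact ⟨MulEquiv.ofBijective (psi cs _ z) ⟨hinj, hsurj⟩, fun t => psi_of cs _ z t⟩

end Aux

end Pool.Agent.Lib.MP_185a46_al
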