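import Pool.Agent.Lib.MP_185a46_al.Twist

/-!
# The power of the Coxeter element as the full twist times a positive word
-/

set_option autoImplicit false
set_option linter.unusedSectionVars false

open CoxeterSystem

namespace Pool.Agent.Lib.MP_185a46_al

section Wd

variable {T G : Type*} [CommGroup G]

theorem wd_comm (x : T → G) (S : Set T) (L : List T) :
    wd x S L * wd x Sᶜ L = (L.map x).prod := by
  induction L with
  | nil => simp
  | cons t L ih =>
    rw [List.map_cons, List.prod_cons, ← ih]
    by_cases h : t ∈ S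
    · rw [wd_cons_mem _ _ h, wd_cons_not_mem _ _ (Set.notMem_compl_iff.2 h)]
      rw [mul_comm (wd x S L) (x t), mul_assoc]
    · rw [wd_cons_not_mem _ _ h, wd_cons_mem x _ (show t ∈ Sᶜ from h)]
      rw [← mul_assoc, mul_comm]

theorem wd_single {x : T → G} {t₀ : T} (hx : ∀ t, t ≠ t₀ → x t = 1) {S : Set T} (hS : t₀ ∈ S)
    {L : List T} (hL : L.Nodup) :
    (t₀ ∈ L → wd x S L = x t₀) ∧ (t₀ ∉ L → wd x S L = 1) := by
  induction L with
  | nil => simp
  | cons t L ih =>
    rw [List.nodup_cons] at hL
    have ih' := ih hL.2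
    by_cases ht : t = t₀
    · subst ht
      rw [wd_cons_mem _ _ hS, ih'.2 hL.1]
      simp
    · have h2 : wd x S (t :: L) = wd x S L := by
        by_cases hm : t ∈ S
        · rw [wd_cons_mem _ _ hm, hx t ht, mul_one]
        · rw [wd_cons_not_mem _ _ hm]
      rw [h2, List.mem_cons]
      refine ⟨fun h => ih'.1 (h.resolve_left (Ne.symm ht)), fun h => ih'.2 fun h' => h (Or.inr h')⟩

theorem prod_power' {T N : Type*} [Monoid N] (f : T → N) (l : List T) (m : ℕ) :
    ((List.replicate m l).flatten.map f).prod = (l.map f).prod ^ m := by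
  induction m with
  | zero => simp
  | succ m ih =>
    rw [List.replicate_succ, List.flatten_cons, List.map_append, List.prod_append, ih, pow_succ']

end Wd

variable {B W : Type*} [Group W] {M : CoxeterMatrix B} {cs : CoxeterSystem M W}
  [DecidableEq B] [Fintype B] [Finite W]

variable (cs) in
theorem Complete.exists_path {l : List B} (h : Complete l) :
    ∃ ω l', FirePath M l ω l' ∧ Asc cs 1 ω ∧ IsTop cs (cs.wordProd ω) := by
  obtain ⟨ω, l', h1, h2, h3⟩ := exists_full (cs := cs) h.nodup (ω := []) (l' := l) rfl trivial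
  rw [List.nil_append] at h1 h2 h3
  exact ⟨ω, l', h1, h2, fun i => h3 i (h.mem i)⟩

/-- The homomorphism from the pure Artin group determined by a family satisfying the relations of
the natural words. -/
theorem exists_phi {l l' ω : List B} (h : Complete l) (hp : FirePath M l ω l')
    (ha : Asc cs 1 ω) (ht : IsTop cs (cs.wordProd ω)) {G : Type*} [Group G] (x : Refl cs → G)
    (z : G) (hz : ∀ w, wd x (invSet cs w) (crossings cs 1 ω) *
      wd x (invSet cs w)ᶜ (crossings cs 1 ω) = z) :
    ∃ φ : (aToW cs).ker →* G, ∀ t (hk : lam cs l t * lam cs l t ∈ (aToW cs).ker),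
      φ ⟨lam cs l t * lam cs l t, hk⟩ = x t := by
  have hnd := crossings_nodup cs ha
  have hsplit : ∀ L₁ L₂, crossings cs 1 ω = L₁ ++ L₂ →
      ∃ y : W, invSet cs y = {t | t ∈ L₂} := fun L₁ L₂ hL => ht.split ha rfl hL
  refine ⟨phi hnd hsplit hz, fun t hk => ?_⟩
  rw [phi_apply]
  exact Theta_lift ha hnd hsplit hz (isLift_path h.nodup hp ha) (ht.mem_crossings ha rfl t)

theorem lam_sq_mem {l : List B} (h : Complete l) (t : Refl cs) :
    lam cs l t * lam cs l t ∈ (aToW cs).ker := by
  rw [MonoidHom.mem_ker, map_mul, aToW_lam h]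
  exact t.2.mul_self

/-- Divisibility of exponents. -/
theorem dvd_of_power {l : List B} (h : Complete l) {w : W} {s : B}
    (hs : simpleR cs s ∈ invSet cs w) (hw : w⁻¹ = w) {a : Artin M} {m k : ℕ}
    (ham : a ^ m = sg cs w * sg cs w) (hk : aToW cs a ^ k = 1) : m ∣ k := by
  classical
  obtain ⟨ω, l', hp, ha, ht⟩ := h.exists_path cs
  set x : Refl cs → Multiplicative ℤ := fun t =>
    if t = simpleR cs s then Multiplicative.ofAdd 1 else 1 with hx
  obtain ⟨φ, hφ⟩ := exists_phi h hp ha ht x _ fun w => wd_comm x _ _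
  -- the value on the square of the lift of `w`
  have hww : w * w = 1 := by
    nth_rw 1 [← hw]
    exact inv_mul_cancel w
  set y : Refl cs → (aToW cs).ker := fun t => ⟨lam cs l t * lam cs l t, lam_sq_mem h t⟩ with hy
  have h1 : sg cs w * sg cs w = ((wd y (invSet cs w) (crossings cs 1 ω) : (aToW cs).ker) :
      Artin M) := by
    have h2 := ht.wd_invSet ha (isLift_path h.nodup hp ha) rfl w
    rw [hw] at h2
    rw [← h2]
    exact (map_wd (aToW cs).ker.subtype y (invSet cs w) (crossings cs 1 ω)).symm
  have h3 : φ (wd y (invSet cs w) (crossings cs 1 ω)) = Multiplicative.ofAdd 1 := by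
    rw [map_wd]
    have h4 : (fun t => φ (y t)) = x := funext fun t => hφ t _
    have h5 : ∀ t, t ≠ simpleR cs s → x t = 1 := fun t ht => if_neg ht
    rw [h4, (wd_single h5 hs (crossings_nodup cs ha)).1 (ht.mem_crossings ha rfl _), hx]
    exact if_pos rfl
  -- the greatest common divisor
  have hm1 : aToW cs a ^ m = 1 := by
    rw [← map_pow, ham, map_mul, aToW_sg, hww]
  have hg1 : aToW cs a ^ Nat.gcd m k = 1 := by
    rw [← orderOf_dvd_iff_pow_eq_one]
    exact Nat.dvd_gcd (orderOf_dvd_of_pow_eq_one hm1) (orderOf_dvd_of_pow_eq_one hk)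
  obtain ⟨q, hq⟩ := Nat.gcd_dvd_left m k
  set g := Nat.gcd m k with hg
  have hmem : a ^ g ∈ (aToW cs).ker := by
    rw [MonoidHom.mem_ker, map_pow, hg1]
  have h5 : (⟨a ^ g, hmem⟩ : (aToW cs).ker) ^ q = wd y (invSet cs w) (crossings cs 1 ω) := by
    apply Subtype.ext
    rw [Subgroup.coe_pow, ← pow_mul, ← hq, ham, h1]
  have h6 := congrArg φ h5
  rw [map_pow, h3] at h6
  have h7 := congrArg Multiplicative.toAdd h6
  rw [toAdd_pow, toAdd_ofAdd, nsmul_eq_mul] at h7
  have h8 : (q : ℤ) ∣ 1 := ⟨_, h7.symm⟩
  have h9 : q = 1 := by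
    have := Int.natCast_dvd_natCast.1 (show (q : ℤ) ∣ ((1 : ℕ) : ℤ) from h8)
    exact Nat.dvd_one.1 this
  rw [hq, h9, mul_one, hg]
  exact Nat.gcd_dvd_right m k

/-- The square of the lift of the longest element of a parabolic as a product of squares. -/
theorem PTop.sq_list {l : List B} (hl : l.Nodup) {w : W} (h : PTop cs l w) :
    ∃ r : List (Refl cs), (∀ t ∈ r, Supp l (root cs t)) ∧
      (r.map fun t => lam cs l t * lam cs l t).prod = sg cs w * sg cs w := by
  obtain ⟨ω, l', h1, h2, h3⟩ := exists_full (cs := cs) hl (ω := []) (l' := l) rfl trivial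
  rw [List.nil_append] at h1 h2 h3
  have hws : WS cs l (cs.wordProd ω) := WS.word fun a ha => h1.word_mem ha
  have hw : cs.wordProd ω = w := PTop.unique ⟨hws, h3⟩ h
  have h4 := wd_path cs h2 (isLift_path hl h1 h2) w
  refine ⟨wl (invSet cs w) (crossings cs 1 ω), ?_, ?_⟩
  · have h5 : ∀ L : List (Refl cs), (∀ t ∈ L, Supp l (root cs t)) →
        ∀ t ∈ wl (invSet cs w) L, Supp l (root cs t) := by
      intro L
      induction L with
      | nil => intro _ t ht; simp [wl] at ht
      | cons u L ih =>
        intro hL t ht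
        rw [wl, List.mem_append] at ht
        rcases ht with ht | ht
        · exact ih (fun t ht => hL t (List.mem_cons_of_mem _ ht)) t ht
        · split_ifs at ht
          · rw [List.mem_singleton] at ht
            rw [ht]
            exact hL u List.mem_cons_self
          · simp at ht
    apply h5
    intro t ht
    obtain ⟨ω₁, i, ω₂, hω, ht'⟩ := exists_of_mem_crossings cs ht
    rw [ht', one_mul]
    apply supp_conj (WS.word fun a haa => h1.word_mem (by rw [hω]; simp [haa]))
    exact supp_simple (h1.word_mem (by rw [hω]; simp))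
  · rw [prod_wl, h4, one_mul, hw, inv_mul_cancel, sg_one, mul_one, inv_one, mul_one, mul_one,
      h.inv_eq]

theorem prod_filter {N : Type*} [Monoid N] (f : B → N) (p : B → Bool) (l : List B)
    (h : ∀ a ∈ l, ∀ b ∈ l, p a = true → p b = false → f a * f b = f b * f a) :
    (l.map f).prod = ((l.filter p).map f).prod * ((l.filter fun a => !p a).map f).prod := by
  induction l with
  | nil => simp
  | cons c l ih =>
    have ih' := ih fun a ha b hb => h a (List.mem_cons_of_mem _ ha) b (List.mem_cons_of_mem _ hb)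
    by_cases hc : p c = true
    · rw [List.filter_cons_of_pos hc, List.filter_cons_of_neg (by simp [hc]), List.map_cons,
        List.prod_cons, List.map_cons, List.prod_cons, ih', mul_assoc]
    · have hc' : p c = false := by simpa using hc
      rw [List.filter_cons_of_neg hc, List.filter_cons_of_pos (by simp [hc']), List.map_cons,
        List.prod_cons, List.map_cons, List.prod_cons, ih', ← mul_assoc, ← mul_assoc]
      congr 1
      have hcl : ∀ a ∈ l.filter p, f a * f c = f c * f a := by
        intro a ha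
        rw [List.mem_filter] at ha
        exact h a (List.mem_cons_of_mem _ ha.1) c List.mem_cons_self ha.2 hc'
      generalize l.filter p = v at hcl
      induction v with
      | nil => simp
      | cons a v ihv =>
        rw [List.map_cons, List.prod_cons, mul_assoc, ← ihv fun b hb =>
          hcl b (List.mem_cons_of_mem _ hb), ← mul_assoc, ← hcl a List.mem_cons_self, mul_assoc]

theorem commute_prod {N : Type*} [Monoid N] (f : B → N) {u v : List B}
    (h : ∀ a ∈ u, ∀ b ∈ v, f a * f b = f b * f a) : Commute (u.map f).prod (v.map f).prod := by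
  apply Commute.list_prod_left
  intro x hx
  obtain ⟨a, ha, rfl⟩ := List.mem_map.1 hx
  apply Commute.list_prod_right
  intro y hy
  obtain ⟨b, hb, rfl⟩ := List.mem_map.1 hy
  exact h a ha b hb

theorem fix_word {u v : List B} (h : ∀ a ∈ u, ∀ b ∈ v, M a b = 2) {x : B → ℝ}
    (hx : Supp v x) : rho cs (cs.wordProd u) x = x := by
  induction u with
  | nil => rw [cs.wordProd_nil, rho_one]
  | cons s u ih =>
    rw [cs.wordProd_cons, rho_mul, ih fun a ha => h a (List.mem_cons_of_mem _ ha), rho_simple,
      rfl'_apply]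
    have h1 : bf M (sr s) x = 0 := by
      rw [bf_sr_left]
      refine Finset.sum_eq_zero fun b _ => ?_
      by_cases hb : b ∈ v
      · rw [gram_of_two (h s List.mem_cons_self b hb), zero_mul]
      · rw [hx b hb, mul_zero]
    rw [h1, mul_zero, zero_smul, sub_zero]

theorem asc_orth {u v : List B} (h : ∀ a ∈ u, ∀ b ∈ v, M a b = 2) :
    ∀ ν : List B, (∀ a ∈ ν, a ∈ v) → Asc cs 1 ν → Asc cs (cs.wordProd u) ν := by
  intro ν
  induction ν using List.reverseRecOn with
  | nil => intro _ _; trivial
  | append_singleton ν j ih =>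
    intro hν ha
    rw [asc_append] at ha ⊢
    have hν' : ∀ a ∈ ν, a ∈ v := fun a ha => hν a (by simp [ha])
    refine ⟨ih hν' ha.1, ?_, trivial⟩
    have h1 := ha.2.1
    rw [one_mul, ← nonneg_iff] at h1
    rw [← nonneg_iff, rho_mul, fix_word h]
    · exact h1
    · have h2 : WS cs v (cs.wordProd ν) := WS.word hν'
      have h3 := supp_simple (cs := cs) (hν j (by simp))
      rw [root_simpleR] at h3
      exact h2.supp h3

theorem WS.pow {l : List B} {g : W} (h : WS cs l g) (k : ℕ) : WS cs l (g ^ k) := by
  induction k with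
  | zero => rw [pow_zero]; exact WS.one _
  | succ k ihk => rw [pow_succ]; exact ihk.mul h

/-- The power of the Coxeter element of a parabolic subgroup. -/
theorem power_pos : ∀ (n : ℕ) (l : List B), l.length = n → l.Nodup → ∀ k : ℕ, 0 < k →
    cs.wordProd l ^ k = 1 → ∃ w : W, PTop cs l w ∧
      ∃ r : List (Refl cs), (∀ t ∈ r, Supp l (root cs t)) ∧
        (aw l : Artin M) ^ k = sg cs w * sg cs w *
          (r.map fun t => lam cs l t * lam cs l t).prod := by
  intro n
  induction n using Nat.strong_induction_on with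
  | _ n ih =>
    intro l hln hl k hk hpow
    by_cases hnil : l = []
    · subst hnil
      refine ⟨1, ⟨WS.one _, fun j hj => by simp at hj⟩, [], fun t ht => by simp at ht, ?_⟩
      simp
    by_cases hc : Conn M l
    · obtain ⟨w, m, hw, hm⟩ := conn_power (cs := cs) hl hc hnil
      obtain ⟨s, hs⟩ := List.exists_mem_of_ne_nil l hnil
      have hcomp : Complete (Finset.univ.toList : List B) :=
        ⟨Finset.nodup_toList _, fun i => by simp⟩
      have hd : m ∣ k := by
        refine dvd_of_power (cs := cs) hcomp (w := w) (s := s) (hw.mem_invSet (supp_simple hs))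
          hw.inv_eq hm ?_
        rw [aToW_aw, hpow]
      obtain ⟨q, rfl⟩ := hd
      obtain ⟨r₀, hr₀, hr₀'⟩ := hw.sq_list hl
      obtain ⟨q', rfl⟩ : ∃ q', q = q' + 1 := ⟨q - 1, by
        have : q ≠ 0 := by
          rintro rfl
          simp at hk
        omega⟩
      refine ⟨w, hw, (List.replicate q' r₀).flatten, ?_, ?_⟩
      · intro t ht
        rw [List.mem_flatten] at ht
        obtain ⟨v, hv, htv⟩ := ht
        rw [List.mem_replicate] at hv
        rw [hv.2] at htv
        exact hr₀ t htv
      · rw [pow_mul, hm, pow_succ']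
        congr 1
        rw [prod_power', hr₀']
    · -- the disconnected case
      unfold Conn at hc
      push Not at hc
      obtain ⟨p, hp, ⟨a₀, ha₀, hpa₀⟩, b₀, hb₀, hpb₀⟩ := hc
      classical
      set P : B → Bool := fun a => decide (p a) with hP
      have hPt : ∀ a, P a = true ↔ p a := fun a => by simp [hP]
      have hPf : ∀ a, P a = false ↔ ¬ p a := fun a => by simp [hP]
      have hcomm : ∀ a ∈ l, ∀ b ∈ l, P a = true → P b = false → M a b = 2 := by
        intro a ha b hb hpa hpb
        by_contra hM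
        exact (hPf b).1 hpb (hp a ha b hb hM ((hPt a).1 hpa))
      set l₁ := l.filter P with hl₁
      set l₂ := l.filter (fun a => !P a) with hl₂
      have hs₁ : Sub l₁ l := sub_filter _ hl
      have hs₂ : Sub l₂ l := sub_filter _ hl
      have hn₁ : l₁.Nodup := hl.filter _
      have hn₂ : l₂.Nodup := hl.filter _
      have hlt₁ : l₁.length < n := by
        rw [← hln, hl₁]
        exact List.length_filter_lt_length_iff_exists.2 ⟨b₀, hb₀, by
          simp only [hP, decide_eq_true_eq]
          exact hpb₀⟩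
      have hlt₂ : l₂.length < n := by
        rw [← hln, hl₂]
        exact List.length_filter_lt_length_iff_exists.2 ⟨a₀, ha₀, by simp [hP, hpa₀]⟩
      have h12 : ∀ a ∈ l₁, ∀ b ∈ l₂, M a b = 2 := by
        intro a ha b hb
        rw [hl₁, List.mem_filter] at ha
        rw [hl₂, List.mem_filter] at hb
        exact hcomm a ha.1 b hb.1 ha.2 (by simpa using hb.2)
      have h21 : ∀ a ∈ l₂, ∀ b ∈ l₁, M a b = 2 := fun a ha b hb => by
        rw [M.symmetric]
        exact h12 b hb a ha
      have hmem : ∀ a, a ∈ l ↔ a ∈ l₁ ∨ a ∈ l₂ := by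
        intro a
        rw [hl₁, hl₂, List.mem_filter, List.mem_filter]
        cases P a <;> simp
      have hWprod : cs.wordProd l = cs.wordProd l₁ * cs.wordProd l₂ :=
        prod_filter cs.simple P l fun a ha b hb hpa hpb => simple_comm (hcomm a ha b hb hpa hpb)
      have hAprod : (aw l : Artin M) = aw l₁ * aw l₂ :=
        prod_filter ag P l fun a ha b hb hpa hpb => ag_comm (hcomm a ha b hb hpa hpb)
      have hWc : Commute (cs.wordProd l₁) (cs.wordProd l₂) :=
        commute_prod cs.simple fun a ha b hb => simple_comm (h12 a ha b hb)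
      have hAc : ∀ u v : List B, (∀ a ∈ u, a ∈ l₁) → (∀ a ∈ v, a ∈ l₂) →
          Commute (aw u : Artin M) (aw v) := fun u v hu hv =>
        commute_prod ag fun a ha b hb => ag_comm (h12 a (hu a ha) b (hv b hb))
      rw [hWprod, hWc.mul_pow] at hpow
      have hws₁ : WS cs l₁ (cs.wordProd l₁ ^ k) := by
        have h1 : WS cs l₁ (cs.wordProd l₁) := WS.word fun a ha => ha
        exact h1.pow k
      have hws₂ : WS cs l₂ (cs.wordProd l₂ ^ k) := by
        have h1 : WS cs l₂ (cs.wordProd l₂) := WS.word fun a ha => ha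
        exact h1.pow k
      have hpow₁ : cs.wordProd l₁ ^ k = 1 := by
        have h1 : cs.wordProd l₁ ^ k = (cs.wordProd l₂ ^ k)⁻¹ := eq_inv_of_mul_eq_one_left hpow
        apply rho_injective cs
        rw [map_one]
        refine LinearMap.ext fun x => funext fun j => ?_
        by_cases hj : j ∈ l₁
        · have hj2 : j ∉ l₂ := by
            intro h
            have := h12 j hj j h
            rw [M.diagonal] at this
            omega
          rw [h1, hws₂.inv x j hj2]
          rfl
        · rw [hws₁ x j hj]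
          rfl
      have hpow₂ : cs.wordProd l₂ ^ k = 1 := by
        rw [hpow₁, one_mul] at hpow
        exact hpow
      obtain ⟨w₁, hw₁, r₁, hr₁, he₁⟩ := ih _ hlt₁ l₁ rfl hn₁ k hk hpow₁
      obtain ⟨w₂, hw₂, r₂, hr₂, he₂⟩ := ih _ hlt₂ l₂ rfl hn₂ k hk hpow₂
      -- reduced words for the two longest elements
      obtain ⟨ω₁, l₁', hf₁, ha₁, hd₁⟩ :=
        exists_full (cs := cs) hn₁ (ω := []) (l' := l₁) rfl trivial
      rw [List.nil_append] at hf₁ ha₁ hd₁
      have hm₁ : ∀ a ∈ ω₁, a ∈ l₁ := fun a ha => hf₁.word_mem ha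
      have hω₁ : cs.wordProd ω₁ = w₁ := PTop.unique ⟨WS.word hm₁, hd₁⟩ hw₁
      obtain ⟨ω₂, l₂', hf₂, ha₂, hd₂⟩ :=
        exists_full (cs := cs) hn₂ (ω := []) (l' := l₂) rfl trivial
      rw [List.nil_append] at hf₂ ha₂ hd₂
      have hm₂ : ∀ a ∈ ω₂, a ∈ l₂ := fun a ha => hf₂.word_mem ha
      have hω₂ : cs.wordProd ω₂ = w₂ := PTop.unique ⟨WS.word hm₂, hd₂⟩ hw₂
      have hs1 : (aw ω₁ : Artin M) = sg cs w₁ := by
        rw [← hω₁]
        exact (sg_wordProd cs ((isReduced_iff_asc cs _).2 ha₁)).symm
      have hs2 : (aw ω₂ : Artin M) = sg cs w₂ := by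
        rw [← hω₂]
        exact (sg_wordProd cs ((isReduced_iff_asc cs _).2 ha₂)).symm
      have hs12 : sg cs (w₁ * w₂) = sg cs w₁ * sg cs w₂ := by
        have h1 : Asc cs 1 (ω₁ ++ ω₂) := by
          rw [asc_append, one_mul]
          exact ⟨ha₁, asc_orth (fun a ha b hb => h12 a (hm₁ a ha) b hb) ω₂ hm₂ ha₂⟩
        have h2 := sg_wordProd cs ((isReduced_iff_asc cs _).2 h1)
        rw [cs.wordProd_append, hω₁, hω₂, aw_append, hs1, hs2] at h2
        exact h2
      refine ⟨w₁ * w₂, ⟨?_, ?_⟩, r₁ ++ r₂, ?_, ?_⟩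
      · intro x j hj
        rw [hmem, not_or] at hj
        rw [rho_mul, hw₁.ws _ j hj.1, hw₂.ws _ j hj.2]
      · intro j hj
        rw [← nonpos_iff, rho_mul]
        rcases (hmem j).1 hj with hj | hj
        · have h1 : rho cs w₂ (sr j) = sr j := by
            rw [← hω₂]
            refine fix_word (v := l₁) (fun a ha b hb => h21 a (hm₂ a ha) b hb) ?_
            have h3 := supp_simple (cs := cs) hj
            rwa [root_simpleR] at h3
          rw [h1, nonpos_iff]
          exact hw₁.desc j hj
        · obtain ⟨j', hj', h1⟩ := hw₂.exists_star hj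
          have h2 : rho cs w₁ (sr j') = sr j' := by
            rw [← hω₁]
            refine fix_word (v := l₂) (fun a ha b hb => h12 a (hm₁ a ha) b hb) ?_
            have h3 := supp_simple (cs := cs) hj'
            rwa [root_simpleR] at h3
          rw [h1, map_neg, h2]
          exact neg_nonpos.2 (sr_nonneg j')
      · intro t ht
        rw [List.mem_append] at ht
        rcases ht with ht | ht
        · exact (hr₁ t ht).mono hs₁.1
        · exact (hr₂ t ht).mono hs₂.1
      · have e1 : (r₁.map fun t => lam cs l t * lam cs l t).prod =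
            (r₁.map fun t => lam cs l₁ t * lam cs l₁ t).prod := by
          congr 1
          apply List.map_congr_left
          intro t ht
          rw [lam_sub hs₁ hl hn₁ (hr₁ t ht)]
        have e2 : (r₂.map fun t => lam cs l t * lam cs l t).prod =
            (r₂.map fun t => lam cs l₂ t * lam cs l₂ t).prod := by
          congr 1
          apply List.map_congr_left
          intro t ht
          rw [lam_sub hs₂ hl hn₂ (hr₂ t ht)]
        set R₁ := (r₁.map fun t => lam cs l₁ t * lam cs l₁ t).prod with hR₁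
        set R₂ := (r₂.map fun t => lam cs l₂ t * lam cs l₂ t).prod with hR₂
        have hc1 : Commute (sg cs w₁) (sg cs w₂) := by
          rw [← hs1, ← hs2]
          exact hAc _ _ hm₁ hm₂
        have hc2 : Commute R₁ (sg cs w₂) := by
          have h1 : R₁ = (sg cs w₁ * sg cs w₁)⁻¹ * (aw l₁ : Artin M) ^ k := by
            rw [he₁, inv_mul_cancel_left]
          rw [h1]
          apply Commute.mul_left
          · exact (hc1.mul_left hc1).inv_left
          · rw [← hs2]
            exact (hAc _ _ (fun a ha => ha) hm₂).pow_left k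
        rw [hAprod, (hAc l₁ l₂ (fun a ha => ha) fun a ha => ha).mul_pow, he₁, he₂, hs12,
          List.map_append, List.prod_append, e1, e2]
        have h1 : R₁ * sg cs w₂ = sg cs w₂ * R₁ := hc2
        have h2 : sg cs w₁ * sg cs w₂ = sg cs w₂ * sg cs w₁ := hc1
        calc sg cs w₁ * sg cs w₁ * R₁ * (sg cs w₂ * sg cs w₂ * R₂)
            = sg cs w₁ * sg cs w₁ * (R₁ * sg cs w₂) * sg cs w₂ * R₂ := by group
          _ = sg cs w₁ * sg cs w₁ * (sg cs w₂ * R₁) * sg cs w₂ * R₂ := by rw [h1]
          _ = sg cs w₁ * (sg cs w₁ * sg cs w₂) * (R₁ * sg cs w₂) * R₂ := by group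
          _ = sg cs w₁ * (sg cs w₂ * sg cs w₁) * (sg cs w₂ * R₁) * R₂ := by rw [h1, h2]
          _ = sg cs w₁ * sg cs w₂ * (sg cs w₁ * sg cs w₂) * (R₁ * R₂) := by group

theorem twist_power {l : List B} (h : Complete l) {w₀ : W} (hw₀ : IsTop cs w₀) :
    ∃ r : List (Refl cs), (aw l : Artin M) ^ orderOf (cs.wordProd l) =
      sg cs w₀ * sg cs w₀ * (r.map fun t => lam cs l t * lam cs l t).prod := by
  obtain ⟨w, hw, r, _, hr⟩ := power_pos (cs := cs) _ l rfl h.nodup _
    (orderOf_pos (cs.wordProd l)) (pow_orderOf_eq_one _)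
  have hw' : PTop cs l w₀ := ⟨fun x j hj => absurd (h.mem j) hj, fun j _ => hw₀ j⟩
  rw [hw.unique hw'] at hr
  exact ⟨r, hr⟩

end Pool.Agent.Lib.MP_185a46_al
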