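import Mathlib

/-!
# The geometric representation of a Coxeter system and positivity of roots
-/

set_option autoImplicit false

open CoxeterSystem

namespace Pool.Agent.Lib.MP_185a46_al

/-! ### Alternating words -/

section Alt

variable {B : Type*}

/-- Alternating word of length `k` starting with `i`. -/
def alt (i j : B) : ℕ → List B
  | 0 => []
  | k + 1 => i :: alt j i k

/-- The letter following `alt i j k`. -/
def nxt (i j : B) : ℕ → B
  | 0 => i
  | k + 1 => nxt j i k

@[simp] theorem alt_zero (i j : B) : alt i j 0 = [] := rfl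
@[simp] theorem alt_succ (i j : B) (k : ℕ) : alt i j (k + 1) = i :: alt j i k := rfl
@[simp] theorem nxt_zero (i j : B) : nxt i j 0 = i := rfl
@[simp] theorem nxt_succ (i j : B) (k : ℕ) : nxt i j (k + 1) = nxt j i k := rfl

theorem alt_length (i j : B) (k : ℕ) : (alt i j k).length = k := by
  induction k generalizing i j with
  | zero => rfl
  | succ k ih => simp [ih]

theorem alt_succ' (i j : B) (k : ℕ) : alt i j (k + 1) = alt i j k ++ [nxt i j k] := by
  induction k generalizing i j with
  | zero => rfl
  | succ k ih =>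
    rw [alt_succ, ih j i, alt_succ, List.cons_append, nxt_succ]

theorem nxt_mem (i j : B) (k : ℕ) :
    (nxt i j k = i ∧ nxt j i k = j) ∨ (nxt i j k = j ∧ nxt j i k = i) := by
  induction k generalizing i j with
  | zero => left; exact ⟨rfl, rfl⟩
  | succ k ih =>
    rcases ih j i with h | h
    · right; exact ⟨h.1, h.2⟩
    · left; exact ⟨h.1, h.2⟩

theorem alt_add (i j : B) (p q : ℕ) :
    alt i j (p + q) = alt i j p ++ alt (nxt i j p) (nxt j i p) q := by
  induction p generalizing i j with
  | zero => simp
  | succ p ih =>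
    rw [show p + 1 + q = (p + q) + 1 by ring, alt_succ, ih j i, alt_succ, nxt_succ, nxt_succ,
      List.cons_append]

theorem alt_reverse (i j : B) (k : ℕ) :
    (alt j i k).reverse = alt (nxt i j k) (nxt j i k) k := by
  induction k with
  | zero => rfl
  | succ k ih => rw [alt_succ', List.reverse_append, List.reverse_singleton,
      List.singleton_append, ih, nxt_succ, nxt_succ, alt_succ]

theorem nxt_two_mul (i j : B) (k : ℕ) : nxt i j (2 * k) = i := by
  induction k with
  | zero => rfl
  | succ k ih => rw [show 2 * (k + 1) = (2 * k + 1) + 1 by ring, nxt_succ, nxt_succ, ih]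

theorem alt_prod_pow {N : Type*} [Monoid N] (f : B → N) (i j : B) (k : ℕ) :
    ((alt i j (2 * k)).map f).prod = (f i * f j) ^ k := by
  induction k with
  | zero => simp
  | succ k ih =>
    rw [show 2 * (k + 1) = (2 * k + 1) + 1 by ring, alt_succ, alt_succ, List.map_cons,
      List.map_cons, List.prod_cons, List.prod_cons, ih, pow_succ', mul_assoc]

theorem alt_mem {i j : B} {k : ℕ} {x : B} (h : x ∈ alt i j k) : x = i ∨ x = j := by
  induction k generalizing i j with
  | zero => simp at h
  | succ k ih =>
    rw [alt_succ, List.mem_cons] at h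
    rcases h with h | h
    · left; exact h
    · exact (ih h).symm

end Alt

/-! ### The coefficients -/

/-- `cc t k` is `sin (k θ) / sin θ` when `t = 2 cos θ`. -/
noncomputable def cc (t : ℝ) : ℕ → ℝ
  | 0 => 0
  | 1 => 1
  | k + 2 => t * cc t (k + 1) - cc t k

theorem cc_zero (t : ℝ) : cc t 0 = 0 := by simp [cc]
theorem cc_one (t : ℝ) : cc t 1 = 1 := by simp [cc]
theorem cc_add_two (t : ℝ) (k : ℕ) : cc t (k + 2) = t * cc t (k + 1) - cc t k := by
  rw [cc]

theorem cc_sin (θ : ℝ) (k : ℕ) : cc (2 * Real.cos θ) k * Real.sin θ = Real.sin (k * θ) := by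
  induction k using Nat.twoStepInduction with
  | zero => simp [cc_zero]
  | one => simp [cc_one]
  | more k ih1 ih2 =>
    rw [cc_add_two, sub_mul, mul_assoc, ih1, ih2]
    have h1 : ((k + 2 : ℕ) : ℝ) * θ = (k + 1 : ℕ) * θ + θ := by push_cast; ring
    have h2 : ((k : ℕ) : ℝ) * θ = (k + 1 : ℕ) * θ - θ := by push_cast; ring
    rw [h1, h2, Real.sin_add, Real.sin_sub]
    ring

theorem cc_two (k : ℕ) : cc 2 k = k := by
  induction k using Nat.twoStepInduction with
  | zero => simp [cc_zero]
  | one => simp [cc_one]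
  | more k ih1 ih2 =>
    rw [cc_add_two, ih1, ih2]
    push_cast
    ring

/-! ### The geometric representation -/

section Rep

variable {B W : Type*} [Group W] {M : CoxeterMatrix B} (cs : CoxeterSystem M W)

/-- The Gram matrix. -/
noncomputable def gram (M : CoxeterMatrix B) : Matrix B B ℝ :=
  fun i j => -Real.cos (Real.pi / M i j)

theorem gram_symm (i j : B) : gram M i j = gram M j i := by
  unfold gram
  rw [M.symmetric i j]

theorem gram_self (i : B) : gram M i i = 1 := by
  unfold gram
  simp

/-- `-2` times the Gram entry, that is `2 cos (π / m)`. -/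
theorem gram_eq (i j : B) : -2 * gram M i j = 2 * Real.cos (Real.pi / M i j) := by
  unfold gram
  ring

theorem M_ge_two {i j : B} (hij : i ≠ j) (h0 : M i j ≠ 0) : 2 ≤ M i j := by
  have := M.off_diagonal i j hij
  omega

theorem gram_nonpos {i j : B} (hij : i ≠ j) : gram M i j ≤ 0 := by
  unfold gram
  rw [neg_nonpos]
  by_cases h0 : M i j = 0
  · rw [h0]
    simp
  · have h2 : (2 : ℝ) ≤ M i j := by exact_mod_cast M_ge_two hij h0
    apply Real.cos_nonneg_of_neg_pi_div_two_le_of_le
    · have : 0 ≤ Real.pi / M i j := by positivity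
      linarith [Real.pi_pos]
    · exact div_le_div_of_nonneg_left Real.pi_pos.le (by norm_num) h2

theorem cc_nonneg {i j : B} (hij : i ≠ j) (h0 : M i j ≠ 0) {k : ℕ} (hk : k ≤ M i j) :
    0 ≤ cc (-2 * gram M i j) k := by
  rw [gram_eq]
  have h2 : (2 : ℝ) ≤ M i j := by exact_mod_cast M_ge_two hij h0
  have hpos : 0 < Real.sin (Real.pi / M i j) := by
    apply Real.sin_pos_of_pos_of_lt_pi
    · positivity
    · rw [div_lt_iff₀ (by linarith)]
      nlinarith [Real.pi_pos]
  have h3 := cc_sin (Real.pi / M i j) k
  have h4 : 0 ≤ Real.sin (k * (Real.pi / M i j)) := by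
    apply Real.sin_nonneg_of_nonneg_of_le_pi
    · positivity
    · have h5 : (k : ℝ) ≤ M i j := by exact_mod_cast hk
      rw [← mul_div_assoc, div_le_iff₀ (by linarith)]
      nlinarith [Real.pi_pos]
  rw [← h3] at h4
  exact nonneg_of_mul_nonneg_left h4 hpos

theorem cc_M {i j : B} (hij : i ≠ j) (h0 : M i j ≠ 0) : cc (-2 * gram M i j) (M i j) = 0 := by
  rw [gram_eq]
  have h2 : (2 : ℝ) ≤ M i j := by exact_mod_cast M_ge_two hij h0
  have hpos : 0 < Real.sin (Real.pi / M i j) := by
    apply Real.sin_pos_of_pos_of_lt_pi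
    · positivity
    · rw [div_lt_iff₀ (by linarith)]
      nlinarith [Real.pi_pos]
  have h3 := cc_sin (Real.pi / M i j) (M i j)
  have h4 : (M i j : ℝ) * (Real.pi / M i j) = Real.pi := by field_simp
  rw [h4, Real.sin_pi] at h3
  exact (mul_eq_zero.1 h3).resolve_right hpos.ne'

theorem cc_M_pred {i j : B} (hij : i ≠ j) (h0 : M i j ≠ 0) :
    cc (-2 * gram M i j) (M i j - 1) = 1 := by
  rw [gram_eq]
  have hn := M_ge_two hij h0
  have h2 : (2 : ℝ) ≤ M i j := by exact_mod_cast hn
  have hpos : 0 < Real.sin (Real.pi / M i j) := by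
    apply Real.sin_pos_of_pos_of_lt_pi
    · positivity
    · rw [div_lt_iff₀ (by linarith)]
      nlinarith [Real.pi_pos]
  have h3 := cc_sin (Real.pi / M i j) (M i j - 1)
  have h4 : ((M i j - 1 : ℕ) : ℝ) * (Real.pi / M i j) = Real.pi - Real.pi / M i j := by
    rw [Nat.cast_sub (by omega)]
    field_simp
    ring
  rw [h4, Real.sin_pi_sub] at h3
  exact mul_right_cancel₀ hpos.ne' (h3.trans (one_mul _).symm)

variable [DecidableEq B]

/-- The simple roots. -/
def sr (i : B) : B → ℝ := Pi.single i 1

theorem sr_nonneg (i : B) : 0 ≤ sr i := by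
  intro j
  unfold sr
  by_cases h : j = i
  · subst h
    simp
  · simp [h]

theorem sr_ne_zero (i : B) : sr i ≠ 0 := by
  intro h
  have := congrFun h i
  simp [sr] at this

variable [Fintype B]

/-- The invariant bilinear form. -/
noncomputable def bf (M : CoxeterMatrix B) : LinearMap.BilinForm ℝ (B → ℝ) :=
  Matrix.toBilin' (gram M)

theorem bf_sr (i j : B) : bf M (sr i) (sr j) = gram M i j := by
  unfold bf sr
  rw [Matrix.toBilin'_single]

theorem bf_symm (x y : B → ℝ) : bf M x y = bf M y x := by
  unfold bf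
  rw [Matrix.toBilin'_apply, Matrix.toBilin'_apply, Finset.sum_comm]
  refine Finset.sum_congr rfl fun i _ => Finset.sum_congr rfl fun j _ => ?_
  rw [gram_symm i j]
  ring

theorem bf_sr_self (i : B) : bf M (sr i) (sr i) = 1 := by
  rw [bf_sr, gram_self]

/-- The reflection in a vector. -/
noncomputable def rfl' (M : CoxeterMatrix B) (a : B → ℝ) : Module.End ℝ (B → ℝ) :=
  LinearMap.id - (2 • bf M a).smulRight a

theorem rfl'_apply (a x : B → ℝ) : rfl' M a x = x - (2 * bf M a x) • a := by
  simp [rfl']

theorem rfl'_self {a : B → ℝ} (ha : bf M a a = 1) : rfl' M a a = -a := by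
  rw [rfl'_apply, ha]
  module

theorem rfl'_rfl' {a : B → ℝ} (ha : bf M a a = 1) (x : B → ℝ) : rfl' M a (rfl' M a x) = x := by
  rw [rfl'_apply, rfl'_apply, map_sub, map_smul, smul_eq_mul, ha]
  module

theorem bf_rfl' {a : B → ℝ} (ha : bf M a a = 1) (x y : B → ℝ) :
    bf M (rfl' M a x) (rfl' M a y) = bf M x y := by
  rw [rfl'_apply, rfl'_apply]
  simp only [map_sub, map_smul, LinearMap.sub_apply, LinearMap.smul_apply, smul_eq_mul, ha]
  rw [bf_symm x a]
  ring

/-- Action of the reflection in a simple root on a combination of two simple roots. -/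
theorem rfl'_comb (i j : B) (x y : ℝ) :
    rfl' M (sr i) (x • sr i + y • sr j) = (-2 * gram M i j * y - x) • sr i + y • sr j := by
  rw [rfl'_apply, map_add, map_smul, map_smul, bf_sr, bf_sr, gram_self]
  simp only [smul_eq_mul]
  module

theorem alt_rfl' (i j : B) (k : ℕ) :
    ((alt i j k).map (fun a => rfl' M (sr a))).prod (sr (nxt i j k)) =
      cc (-2 * gram M i j) (k + 1) • sr i + cc (-2 * gram M i j) k • sr j := by
  induction k generalizing i j with
  | zero => simp [cc_zero, cc_one]
  | succ k ih =>
    rw [alt_succ, List.map_cons, List.prod_cons, Module.End.mul_apply, nxt_succ, ih j i,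
      gram_symm j i, add_comm, rfl'_comb, cc_add_two]

/-- The same for the reversed word applied to the first letter. -/
theorem alt_rev_rfl' (i j : B) (k : ℕ) :
    ((alt j i k).reverse.map (fun a => rfl' M (sr a))).prod (sr i) =
      cc (-2 * gram M i j) (k + 1) • sr (nxt i j k) +
        cc (-2 * gram M i j) k • sr (nxt j i k) := by
  induction k with
  | zero => simp [cc_zero, cc_one]
  | succ k ih =>
    rw [alt_succ', List.reverse_append, List.reverse_singleton, List.singleton_append,
      List.map_cons, List.prod_cons, Module.End.mul_apply, ih, add_comm, rfl'_comb, nxt_succ,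
      nxt_succ, cc_add_two]
    have h : gram M (nxt j i k) (nxt i j k) = gram M i j := by
      rcases nxt_mem i j k with h | h
      · rw [h.1, h.2, gram_symm]
      · rw [h.1, h.2]
    rw [h, add_comm]

theorem lift_aux (i j : B) : (rfl' M (sr i) * rfl' M (sr j)) ^ M i j = 1 := by
  by_cases hij : i = j
  · subst hij
    rw [M.diagonal, pow_one]
    exact LinearMap.ext fun x => rfl'_rfl' (M := M) (bf_sr_self i) x
  by_cases h0 : M i j = 0
  · rw [h0, pow_zero]
  have hn := M_ge_two hij h0
  have h2 : (2 : ℝ) ≤ M i j := by exact_mod_cast hn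
  -- the action on the plane
  have hpow : ∀ (a b : B) (k : ℕ), ((alt a b (2 * k)).map (fun a => rfl' M (sr a))).prod =
      (rfl' M (sr a) * rfl' M (sr b)) ^ k := by
    intro a b k
    induction k with
    | zero => simp
    | succ k ih =>
      rw [show 2 * (k + 1) = (2 * k + 1) + 1 by ring, alt_succ, alt_succ, List.map_cons,
        List.map_cons, List.prod_cons, List.prod_cons, ih, pow_succ', mul_assoc]
  have hpos : 0 < Real.sin (Real.pi / M i j) := by
    apply Real.sin_pos_of_pos_of_lt_pi
    · positivity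
    · rw [div_lt_iff₀ (by linarith)]
      nlinarith [Real.pi_pos]
  have hc0 : cc (-2 * gram M i j) (2 * M i j) = 0 := by
    rw [gram_eq]
    have h3 := cc_sin (Real.pi / M i j) (2 * M i j)
    have h4 : ((2 * M i j : ℕ) : ℝ) * (Real.pi / M i j) = 2 * Real.pi := by
      push_cast
      field_simp
    rw [h4, Real.sin_two_pi] at h3
    exact (mul_eq_zero.1 h3).resolve_right hpos.ne'
  have hc1 : cc (-2 * gram M i j) (2 * M i j + 1) = 1 := by
    rw [gram_eq]
    have h3 := cc_sin (Real.pi / M i j) (2 * M i j + 1)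
    have h4 : ((2 * M i j + 1 : ℕ) : ℝ) * (Real.pi / M i j) = Real.pi / M i j + 2 * Real.pi := by
      push_cast
      field_simp
      ring
    rw [h4, Real.sin_add_two_pi] at h3
    exact mul_right_cancel₀ hpos.ne' (h3.trans (one_mul _).symm)
  have hnx : ∀ (a b : B) (k : ℕ), nxt a b (2 * k) = a := by
    intro a b k
    induction k with
    | zero => rfl
    | succ k ih => rw [show 2 * (k + 1) = (2 * k + 1) + 1 by ring, nxt_succ, nxt_succ, ih]
  have hi : ((rfl' M (sr i) * rfl' M (sr j)) ^ M i j) (sr i) = sr i := by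
    have h3 := alt_rfl' (M := M) i j (2 * M i j)
    rw [hpow, hnx, hc0, hc1] at h3
    rw [h3]
    simp
  have hj : ((rfl' M (sr i) * rfl' M (sr j)) ^ M i j) (sr j) = sr j := by
    -- from the reversed word
    have h3 := alt_rfl' (M := M) j i (2 * M i j)
    rw [hpow, hnx, gram_symm j i, hc0, hc1, one_smul, zero_smul, add_zero] at h3
    have h4 : (rfl' M (sr i) * rfl' M (sr j)) ^ M i j *
        (rfl' M (sr j) * rfl' M (sr i)) ^ M i j = 1 := by
      have hc : Commute (rfl' M (sr i) * rfl' M (sr j)) (rfl' M (sr j) * rfl' M (sr i)) := by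
        refine LinearMap.ext fun x => ?_
        simp only [Module.End.mul_apply]
        rw [rfl'_rfl' (bf_sr_self _), rfl'_rfl' (bf_sr_self _), rfl'_rfl' (bf_sr_self _),
          rfl'_rfl' (bf_sr_self _)]
      rw [← hc.mul_pow]
      have : rfl' M (sr i) * rfl' M (sr j) * (rfl' M (sr j) * rfl' M (sr i)) = 1 := by
        refine LinearMap.ext fun x => ?_
        simp only [Module.End.mul_apply]
        rw [rfl'_rfl' (bf_sr_self _), rfl'_rfl' (bf_sr_self _)]
        rfl
      rw [this, one_pow]
    have h5 := congrArg (fun f : Module.End ℝ (B → ℝ) => f (sr j)) h4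
    simp only [Module.End.mul_apply, Module.End.one_apply, h3] at h5
    exact h5
  -- the orthogonal complement of the plane
  have hfix : ∀ x : B → ℝ, bf M (sr i) x = 0 → bf M (sr j) x = 0 →
      ((rfl' M (sr i) * rfl' M (sr j)) ^ M i j) x = x := by
    intro x hx hx'
    have h1 : (rfl' M (sr i) * rfl' M (sr j)) x = x := by
      rw [Module.End.mul_apply, rfl'_apply (sr j), hx', mul_zero, zero_smul, sub_zero, rfl'_apply,
        hx, mul_zero, zero_smul, sub_zero]
    have : ∀ k : ℕ, ((rfl' M (sr i) * rfl' M (sr j)) ^ k) x = x := by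
      intro k
      induction k with
      | zero => rfl
      | succ k ih => rw [pow_succ, Module.End.mul_apply, h1, ih]
    exact this _
  have hdet : 1 - gram M i j ^ 2 ≠ 0 := by
    have : 1 - gram M i j ^ 2 = Real.sin (Real.pi / M i j) ^ 2 := by
      unfold gram
      rw [neg_sq, Real.sin_sq]
    rw [this]
    positivity
  refine LinearMap.ext fun x => ?_
  set g := gram M i j with hg
  set p := (bf M (sr i) x - g * bf M (sr j) x) / (1 - g ^ 2) with hp
  set q := (bf M (sr j) x - g * bf M (sr i) x) / (1 - g ^ 2) with hq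
  have hx : x = (x - (p • sr i + q • sr j)) + (p • sr i + q • sr j) := by module
  have e1 : bf M (sr i) (x - (p • sr i + q • sr j)) = 0 := by
    rw [map_sub, map_add, map_smul, map_smul, bf_sr, bf_sr, gram_self, ← hg]
    simp only [smul_eq_mul]
    rw [hp, hq]
    field_simp
    ring
  have e2 : bf M (sr j) (x - (p • sr i + q • sr j)) = 0 := by
    rw [map_sub, map_add, map_smul, map_smul, bf_sr, bf_sr, gram_self, gram_symm j i, ← hg]
    simp only [smul_eq_mul]
    rw [hp, hq]
    field_simp
    ring
  rw [hx, map_add, hfix _ e1 e2, map_add, map_smul, map_smul, hi, hj]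
  rfl

/-- The geometric representation. -/
noncomputable def rho : W →* Module.End ℝ (B → ℝ) :=
  cs.lift ⟨fun i => rfl' M (sr i), lift_aux⟩

theorem rho_simple (i : B) : rho cs (cs.simple i) = rfl' M (sr i) := by
  exact cs.lift_apply_simple _ i

theorem rho_wordProd (ω : List B) :
    rho cs (cs.wordProd ω) = (ω.map (fun a => rfl' M (sr a))).prod := by
  unfold CoxeterSystem.wordProd
  rw [map_list_prod, List.map_map]
  congr 1
  apply List.map_congr_left
  intro a _
  exact rho_simple cs a

theorem rho_mul (u v : W) (x : B → ℝ) : rho cs (u * v) x = rho cs u (rho cs v x) := by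
  rw [map_mul]
  rfl

@[simp] theorem rho_one (x : B → ℝ) : rho cs 1 x = x := by
  rw [map_one]
  rfl

@[simp] theorem rho_inv_self (w : W) (x : B → ℝ) : rho cs w⁻¹ (rho cs w x) = x := by
  rw [← rho_mul, inv_mul_cancel, rho_one]

@[simp] theorem rho_self_inv (w : W) (x : B → ℝ) : rho cs w (rho cs w⁻¹ x) = x := by
  rw [← rho_mul, mul_inv_cancel, rho_one]

theorem bf_rho (w : W) (x y : B → ℝ) : bf M (rho cs w x) (rho cs w y) = bf M x y := by
  induction w using cs.simple_induction_left with
  | one => rw [rho_one, rho_one]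
  | mul_simple_left w i ih => rw [rho_mul, rho_mul, rho_simple, bf_rfl' (bf_sr_self i), ih]

theorem rho_simple_sr (i : B) : rho cs (cs.simple i) (sr i) = -sr i := by
  rw [rho_simple, rfl'_self (bf_sr_self i)]

end Rep

end Pool.Agent.Lib.MP_185a46_al
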