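import Pool.Agent.Lib.MP_185a46_al.Pres

/-!
# The homomorphism from the pure Artin group
-/

set_option autoImplicit false

open CoxeterSystem

namespace Pool.Agent.Lib.MP_185a46_al

variable {B W : Type*} [Group W] {M : CoxeterMatrix B} (cs : CoxeterSystem M W)

/-- A path that goes down. -/
def Desc : W → List B → Prop
  | _, [] => True
  | v, i :: ω => cs.IsRightDescent v i ∧ Desc (v * cs.simple i) ω

theorem desc_iff (v : W) (ω : List B) :
    Desc cs v ω ↔ cs.length (v * cs.wordProd ω) + ω.length = cs.length v := by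
  induction ω generalizing v with
  | nil => simp [Desc]
  | cons i ω ih =>
    rw [Desc, ih, cs.wordProd_cons, ← mul_assoc, List.length_cons]
    have h1 := cs.length_mul_simple v i
    have h2 := cs.length_mul_le (v * cs.simple i * cs.wordProd ω) (cs.wordProd ω)⁻¹
    rw [mul_inv_cancel_right, cs.length_inv] at h2
    have h3 := cs.length_wordProd_le ω
    constructor
    · rintro ⟨h4, h5⟩
      have := cs.isRightDescent_iff.1 h4
      omega
    · intro h
      have h4 : cs.IsRightDescent v i := by
        rw [cs.isRightDescent_iff]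
        omega
      refine ⟨h4, ?_⟩
      have := cs.isRightDescent_iff.1 h4
      omega

variable [DecidableEq B] [Fintype B] [Finite W]

section Theta

variable {G : Type*} [Group G] (x : Refl cs → G) (L : List (Refl cs))

open Classical in
/-- The cocycle. -/
noncomputable def kap (i : B) (w : W) : G :=
  if cs.IsRightDescent w i then
    wd x (invSet cs w) L * (wd x (invSet cs (w * cs.simple i)) L)⁻¹ else 1

/-- The image of a generator of the Artin group. -/
noncomputable def th (i : B) : EG W G := ⟨kap cs x L i, cs.simple i⟩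

/-- The image of a word. -/
noncomputable def thw (ω : List B) : EG W G := (ω.map (th cs x L)).prod

@[simp] theorem thw_nil : thw cs x L [] = 1 := rfl

theorem thw_cons (i : B) (ω : List B) : thw cs x L (i :: ω) = th cs x L i * thw cs x L ω := by
  simp [thw]

theorem thw_append (ω ω' : List B) :
    thw cs x L (ω ++ ω') = thw cs x L ω * thw cs x L ω' := by
  simp [thw]

theorem thw_u (ω : List B) : (thw cs x L ω).u = cs.wordProd ω := by
  induction ω with
  | nil => simp
  | cons i ω ih => rw [thw_cons, EG.mul_u, ih, cs.wordProd_cons]; rfl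

theorem thw_cons_f (i : B) (ω : List B) (w : W) :
    (thw cs x L (i :: ω)).f w = kap cs x L i w * (thw cs x L ω).f (w * cs.simple i) := by
  rw [thw_cons, EG.mul_f]
  rfl

theorem thw_append_f (ω ω' : List B) (w : W) :
    (thw cs x L (ω ++ ω')).f w = (thw cs x L ω).f w * (thw cs x L ω').f (w * cs.wordProd ω) := by
  rw [thw_append, EG.mul_f, thw_u]

theorem thw_asc {w : W} {ω : List B} (h : Asc cs w ω) : (thw cs x L ω).f w = 1 := by
  induction ω generalizing w with
  | nil => simp
  | cons i ω ih => rw [thw_cons_f, ih h.2, kap, if_neg h.1, mul_one]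

theorem thw_desc {w : W} {ω : List B} (h : Desc cs w ω) :
    (thw cs x L ω).f w =
      wd x (invSet cs w) L * (wd x (invSet cs (w * cs.wordProd ω)) L)⁻¹ := by
  induction ω generalizing w with
  | nil => simp
  | cons i ω ih =>
    rw [thw_cons_f, ih h.2, kap, if_pos h.1, cs.wordProd_cons, ← mul_assoc w]
    group

end Theta

/-! ### Structure of a rank two coset -/

theorem coset_decomp {i j : B} (hij : i ≠ j) (w : W) :
    ∃ (v : W) (k : ℕ), k ≤ M i j ∧ ¬ cs.IsRightDescent v i ∧ ¬ cs.IsRightDescent v j ∧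
      (w = v * cs.wordProd (alt i j k) ∨ w = v * cs.wordProd (alt j i k)) := by
  induction hn : cs.length w using Nat.strong_induction_on generalizing w with
  | _ n ih =>
    by_cases hi : cs.IsRightDescent w i ∨ cs.IsRightDescent w j
    · obtain ⟨a, ha, hda⟩ : ∃ a, (a = i ∨ a = j) ∧ cs.IsRightDescent w a := by
        rcases hi with h | h
        · exact ⟨i, Or.inl rfl, h⟩
        · exact ⟨j, Or.inr rfl, h⟩
      have hlt := cs.isRightDescent_iff.1 hda
      obtain ⟨v, k, hk, hvi, hvj, hw⟩ := ih _ (by omega) (w * cs.simple a) rfl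
      have hasc := cs.isRightDescent_iff_not_isRightDescent_mul.1 hda
      have h2 := M_ge_two hij (M_ne_zero cs hij)
      have gen : ∀ p q : B, p ≠ q → M p q = M i j → (a = p ∨ a = q) →
          ¬ cs.IsRightDescent v p → ¬ cs.IsRightDescent v q →
          w * cs.simple a = v * cs.wordProd (alt p q k) →
          ∃ k, k ≤ M i j ∧ (w = v * cs.wordProd (alt p q k) ∨
            w = v * cs.wordProd (alt q p k)) := by
        intro p q hpq hM hap hvp hvq hw
        have hwa : w = v * cs.wordProd (alt p q k) * cs.simple a := by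
          rw [← hw, cs.simple_mul_simple_cancel_right]
        rcases Nat.eq_zero_or_pos k with hk0 | hk0
        · subst hk0
          refine ⟨1, by omega, ?_⟩
          rw [alt_zero, cs.wordProd_nil, mul_one] at hwa
          rw [alt_succ, alt_succ, alt_zero, alt_zero, cs.wordProd_singleton,
            cs.wordProd_singleton]
          rcases hap with rfl | rfl
          · exact Or.inl hwa
          · exact Or.inr hwa
        · obtain ⟨k', rfl⟩ : ∃ k', k = k' + 1 := ⟨k - 1, by omega⟩
          -- the last letter is a descent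
          have hlen := fun l (hl : l ≤ M p q) => length_mul_alt' cs hpq hvp hvq (k := l) hl
          have hdl : cs.IsRightDescent (w * cs.simple a) (nxt p q k') := by
            rw [hw]
            unfold CoxeterSystem.IsRightDescent
            rw [hlen (k' + 1) (by omega), alt_succ', cs.wordProd_append,
              cs.wordProd_singleton, ← mul_assoc, cs.simple_mul_simple_cancel_right,
              hlen k' (by omega)]
            omega
          have hne : a ≠ nxt p q k' := by
            rintro h
            rw [← h] at hdl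
            exact hasc hdl
          have ha' : a = nxt p q (k' + 1) := by
            rw [nxt_succ]
            rcases nxt_mem p q k' with h | h
            · rw [h.1] at hne
              rw [h.2]
              exact hap.resolve_left hne
            · rw [h.1] at hne
              rw [h.2]
              exact hap.resolve_right hne
          rcases Nat.lt_or_ge (k' + 1) (M i j) with hlt' | hge
          · refine ⟨k' + 1 + 1, hlt', Or.inl ?_⟩
            rw [hwa, alt_succ' p q (k' + 1), cs.wordProd_append, cs.wordProd_singleton,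
              ← ha', mul_assoc]
          · exfalso
            have hkm : k' + 1 = M p q := by omega
            apply hasc
            rw [hw, hkm, wordProd_alt]
            have hlen' := length_mul_alt' cs hpq.symm hvq hvp (k := M q p) le_rfl
            have hlen'' := length_mul_alt' cs hpq.symm hvq hvp (k := k') (by
              rw [M.symmetric q p]; omega)
            unfold CoxeterSystem.IsRightDescent
            rw [M.symmetric p q, hlen', ← M.symmetric p q, ← hkm, alt_succ', cs.wordProd_append,
              cs.wordProd_singleton, ← nxt_succ, ← ha', ← mul_assoc,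
              cs.simple_mul_simple_cancel_right, hlen'']
            omega
      rcases hw with hw | hw
      · obtain ⟨k, h1, h2⟩ := gen i j hij rfl ha hvi hvj hw
        exact ⟨v, k, h1, hvi, hvj, h2⟩
      · obtain ⟨k, h1, h2⟩ := gen j i hij.symm (M.symmetric j i) ha.symm hvj hvi hw
        exact ⟨v, k, h1, hvi, hvj, h2.symm⟩
    · push Not at hi
      exact ⟨w, 0, Nat.zero_le _, hi.1, hi.2, Or.inl (by simp)⟩

/-- The top of a rank two coset. -/
theorem top_desc {i j : B} (hij : i ≠ j) {v : W} (hi : ¬ cs.IsRightDescent v i)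
    (hj : ¬ cs.IsRightDescent v j) :
    cs.IsRightDescent (v * cs.wordProd (alt i j (M i j))) i ∧
      cs.IsRightDescent (v * cs.wordProd (alt i j (M i j))) j := by
  have h2 := M_ge_two hij (M_ne_zero cs hij)
  obtain ⟨m, hm⟩ : ∃ m, M i j = m + 1 := ⟨M i j - 1, by omega⟩
  have gen : ∀ p q : B, p ≠ q → M p q = m + 1 → ¬ cs.IsRightDescent v p →
      ¬ cs.IsRightDescent v q →
      cs.IsRightDescent (v * cs.wordProd (alt p q (m + 1))) (nxt p q m) := by
    intro p q hpq hM hp hq
    have h3 := length_mul_alt' cs hpq hp hq (k := m + 1) (by omega)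
    have h4 := length_mul_alt' cs hpq hp hq (k := m) (by omega)
    unfold CoxeterSystem.IsRightDescent
    rw [h3, alt_succ', cs.wordProd_append, cs.wordProd_singleton, ← mul_assoc,
      cs.simple_mul_simple_cancel_right, h4]
    omega
  have g1 := gen i j hij hm hi hj
  have g2 := gen j i hij.symm (by rw [M.symmetric]; exact hm) hj hi
  have h5 : cs.wordProd (alt j i (m + 1)) = cs.wordProd (alt i j (m + 1)) := by
    have := wordProd_alt cs i j
    rw [hm] at this
    exact this.symm
  rw [h5] at g2
  rw [hm]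
  rcases nxt_mem i j m with h | h
  · rw [h.1] at g1
    rw [h.2] at g2
    exact ⟨g1, g2⟩
  · rw [h.1] at g1
    rw [h.2] at g2
    exact ⟨g2, g1⟩

theorem long_inv_desc {i j : B} (hij : i ≠ j) :
    cs.IsRightDescent (cs.wordProd (alt i j (M i j)))⁻¹ i ∧
      cs.IsRightDescent (cs.wordProd (alt i j (M i j)))⁻¹ j := by
  have h2 := M_ge_two hij (M_ne_zero cs hij)
  obtain ⟨m, hm⟩ : ∃ m, M i j = m + 1 := ⟨M i j - 1, by omega⟩
  have gen : ∀ p q : B, p ≠ q → M p q = m + 1 →
      cs.IsLeftDescent (cs.wordProd (alt p q (m + 1))) p := by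
    intro p q hpq hM
    have h3 := length_mul_alt' cs (w := 1) hpq (cs.not_isRightDescent_one _)
      (cs.not_isRightDescent_one _) (k := m + 1) (by omega)
    have h4 := cs.length_wordProd_le (alt q p m)
    rw [alt_length] at h4
    rw [one_mul, cs.length_one, zero_add] at h3
    unfold CoxeterSystem.IsLeftDescent
    rw [h3, alt_succ, cs.wordProd_cons, cs.simple_mul_simple_cancel_left]
    omega
  have g1 := gen i j hij hm
  have g2 := gen j i hij.symm (by rw [M.symmetric]; exact hm)
  have h5 : cs.wordProd (alt j i (m + 1)) = cs.wordProd (alt i j (m + 1)) := by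
    have := wordProd_alt cs i j
    rw [hm] at this
    exact this.symm
  rw [h5] at g2
  rw [hm, cs.isRightDescent_inv_iff, cs.isRightDescent_inv_iff]
  exact ⟨g1, g2⟩

/-- Multiplication by the longest element of a rank two parabolic subgroup. -/
theorem mem_invSet_long {i j : B} (hij : i ≠ j) {v g : W} (hg : g ∈ par cs i j) {t : Refl cs}
    (ht : t ∈ planeSet cs v i j) :
    t ∈ invSet cs (v * g * cs.wordProd (alt i j (M i j))) ↔ t ∉ invSet cs (v * g) := by
  have hsupp : ∀ k, k ≠ i → k ≠ j → rho cs (v * g)⁻¹ (root cs t) k = 0 :=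
    fun k h1 h2 => plane_mul_par hg ht h1 h2
  have h1 := long_inv_desc cs hij
  rw [mem_invSet, not_mem_invSet, mul_inv_rev (v * g), rho_mul]
  constructor
  · intro h
    by_contra h2
    rw [not_nonneg_iff] at h2
    have h3 := sign_comb' cs (neg_nonneg.2 h2) (fun k h4 h5 => by
      rw [Pi.neg_apply, hsupp k h4 h5, neg_zero]) h1.1 h1.2
    rw [map_neg, neg_nonpos] at h3
    have h4 := le_antisymm h h3
    rw [← rho_mul] at h4
    exact rho_root_ne_zero cs _ t h4
  · intro h
    exact sign_comb' cs h hsupp h1.1 h1.2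

section Braid

variable {cs}
variable {G : Type*} [Group G] {x : Refl cs → G} {z : G} {L : List (Refl cs)}

theorem thw_braid_aux (hnd : L.Nodup)
    (hsplit : ∀ L₁ L₂, L = L₁ ++ L₂ → ∃ y : W, invSet cs y = {t | t ∈ L₂})
    (hz : ∀ w, wd x (invSet cs w) L * wd x (invSet cs w)ᶜ L = z)
    {v : W} {i j : B} (hij : i ≠ j) (hi : ¬ cs.IsRightDescent v i)
    (hj : ¬ cs.IsRightDescent v j) {k : ℕ} (hk : k ≤ M i j) {w : W}
    (hw : w = v * cs.wordProd (alt i j k)) :
    (thw cs x L (alt i j (M i j))).f w = (thw cs x L (alt j i (M i j))).f w := by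
  set m := M i j with hm
  set a := nxt i j k with ha
  set b := nxt j i k with hb
  set w₁ := v * cs.wordProd (alt i j m) with hw₁
  have hM : ∀ p q : B, (p = i ∧ q = j) ∨ (p = j ∧ q = i) → M p q = m ∧ p ≠ q := by
    rintro p q (⟨rfl, rfl⟩ | ⟨rfl, rfl⟩)
    · exact ⟨rfl, hij⟩
    · exact ⟨M.symmetric _ _, hij.symm⟩
  have hab := hM a b (nxt_mem i j k)
  have hlw := length_mul_alt' cs hij hi hj hk
  rw [← hw] at hlw
  have hlw₁ := length_mul_alt' cs hij hi hj (le_refl m)
  rw [← hw₁] at hlw₁
  have htop := top_desc cs hij hi hj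
  rw [← hm, ← hw₁] at htop
  have hpath : w * cs.wordProd (alt a b (m - k)) = w₁ := by
    rw [hw, mul_assoc, ← cs.wordProd_append, ← alt_add, hw₁]
    congr 3
    omega
  -- the path through the top
  have hup : (thw cs x L (alt a b m)).f w =
      wd x (invSet cs w₁) L * (wd x (invSet cs (w * cs.wordProd (alt a b m))) L)⁻¹ := by
    have hsplit' : alt a b m = alt a b (m - k) ++
        alt (nxt a b (m - k)) (nxt b a (m - k)) k := by
      rw [← alt_add]
      congr 1
      omega
    have hc : ∀ p q : B, (p = a ∧ q = b) ∨ (p = b ∧ q = a) →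
        p ≠ q ∧ M p q = m ∧ cs.IsRightDescent w₁ p ∧ cs.IsRightDescent w₁ q := by
      rintro p q h
      have h1 : (p = i ∧ q = j) ∨ (p = j ∧ q = i) := by
        rcases nxt_mem i j k with h2 | h2
        · rw [ha, hb, h2.1, h2.2] at h
          exact h
        · rw [ha, hb, h2.1, h2.2] at h
          exact h.symm
      refine ⟨(hM p q h1).2, (hM p q h1).1, ?_⟩
      rcases h1 with ⟨rfl, rfl⟩ | ⟨rfl, rfl⟩
      · exact htop
      · exact htop.symm
    obtain ⟨hc1, hc2, hc3, hc4⟩ := hc _ _ (nxt_mem a b (m - k))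
    have hasc : Asc cs w (alt a b (m - k)) := by
      rw [asc_iff, hpath, alt_length]
      omega
    have hdesc : Desc cs w₁ (alt (nxt a b (m - k)) (nxt b a (m - k)) k) := by
      rw [desc_iff, alt_length]
      exact length_mul_alt cs hc1 hc3 hc4 (by omega)
    rw [hsplit', thw_append_f, thw_asc cs x L hasc, hpath, thw_desc cs x L hdesc, one_mul,
      cs.wordProd_append, ← mul_assoc, hpath]
  -- the path through the bottom
  have hdown : (thw cs x L (alt b a m)).f w =
      wd x (invSet cs w) L * (wd x (invSet cs v) L)⁻¹ := by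
    have hsplit' : alt b a m = alt b a k ++ alt (nxt b a k) (nxt a b k) (m - k) := by
      rw [← alt_add]
      congr 1
      omega
    have hv : w * cs.wordProd (alt b a k) = v := by
      rw [hb, ha, ← alt_reverse, cs.wordProd_reverse, hw, mul_inv_cancel_right]
    have hdesc : Desc cs w (alt b a k) := by
      rw [desc_iff, alt_length, hv]
      omega
    have hc : ∀ p q : B, (p = b ∧ q = a) ∨ (p = a ∧ q = b) →
        p ≠ q ∧ M p q = m ∧ ¬ cs.IsRightDescent v p ∧ ¬ cs.IsRightDescent v q := by
      rintro p q h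
      have h1 : (p = i ∧ q = j) ∨ (p = j ∧ q = i) := by
        rcases nxt_mem i j k with h2 | h2
        · rw [ha, hb, h2.1, h2.2] at h
          exact h.symm
        · rw [ha, hb, h2.1, h2.2] at h
          exact h
      refine ⟨(hM p q h1).2, (hM p q h1).1, ?_⟩
      rcases h1 with ⟨rfl, rfl⟩ | ⟨rfl, rfl⟩
      · exact ⟨hi, hj⟩
      · exact ⟨hj, hi⟩
    obtain ⟨hc1, hc2, hc3, hc4⟩ := hc _ _ (nxt_mem b a k)
    have hasc : Asc cs v (alt (nxt b a k) (nxt a b k) (m - k)) := by
      rw [asc_iff, alt_length]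
      exact length_mul_alt' cs hc1 hc3 hc4 (by omega)
    rw [hsplit', thw_append_f, thw_desc cs x L hdesc, hv, thw_asc cs x L hasc, mul_one]
  -- the polygon relation
  have hend : w * cs.wordProd (alt a b m) = w * cs.wordProd (alt i j m) := by
    rcases nxt_mem i j k with h | h
    · rw [ha, hb, h.1, h.2]
    · rw [ha, hb, h.1, h.2, hm, wordProd_alt]
  have hg : cs.wordProd (alt i j k) ∈ par cs i j := wordProd_alt_mem cs i j k
  have hpoly := wd_polygon (x := x) hnd hsplit hz hi hj
    (w := w) (w' := w * cs.wordProd (alt i j m)) (w₁ := w₁)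
    (C := invSet cs w ∩ planeSet cs v i j) Set.inter_subset_right
    (by
      ext t
      by_cases ht : t ∈ planeSet cs v i j
      · have h1 := plane_not_mem hi hj ht
        simp [ht, h1]
      · have h1 := invSet_mul_par hg ht
        rw [← hw] at h1
        simp [ht, h1])
    (by
      ext t
      by_cases ht : t ∈ planeSet cs v i j
      · have h1 := plane_not_mem hi hj ht
        have h2 := mem_invSet_long cs hij hg ht
        rw [← hw, ← hm] at h2
        simp [ht, h1, h2]
      · have h1 := invSet_mul_par (mul_mem hg (wordProd_alt_mem cs i j m)) ht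
        rw [← mul_assoc, ← hw] at h1
        simp [ht, h1])
    (by
      ext t
      by_cases ht : t ∈ planeSet cs v i j
      · have h1 := plane_not_mem hi hj ht
        have h2 := mem_invSet_long cs hij (one_mem (par cs i j)) ht
        rw [mul_one, ← hm, ← hw₁] at h2
        simp [ht, h1, h2]
      · have h1 := invSet_mul_par (wordProd_alt_mem cs i j m) ht
        rw [← hw₁] at h1
        simp [ht, h1])
  rw [hend] at hup
  have heq : (thw cs x L (alt a b m)).f w = (thw cs x L (alt b a m)).f w := by
    rw [hup, hdown, hpoly]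
  rcases nxt_mem i j k with h | h
  · rw [ha, hb, h.1, h.2] at heq
    exact heq
  · rw [ha, hb, h.1, h.2] at heq
    exact heq.symm

theorem thw_braid (hnd : L.Nodup)
    (hsplit : ∀ L₁ L₂, L = L₁ ++ L₂ → ∃ y : W, invSet cs y = {t | t ∈ L₂})
    (hz : ∀ w, wd x (invSet cs w) L * wd x (invSet cs w)ᶜ L = z) (i j : B) :
    thw cs x L (alt i j (M i j)) = thw cs x L (alt j i (M i j)) := by
  by_cases hij : i = j
  · subst hij
    rfl
  apply EG.ext
  · funext w
    obtain ⟨v, k, hk, hi, hj, hw | hw⟩ := coset_decomp cs hij w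
    · exact thw_braid_aux hnd hsplit hz hij hi hj hk hw
    · have := thw_braid_aux hnd hsplit hz (Ne.symm hij) hj hi (k := k) (by
        rw [M.symmetric]; exact hk) hw
      rw [M.symmetric j i] at this
      exact this.symm
  · rw [thw_u, thw_u, wordProd_alt]

/-- The homomorphism from the Artin group. -/
noncomputable def Theta (hnd : L.Nodup)
    (hsplit : ∀ L₁ L₂, L = L₁ ++ L₂ → ∃ y : W, invSet cs y = {t | t ∈ L₂})
    (hz : ∀ w, wd x (invSet cs w) L * wd x (invSet cs w)ᶜ L = z) : Artin M →* EG W G :=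
  PresentedGroup.toGroup (f := th cs x L) (by
    rintro r ⟨i, j, rfl⟩
    have h := thw_braid hnd hsplit hz i j
    unfold thw at h
    have h1 : ∀ ω : List B, FreeGroup.lift (th cs x L) ((ω.map FreeGroup.of).prod) =
        (ω.map (th cs x L)).prod := by
      intro ω
      rw [map_list_prod, List.map_map]
      congr 1
      exact List.map_congr_left fun a _ => by simp
    rw [map_mul, map_inv, mul_inv_eq_one, h1, h1, h])

theorem Theta_ag (hnd : L.Nodup)
    (hsplit : ∀ L₁ L₂, L = L₁ ++ L₂ → ∃ y : W, invSet cs y = {t | t ∈ L₂})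
    (hz : ∀ w, wd x (invSet cs w) L * wd x (invSet cs w)ᶜ L = z) (i : B) :
    Theta hnd hsplit hz (ag i) = th cs x L i := by
  exact PresentedGroup.toGroup.of _

theorem Theta_aw (hnd : L.Nodup)
    (hsplit : ∀ L₁ L₂, L = L₁ ++ L₂ → ∃ y : W, invSet cs y = {t | t ∈ L₂})
    (hz : ∀ w, wd x (invSet cs w) L * wd x (invSet cs w)ᶜ L = z) (ω : List B) :
    Theta hnd hsplit hz (aw ω) = thw cs x L ω := by
  induction ω with
  | nil => simp
  | cons i ω ih => rw [aw_cons, map_mul, ih, Theta_ag, thw_cons]

theorem Theta_u (hnd : L.Nodup)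
    (hsplit : ∀ L₁ L₂, L = L₁ ++ L₂ → ∃ y : W, invSet cs y = {t | t ∈ L₂})
    (hz : ∀ w, wd x (invSet cs w) L * wd x (invSet cs w)ᶜ L = z) (a : Artin M) :
    (Theta hnd hsplit hz a).u = aToW cs a := by
  let pr : EG W G →* W := { toFun := EG.u, map_one' := rfl, map_mul' := fun _ _ => rfl }
  have h : pr.comp (Theta hnd hsplit hz) = aToW cs := by
    apply PresentedGroup.ext
    intro i
    show (Theta hnd hsplit hz (ag i)).u = aToW cs (ag i)
    rw [Theta_ag, aToW_ag]
    rfl
  exact DFunLike.congr_fun h a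

/-- The homomorphism from the pure Artin group. -/
noncomputable def phi (hnd : L.Nodup)
    (hsplit : ∀ L₁ L₂, L = L₁ ++ L₂ → ∃ y : W, invSet cs y = {t | t ∈ L₂})
    (hz : ∀ w, wd x (invSet cs w) L * wd x (invSet cs w)ᶜ L = z) : (aToW cs).ker →* G where
  toFun a := (Theta hnd hsplit hz a).f 1
  map_one' := by
    show (Theta hnd hsplit hz 1).f 1 = 1
    rw [map_one]
    rfl
  map_mul' a b := by
    show (Theta hnd hsplit hz (a * b)).f 1 = _
    rw [map_mul, EG.mul_f, Theta_u, a.2, mul_one]

theorem phi_apply (hnd : L.Nodup)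
    (hsplit : ∀ L₁ L₂, L = L₁ ++ L₂ → ∃ y : W, invSet cs y = {t | t ∈ L₂})
    (hz : ∀ w, wd x (invSet cs w) L * wd x (invSet cs w)ᶜ L = z) (a : (aToW cs).ker) :
    phi hnd hsplit hz a = (Theta hnd hsplit hz a).f 1 := rfl

end Braid

/-! ### The value on the squares of the lifts -/

theorem exists_of_mem_crossings {v : W} {ω : List B} {t : Refl cs}
    (ht : t ∈ crossings cs v ω) :
    ∃ ω₁ i ω₂, ω = ω₁ ++ i :: ω₂ ∧ t = conjR cs (v * cs.wordProd ω₁) (simpleR cs i) := by
  induction ω generalizing v with
  | nil => simp [crossings] at ht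
  | cons i ω ih =>
    rw [crossings, List.mem_cons] at ht
    rcases ht with rfl | ht
    · exact ⟨[], i, ω, rfl, by simp⟩
    · obtain ⟨ω₁, j, ω₂, h1, h2⟩ := ih ht
      refine ⟨i :: ω₁, j, ω₂, by rw [h1]; rfl, ?_⟩
      rw [h2, cs.wordProd_cons, mul_assoc]

section Value

variable {cs}
variable {G : Type*} [Group G] {x : Refl cs → G} {z : G}

theorem wd_nil_of {S : Set (Refl cs)} {L : List (Refl cs)} (h : ∀ t ∈ L, t ∉ S) :
    wd x S L = 1 := by
  rw [wd_congr x (S' := ∅) (fun t ht => iff_of_false (h t ht) (Set.notMem_empty t)), wd_empty]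

theorem wd_wall {ω₁ ω₂ : List B} {i : B} (h : Asc cs 1 (ω₁ ++ i :: ω₂)) :
    wd x (invSet cs (cs.wordProd ω₁ * cs.simple i)) (crossings cs 1 (ω₁ ++ i :: ω₂)) =
      x (conjR cs (cs.wordProd ω₁) (simpleR cs i)) *
        wd x (invSet cs (cs.wordProd ω₁)) (crossings cs 1 (ω₁ ++ i :: ω₂)) := by
  have h0 := (asc_append cs _ _ _).1 h
  rw [one_mul] at h0
  have hnd := crossings_nodup cs h
  rw [crossings_append, one_mul, crossings] at hnd ⊢
  set t := conjR cs (cs.wordProd ω₁) (simpleR cs i) with ht
  set L₁ := crossings cs 1 ω₁ with hL₁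
  set L₂ := crossings cs (cs.wordProd ω₁ * cs.simple i) ω₂ with hL₂
  have h1 := invSet_path cs h0.1
  rw [one_mul, invSet_one, Set.empty_union, ← hL₁] at h1
  have h2 := invSet_mul_simple cs h0.2.1
  rw [← ht] at h2
  rw [List.nodup_append, List.nodup_cons] at hnd
  obtain ⟨hnd1, ⟨hnd2, hnd3⟩, hnd4⟩ := hnd
  have htL₁ : t ∉ L₁ := fun h => hnd4 t h t List.mem_cons_self rfl
  have hL₂' : ∀ u ∈ L₂, u ∉ L₁ := fun u hu h => hnd4 u h u (List.mem_cons_of_mem _ hu) rfl
  rw [h2, h1, wd_append, wd_append, wd_cons_mem _ _ (Set.mem_insert _ _),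
    wd_cons_not_mem _ _ (by exact htL₁)]
  have e1 : wd x (insert t {t | t ∈ L₁}) L₂ = 1 := wd_nil_of fun u hu h => by
    rcases h with h | h
    · rw [h] at hu
      exact hnd2 hu
    · exact hL₂' u hu h
  have e2 : wd x {t | t ∈ L₁} L₂ = 1 := wd_nil_of fun u hu h => hL₂' u hu h
  have e3 : wd x (insert t {t | t ∈ L₁}) L₁ = wd x {t | t ∈ L₁} L₁ := wd_congr _ fun u hu => by
    refine iff_of_true (Or.inr hu) hu
  rw [e1, e2, e3, one_mul, one_mul]

theorem Theta_lift {ω : List B} (h : Asc cs 1 ω)
    (hnd : (crossings cs 1 ω).Nodup)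
    (hsplit : ∀ L₁ L₂, crossings cs 1 ω = L₁ ++ L₂ → ∃ y : W, invSet cs y = {t | t ∈ L₂})
    (hz : ∀ w, wd x (invSet cs w) (crossings cs 1 ω) *
      wd x (invSet cs w)ᶜ (crossings cs 1 ω) = z)
    {lam : Refl cs → Artin M} (hl : IsLift cs lam 1 ω) {t : Refl cs}
    (ht : t ∈ crossings cs 1 ω) :
    (Theta hnd hsplit hz (lam t * lam t)).f 1 = x t := by
  obtain ⟨ω₁, i, ω₂, hω, ht'⟩ := exists_of_mem_crossings cs ht
  rw [one_mul] at ht'
  have h0 : Asc cs 1 (ω₁ ++ i :: ω₂) := hω ▸ h
  have h1 := (asc_append cs _ _ _).1 h0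
  rw [one_mul] at h1
  have hl' : IsLift cs lam 1 (ω₁ ++ i :: ω₂) := hω ▸ hl
  have hl1 := ((isLift_append cs).1 hl').2.1
  rw [one_mul, ← ht'] at hl1
  have hsg : sg cs (cs.wordProd ω₁) = aw ω₁ := sg_wordProd cs ((isReduced_iff_asc cs _).2 h1.1)
  rw [hsg] at hl1
  have e : lam t * lam t = aw ω₁ * (ag i * (ag i * (aw ω₁)⁻¹)) := by
    rw [hl1]
    group
  have hk1 : kap cs x (crossings cs 1 ω) i (cs.wordProd ω₁) = 1 := if_neg h1.2.1
  have hd : cs.IsRightDescent (cs.wordProd ω₁ * cs.simple i) i := by
    rw [cs.isRightDescent_iff_not_isRightDescent_mul, cs.simple_mul_simple_cancel_right]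
    exact h1.2.1
  have hk2 : kap cs x (crossings cs 1 ω) i (cs.wordProd ω₁ * cs.simple i) = x t := by
    rw [kap, if_pos hd, cs.simple_mul_simple_cancel_right]
    have h3 := wd_wall (x := x) h0
    rw [← hω] at h3
    rw [h3, ← ht', mul_inv_cancel_right]
  rw [e, map_mul, map_mul, map_mul, map_inv, Theta_ag, Theta_aw]
  simp only [EG.mul_f, EG.inv_f, thw_u, EG.mul_u, one_mul]
  have e1 : (thw cs x (crossings cs 1 ω) ω₁).f 1 = 1 := thw_asc cs _ _ h1.1
  have e2 : (th cs x (crossings cs 1 ω) i).u = cs.simple i := rfl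
  have e3 : ∀ w, (th cs x (crossings cs 1 ω) i).f w = kap cs x (crossings cs 1 ω) i w :=
    fun _ => rfl
  rw [e1, e3, e3, e2, hk1, hk2, cs.simple_mul_simple_cancel_right, mul_inv_cancel, e1]
  simp

end Value

/-! ### Generation of the pure Artin group -/

section Generation

variable {cs}

theorem sg_sq_mem {w₀ : W} (hw₀ : IsTop cs w₀) {lam : Refl cs → Artin M} {ω : List B}
    (h : Asc cs 1 ω) (hl : IsLift cs lam 1 ω) (hω : cs.wordProd ω = w₀) (w : W) :
    sg cs w * sg cs w⁻¹ ∈ Subgroup.closure (Set.range fun t => lam t * lam t) := by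
  rw [← hw₀.wd_invSet h hl hω]
  generalize crossings cs 1 ω = L
  induction L with
  | nil => exact one_mem _
  | cons t L ih =>
    by_cases ht : t ∈ invSet cs w
    · rw [wd_cons_mem _ _ ht]
      exact mul_mem ih (Subgroup.subset_closure ⟨t, rfl⟩)
    · rw [wd_cons_not_mem _ _ ht]
      exact ih

theorem conj_sq_mem {w₀ : W} (hw₀ : IsTop cs w₀) {lam : Refl cs → Artin M} {ω : List B}
    (h : Asc cs 1 ω) (hl : IsLift cs lam 1 ω) (hω : cs.wordProd ω = w₀) {w : W} {i : B}
    (hi : ¬ cs.IsRightDescent w i) :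
    sg cs w * (ag i * ag i) * (sg cs w)⁻¹ ∈
      Subgroup.closure (Set.range fun t => lam t * lam t) := by
  have h1 := sg_sq_mem hw₀ h hl hω (w * cs.simple i)
  have h2 := sg_sq_mem hw₀ h hl hω w
  rw [sg_mul_simple cs hi, mul_inv_rev, cs.inv_simple, sg_simple_mul cs (by
    rw [cs.isLeftDescent_inv_iff]
    exact hi)] at h1
  have h3 := mul_mem h1 (inv_mem h2)
  convert h3 using 1
  group

theorem mem_closure_mul_sg {w₀ : W} (hw₀ : IsTop cs w₀) {lam : Refl cs → Artin M} {ω : List B}
    (h : Asc cs 1 ω) (hl : IsLift cs lam 1 ω) (hω : cs.wordProd ω = w₀) (a : Artin M) :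
    a * (sg cs (aToW cs a))⁻¹ ∈ Subgroup.closure (Set.range fun t => lam t * lam t) := by
  have htop : Subgroup.closure (Set.range (PresentedGroup.of : B → Artin M)) = ⊤ :=
    PresentedGroup.closure_range_of _
  have ha : a ∈ Subgroup.closure (Set.range (PresentedGroup.of : B → Artin M)) := by
    rw [htop]
    exact Subgroup.mem_top a
  induction ha using Subgroup.closure_induction_right with
  | one => simp
  | mul_right a _ b hb ih =>
    obtain ⟨i, rfl⟩ := hb
    change a * ag i * (sg cs (aToW cs (a * ag i)))⁻¹ ∈ _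
    rw [map_mul, aToW_ag]
    by_cases hi : cs.IsRightDescent (aToW cs a) i
    · have hi' := cs.isRightDescent_iff_not_isRightDescent_mul.1 hi
      have h1 := conj_sq_mem hw₀ h hl hω hi'
      have h2 := sg_mul_simple cs hi'
      rw [cs.simple_mul_simple_cancel_right] at h2
      have h3 := mul_mem ih h1
      convert h3 using 1
      rw [h2]
      group
    · rw [sg_mul_simple cs hi]
      convert ih using 1
      group
  | mul_inv_cancel a _ b hb ih =>
    obtain ⟨i, rfl⟩ := hb
    change a * (ag i)⁻¹ * (sg cs (aToW cs (a * (ag i)⁻¹)))⁻¹ ∈ _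
    rw [map_mul, map_inv, aToW_ag, cs.inv_simple]
    by_cases hi : cs.IsRightDescent (aToW cs a) i
    · have hi' := cs.isRightDescent_iff_not_isRightDescent_mul.1 hi
      have h2 := sg_mul_simple cs hi'
      rw [cs.simple_mul_simple_cancel_right] at h2
      convert ih using 1
      rw [h2]
      group
    · have h1 := conj_sq_mem hw₀ h hl hω hi
      have h3 := mul_mem ih (inv_mem h1)
      rw [sg_mul_simple cs hi]
      convert h3 using 1
      group

end Generation

end Pool.Agent.Lib.MP_185a46_al
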