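import Pool.Agent.Lib.MP_185a46_al.Adapted

/-!
# The lifts of the reflections attached to a list
-/

set_option autoImplicit false
set_option linter.unusedSectionVars false

open CoxeterSystem

namespace Pool.Agent.Lib.MP_185a46_al

variable {B W : Type*} [Group W] {M : CoxeterMatrix B} {cs : CoxeterSystem M W}
  [DecidableEq B] [Fintype B] [Finite W]

/-- A vector supported in `J` with nonnegative coordinates stays nonnegative. -/
theorem nonneg_of_supp {J : List B} {q : W} (hq : ∀ j ∈ J, ¬ cs.IsLeftDescent q j) {x : B → ℝ}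
    (hx : 0 ≤ x) (hs : Supp J x) : 0 ≤ rho cs q⁻¹ x := by
  refine rho_nonneg_of cs hx fun i hi => ?_
  rw [cs.isRightDescent_inv_iff]
  apply hq
  by_contra h
  exact hi (hs i h)

theorem nonpos_of_supp {J : List B} {q : W} (hq : ∀ j ∈ J, ¬ cs.IsLeftDescent q j) {x : B → ℝ}
    (hx : x ≤ 0) (hs : Supp J x) : rho cs q⁻¹ x ≤ 0 := by
  have h := nonneg_of_supp hq (neg_nonneg.2 hx) (fun a ha => by
    rw [Pi.neg_apply, hs a ha, neg_zero])
  rw [map_neg] at h
  exact neg_nonneg.1 h

/-- Parabolic decomposition, compatible with the positive lifts. -/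
theorem exists_decomp (J : List B) (p : W) :
    ∃ g q : W, p = g * q ∧ WS cs J g ∧ sg cs p = sg cs g * sg cs q ∧
      ∀ j ∈ J, ¬ cs.IsLeftDescent q j := by
  induction hn : cs.length p using Nat.strong_induction_on generalizing p with
  | _ n ih =>
    by_cases h : ∃ j ∈ J, cs.IsLeftDescent p j
    · obtain ⟨j, hj, hd⟩ := h
      have h1 := cs.isLeftDescent_iff.1 hd
      obtain ⟨g, q, h2, h3, h4, h5⟩ := ih _ (by omega) (cs.simple j * p) rfl
      have hp : p = cs.simple j * (cs.simple j * p) := by
        rw [cs.simple_mul_simple_cancel_left]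
      have hd' : ¬ cs.IsLeftDescent (cs.simple j * p) j :=
        cs.isLeftDescent_iff_not_isLeftDescent_mul.1 hd
      have hg : ¬ cs.IsLeftDescent g j := by
        intro hg
        apply hd'
        rw [← cs.isRightDescent_inv_iff, ← nonpos_iff] at hg
        rw [← cs.isRightDescent_inv_iff, ← nonpos_iff, h2, mul_inv_rev, rho_mul]
        refine nonpos_of_supp h5 hg (h3.inv.supp fun k hk => ?_)
        have : k ≠ j := fun h => hk (h ▸ hj)
        simp [sr, this]
      refine ⟨cs.simple j * g, q, by rw [hp, h2, mul_assoc], (WS.simple hj).mul h3, ?_, h5⟩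
      rw [hp, sg_simple_mul cs hd', h4, sg_simple_mul cs hg, mul_assoc]
    · push Not at h
      exact ⟨1, p, by rw [one_mul], WS.one J, by rw [sg_one, one_mul], h⟩

/-- Restriction of a wall to a parabolic subgroup. -/
theorem restrict {J : List B} {p : W} {i : B} {t : Refl cs} (ht : t = conjR cs p (simpleR cs i))
    (hi : ¬ cs.IsRightDescent p i) (hs : Supp J (root cs t)) :
    ∃ g j, j ∈ J ∧ WS cs J g ∧ ¬ cs.IsRightDescent g j ∧ t = conjR cs g (simpleR cs j) ∧
      sg cs p * ag i * (sg cs p)⁻¹ = sg cs g * ag j * (sg cs g)⁻¹ ∧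
      ∀ u : Refl cs, Supp J (root cs u) → (u ∈ invSet cs p ↔ u ∈ invSet cs g) := by
  obtain ⟨g, q, hp, hg, hsg, hq⟩ := exists_decomp (cs := cs) J p
  have hroot : root cs t = rho cs p (sr i) := by rw [ht, root_wall cs hi]
  set y := rho cs q (sr i) with hy
  have hy1 : rho cs g⁻¹ (root cs t) = y := by
    rw [hroot, hp, rho_mul, rho_inv_self]
  have hys : Supp J y := by
    rw [← hy1]
    exact hg.inv.supp hs
  have hqy : rho cs q⁻¹ y = sr i := by rw [hy, rho_inv_self]
  have hy0 : 0 ≤ y := by
    rcases nonneg_or_nonpos cs q i with h | h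
    · exact h
    · exfalso
      have h1 := nonpos_of_supp hq h hys
      rw [hqy] at h1
      exact sr_ne_zero i (le_antisymm h1 (sr_nonneg i))
  obtain ⟨j, hj⟩ : ∃ j, y j ≠ 0 := by
    by_contra hcon
    push Not at hcon
    have h1 : y = 0 := funext hcon
    rw [h1, map_zero] at hqy
    exact sr_ne_zero i hqy.symm
  have hjJ : j ∈ J := by
    by_contra h
    exact hj (hys j h)
  have hjpos : 0 < y j := lt_of_le_of_ne (hy0 j) (Ne.symm hj)
  have hsj : ∀ j ∈ J, Supp J (sr j) := fun j hj k hk => by
    have : k ≠ j := fun h => hk (h ▸ hj)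
    simp [sr, this]
  have hyj : y = sr j := by
    have h1 : ∀ m, m ≠ i → rho cs q⁻¹ (sr j) m = 0 := by
      intro m hm
      have h2 := congrFun hqy m
      rw [rho_eq_sum, Finset.sum_apply] at h2
      have h3 : (sr i : B → ℝ) m = 0 := by simp [sr, hm]
      rw [h3] at h2
      have h4 : ∀ k ∈ Finset.univ, 0 ≤ (y k • rho cs q⁻¹ (sr k)) m := by
        intro k _
        by_cases hk : k ∈ J
        · exact mul_nonneg (hy0 k) (nonneg_of_supp hq (sr_nonneg k) (hsj k hk) m)
        · rw [hys k hk, zero_smul]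
          exact le_refl _
      have h5 := (Finset.sum_eq_zero_iff_of_nonneg h4).1 h2 j (Finset.mem_univ j)
      rw [Pi.smul_apply, smul_eq_mul] at h5
      exact (mul_eq_zero.1 h5).resolve_left hj
    have h2 : rho cs q⁻¹ (sr j) = rho cs q⁻¹ (sr j) i • sr i := by
      funext m
      by_cases hm : m = i
      · subst hm
        simp [sr]
      · rw [h1 m hm]
        simp [sr, hm]
    have h3 : (0 : ℝ) ≤ rho cs q⁻¹ (sr j) i := nonneg_of_supp hq (sr_nonneg j) (hsj j hjJ) i
    have h4 : bf M (rho cs q⁻¹ (sr j)) (rho cs q⁻¹ (sr j)) = 1 := by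
      rw [bf_rho, bf_sr_self]
    rw [h2, map_smul, map_smul, LinearMap.smul_apply, bf_sr_self, smul_eq_mul, smul_eq_mul,
      mul_one] at h4
    have h5 : rho cs q⁻¹ (sr j) i = 1 := by nlinarith
    rw [h5, one_smul] at h2
    rw [hy, ← h2, rho_self_inv]
  have hqs : conjR cs q (simpleR cs i) = simpleR cs j := by
    apply root_injective cs
    rw [root_conjR cs (by rw [root_simpleR, ← hy]; exact hy0), root_simpleR, root_simpleR, ← hy,
      hyj]
  have hqs' : q * cs.simple i = cs.simple j * q := by
    have h1 := congrArg Subtype.val hqs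
    rw [conjR_val, simpleR_val, simpleR_val] at h1
    rw [← h1, inv_mul_cancel_right]
  refine ⟨g, j, hjJ, hg, ?_, ?_, ?_, ?_⟩
  · rw [← nonneg_iff, ← hyj, hy, ← rho_mul, ← hp, nonneg_iff]
    exact hi
  · rw [ht, hp, ← conjR_conjR, hqs]
  · have h1 := sg_comm cs hqs'
    rw [hsg, mul_inv_rev, mul_assoc (sg cs g), h1]
    group
  · intro u hu
    rw [mem_invSet, mem_invSet, hp, mul_inv_rev, rho_mul]
    have hz : Supp J (rho cs g⁻¹ (root cs u)) := hg.inv.supp hu
    rcases root_sign cs g⁻¹ u with h | h
    · refine iff_of_false ?_ ?_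
      · intro h1
        have h2 := nonneg_of_supp hq h hz
        have h3 := le_antisymm h1 h2
        rw [← rho_mul] at h3
        exact rho_root_ne_zero cs _ u h3
      · intro h1
        exact rho_root_ne_zero cs _ u (le_antisymm h1 h)
    · exact iff_of_true (nonpos_of_supp hq h hz) h

variable (cs) in
/-- `a` is a lift of the reflection `t` attached to the list `l`. -/
def Lf (l : List B) (t : Refl cs) (a : Artin M) : Prop :=
  ∃ p i, ¬ cs.IsRightDescent p i ∧ t = conjR cs p (simpleR cs i) ∧ KK cs l p ∧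
    KK cs l (p * cs.simple i) ∧ a = sg cs p * ag i * (sg cs p)⁻¹

theorem KK.congr_inv {J l : List B} {p g : W} (hJ : Sub J l) (h : KK cs l p)
    (hinv : ∀ u : Refl cs, Supp J (root cs u) → (u ∈ invSet cs p ↔ u ∈ invSet cs g)) :
    KK cs J g := by
  intro u t hu ht huq htq
  rw [om_congr hJ.2 hu ht]
  exact h u t (hu.mono hJ.1) (ht.mono hJ.1) ((hinv u hu).2 huq) fun h1 => htq ((hinv t ht).1 h1)

theorem restrict_kk {J l : List B} (hJ : Sub J l) {p : W} {i : B} {t : Refl cs}
    (ht : t = conjR cs p (simpleR cs i)) (hi : ¬ cs.IsRightDescent p i)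
    (hs : Supp J (root cs t)) (h1 : KK cs l p) (h2 : KK cs l (p * cs.simple i)) :
    ∃ g j, ¬ cs.IsRightDescent g j ∧ t = conjR cs g (simpleR cs j) ∧ KK cs J g ∧
      KK cs J (g * cs.simple j) ∧
      sg cs p * ag i * (sg cs p)⁻¹ = sg cs g * ag j * (sg cs g)⁻¹ := by
  obtain ⟨g, j, hj, hg, hgj, htg, hl, hinv⟩ := restrict ht hi hs
  refine ⟨g, j, hgj, htg, h1.congr_inv hJ hinv, h2.congr_inv hJ fun u hu => ?_, hl⟩
  rw [invSet_mul_simple cs hi, invSet_mul_simple cs hgj, ← ht, ← htg, Set.mem_insert_iff,
    Set.mem_insert_iff, hinv u hu]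

theorem Lf.restrict {J l : List B} (hJ : Sub J l) {t : Refl cs} {a : Artin M}
    (hs : Supp J (root cs t)) (h : Lf cs l t a) : Lf cs J t a := by
  obtain ⟨p, i, hi, ht, h1, h2, rfl⟩ := h
  obtain ⟨g, j, h3, h4, h5, h6, h7⟩ := restrict_kk hJ ht hi hs h1 h2
  exact ⟨g, j, h3, h4, h5, h6, h7⟩

theorem lift_simple {p : W} {i s : B} (h : simpleR cs s = conjR cs p (simpleR cs i)) :
    sg cs p * ag i * (sg cs p)⁻¹ = ag s := by
  have h1 := congrArg Subtype.val h
  rw [conjR_val, simpleR_val, simpleR_val] at h1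
  have h2 : p * cs.simple i = cs.simple s * p := by
    rw [h1, inv_mul_cancel_right]
  rw [sg_comm cs h2, mul_inv_cancel_right]

theorem Lf.simple {l : List B} {s : B} {a : Artin M} (h : Lf cs l (simpleR cs s) a) :
    a = ag s := by
  obtain ⟨p, i, hi, ht, h1, h2, rfl⟩ := h
  exact lift_simple ht

/-- Moving down along a step. -/
theorem step_down {l l' : List B} {s : B} (h : Step M l s l') (hl : l.Nodup) {q : W} {i : B}
    {t : Refl cs} (hq : ¬ cs.IsLeftDescent q s) (ht : t = conjR cs (cs.simple s * q) (simpleR cs i))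
    (hi : ¬ cs.IsRightDescent (cs.simple s * q) i) (hts : t ≠ simpleR cs s)
    (h1 : KK cs l (cs.simple s * q)) (h2 : KK cs l (cs.simple s * q * cs.simple i)) :
    ¬ cs.IsRightDescent q i ∧ conjR cs (cs.simple s) t = conjR cs q (simpleR cs i) ∧
      KK cs l' q ∧ KK cs l' (q * cs.simple i) ∧
      sg cs (cs.simple s * q) * ag i * (sg cs (cs.simple s * q))⁻¹ =
        ag s * (sg cs q * ag i * (sg cs q)⁻¹) * (ag s)⁻¹ := by
  have hqi : ¬ cs.IsRightDescent q i := by
    rw [← nonneg_iff]
    have h3 : rho cs q (sr i) = rho cs (cs.simple s) (root cs t) := by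
      rw [ht, root_wall cs hi, ← rho_mul, cs.simple_mul_simple_cancel_left]
    rw [h3]
    exact simple_nonneg cs hts
  have hc : conjR cs (cs.simple s) t = conjR cs q (simpleR cs i) := by
    rw [ht, conjR_conjR, cs.simple_mul_simple_cancel_left]
  refine ⟨hqi, hc, (h.kk_iff hl hq).1 h1, ?_, ?_⟩
  · rw [mul_assoc] at h2
    refine (h.kk_iff hl ?_).1 h2
    rw [← simpleR_mem_invSet, invSet_mul_simple cs hqi, Set.mem_insert_iff, not_or]
    refine ⟨?_, ?_⟩
    · rw [← hc]
      exact fun h => conj_simple_ne hts h.symm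
    · rw [simpleR_mem_invSet]
      exact hq
  · rw [sg_simple_mul cs hq]
    group

/-- Uniqueness of the lifts. -/
theorem lift_unique : ∀ (n : ℕ) (l : List B), l.length = n → l.Nodup → ∀ (k : ℕ) (t : Refl cs)
    (p p' : W) (i i' : B), Supp l (root cs t) → cs.length p = k → ¬ cs.IsRightDescent p i →
    t = conjR cs p (simpleR cs i) → KK cs l p → KK cs l (p * cs.simple i) →
    ¬ cs.IsRightDescent p' i' → t = conjR cs p' (simpleR cs i') → KK cs l p' →
    KK cs l (p' * cs.simple i') →
    sg cs p * ag i * (sg cs p)⁻¹ = sg cs p' * ag i' * (sg cs p')⁻¹ := by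
  intro n
  induction n using Nat.strong_induction_on with
  | _ n ihn =>
    have main : ∀ (k : ℕ) (l : List B), l.length = n → l.Nodup → ∀ (t : Refl cs)
        (p p' : W) (i i' : B), Supp l (root cs t) → cs.length p = k → ¬ cs.IsRightDescent p i →
        t = conjR cs p (simpleR cs i) → KK cs l p → KK cs l (p * cs.simple i) →
        ¬ cs.IsRightDescent p' i' → t = conjR cs p' (simpleR cs i') → KK cs l p' →
        KK cs l (p' * cs.simple i') →
        sg cs p * ag i * (sg cs p)⁻¹ = sg cs p' * ag i' * (sg cs p')⁻¹ := by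
      intro k
      induction k using Nat.strong_induction_on with
      | _ k ihk =>
        intro l hn hl t p p' i i' hs hk hi ht h1 h2 hi' ht' h1' h2'
        by_cases hcase : ∃ a ∈ l, root cs t a = 0
        · -- restrict to a smaller list
          obtain ⟨a, ha, hta⟩ := hcase
          set J := l.filter (fun b => decide (b ≠ a)) with hJ
          have hJs : Sub J l := sub_filter _ hl
          have hJn : J.Nodup := hl.filter _
          have hJl : J.length < n := by
            rw [← hn, hJ]
            exact List.length_filter_lt_length_iff_exists.2 ⟨a, ha, by simp⟩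
          have hsJ : Supp J (root cs t) := by
            intro b hb
            by_cases hba : b = a
            · rw [hba]
              exact hta
            · apply hs b
              intro hbl
              apply hb
              rw [hJ, List.mem_filter]
              exact ⟨hbl, by simpa using hba⟩
          obtain ⟨g, j, e1, e2, e3, e4, e5⟩ := restrict_kk hJs ht hi hsJ h1 h2
          obtain ⟨g', j', e1', e2', e3', e4', e5'⟩ := restrict_kk hJs ht' hi' hsJ h1' h2'
          rw [e5, e5']
          exact ihn _ hJl J rfl hJn _ t g g' j j' hsJ rfl e1 e2 e3 e4 e1' e2' e3' e4'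
        · push Not at hcase
          rcases l with _ | ⟨s, l₁⟩
          · exfalso
            apply root_ne_zero cs t
            funext a
            exact hs a (by simp)
          by_cases hts : t = simpleR cs s
          · rw [hts] at ht ht'
            rw [lift_simple ht, lift_simple ht']
          -- the first letter is an inversion
          have hstep : Step M (s :: l₁) s (l₁ ++ [s]) :=
            ⟨[], l₁, rfl, rfl, fun a ha => by simp at ha⟩
          have key : ∀ (r : W) (m : B), ¬ cs.IsRightDescent r m →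
              t = conjR cs r (simpleR cs m) → KK cs (s :: l₁) (r * cs.simple m) →
              cs.IsLeftDescent r s := by
            intro r m hm htr hK
            by_contra hcon
            rw [← simpleR_mem_invSet] at hcon
            have h3 : simpleR cs s ∉ invSet cs (r * cs.simple m) := by
              rw [invSet_mul_simple cs hm, Set.mem_insert_iff, not_or, ← htr]
              exact ⟨fun h => hts h.symm, hcon⟩
            have h4 : t ∈ invSet cs (r * cs.simple m) := by
              rw [invSet_mul_simple cs hm, Set.mem_insert_iff, ← htr]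
              left; rfl
            have h5 := hK t (simpleR cs s) hs (by
              rw [root_simpleR]
              intro k hk
              have : k ≠ s := fun h => hk (h ▸ List.mem_cons_self)
              simp [sr, this]) h4 h3
            rw [root_simpleR, om_anti, om_source hl List.mem_cons_self (hstep.source hl) hs] at h5
            have h6 := bf_sr_le (M := M) (s := s) (root_nonneg cs t)
            have h7 : bf M (sr s) (root cs t) = root cs t s := by linarith
            -- so the reflected vector has coordinate `-root t s`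
            have h8 := simple_nonneg cs hts s
            rw [rho_simple, rfl'_apply, h7] at h8
            simp only [Pi.zero_apply, Pi.sub_apply, Pi.smul_apply, smul_eq_mul, sr,
              Pi.single_eq_same, mul_one] at h8
            have h9 := root_nonneg cs t s
            have h10 : root cs t s ≠ 0 := hcase s List.mem_cons_self
            have h11 : (0 : ℝ) ≤ root cs t s := h9
            apply h10
            linarith
          have hd := key p i hi ht h2
          have hd' := key p' i' hi' ht' h2'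
          have hq := cs.isLeftDescent_iff_not_isLeftDescent_mul.1 hd
          have hq' := cs.isLeftDescent_iff_not_isLeftDescent_mul.1 hd'
          have hlen := cs.isLeftDescent_iff.1 hd
          obtain ⟨q, hpq⟩ : ∃ q, q = cs.simple s * p := ⟨_, rfl⟩
          obtain ⟨q', hpq'⟩ : ∃ q', q' = cs.simple s * p' := ⟨_, rfl⟩
          have hp : p = cs.simple s * q := by rw [hpq, cs.simple_mul_simple_cancel_left]
          have hp' : p' = cs.simple s * q' := by rw [hpq', cs.simple_mul_simple_cancel_left]
          rw [← hpq] at hq hlen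
          rw [← hpq'] at hq'
          rw [hp] at hi ht h1 h2
          rw [hp'] at hi' ht' h1' h2'
          obtain ⟨e1, e2, e3, e4, e5⟩ := step_down hstep hl hq ht hi hts h1 h2
          obtain ⟨e1', e2', e3', e4', e5'⟩ := step_down hstep hl hq' ht' hi' hts h1' h2'
          rw [hp, hp', e5, e5']
          have hsl : Supp (l₁ ++ [s]) (root cs (conjR cs (cs.simple s) t)) := by
            rw [root_conj_simple hts]
            exact ((WS.simple List.mem_cons_self).supp hs).mono fun a ha => (hstep.mem a).2 ha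
          rw [ihk (cs.length q) (by omega) (l₁ ++ [s]) (by rw [hstep.length, hn])
            (hstep.nodup hl) _ q q' i i' hsl rfl e1 e2 e3 e4 e1' e2' e3' e4']
    exact fun l hn hl k => main k l hn hl

theorem Lf.unique {l : List B} (hl : l.Nodup) {t : Refl cs} (hs : Supp l (root cs t))
    {a b : Artin M} (ha : Lf cs l t a) (hb : Lf cs l t b) : a = b := by
  obtain ⟨p, i, hi, ht, h1, h2, rfl⟩ := ha
  obtain ⟨p', i', hi', ht', h1', h2', rfl⟩ := hb
  exact lift_unique _ l rfl hl _ t p p' i i' hs rfl hi ht h1 h2 hi' ht' h1' h2'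

/-- A position on a path gives a lift. -/
theorem lf_of_path {l l' ω₁ ω₂ : List B} {i : B} (hl : l.Nodup)
    (h : FirePath M l (ω₁ ++ i :: ω₂) l') (ha : Asc cs 1 (ω₁ ++ i :: ω₂)) :
    ¬ cs.IsRightDescent (cs.wordProd ω₁) i ∧ KK cs l (cs.wordProd ω₁) ∧
      KK cs l (cs.wordProd ω₁ * cs.simple i) := by
  have h0 := (asc_append cs _ _ _).1 ha
  rw [one_mul] at h0
  obtain ⟨l₁, hp1, hp2⟩ := firePath_append.1 h
  have hp3 : FirePath M l ((ω₁ ++ [i]) ++ ω₂) l' := by
    rw [List.append_assoc]
    exact h
  obtain ⟨l₂, hp4, _⟩ := firePath_append.1 hp3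
  have ha' : Asc cs 1 (ω₁ ++ [i]) := by
    rw [asc_append, one_mul]
    exact ⟨h0.1, h0.2.1, trivial⟩
  refine ⟨h0.2.1, KK.path hl hp1 h0.1, ?_⟩
  have h2 := KK.path hl hp4 ha'
  rwa [cs.wordProd_append, cs.wordProd_singleton] at h2

theorem exists_lf {l : List B} (hl : l.Nodup) {t : Refl cs} (hs : Supp l (root cs t)) :
    ∃ a, Lf cs l t a := by
  obtain ⟨ω, l'', h1, h2, h3⟩ := exists_full (cs := cs) hl (ω := []) (l' := l) rfl trivial
  rw [List.nil_append] at h1 h2 h3
  have h4 := mem_crossings_full h1 h2 h3 hs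
  obtain ⟨ω₁, i, ω₂, rfl, ht⟩ := exists_of_mem_crossings cs h4
  rw [one_mul] at ht
  obtain ⟨h5, h6, h7⟩ := lf_of_path hl h1 h2
  exact ⟨_, _, _, h5, ht, h6, h7, rfl⟩

theorem exists_path_to {l : List B} (hl : l.Nodup) {t : Refl cs} (hs : Supp l (root cs t)) :
    ∃ ω i l' l'', FirePath M l ω l' ∧ Step M l' i l'' ∧ Asc cs 1 (ω ++ [i]) ∧
      t = conjR cs (cs.wordProd ω) (simpleR cs i) := by
  obtain ⟨ω, l'', h1, h2, h3⟩ := exists_full (cs := cs) hl (ω := []) (l' := l) rfl trivial
  rw [List.nil_append] at h1 h2 h3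
  have h4 := mem_crossings_full h1 h2 h3 hs
  obtain ⟨ω₁, i, ω₂, rfl, ht⟩ := exists_of_mem_crossings cs h4
  rw [one_mul] at ht
  obtain ⟨l₁, hp1, hp2⟩ := firePath_append.1 h1
  obtain ⟨l₂, hp3, hp4⟩ := hp2
  have h0 := (asc_append cs _ _ _).1 h2
  refine ⟨ω₁, i, l₁, l₂, hp1, hp3, ?_, ht⟩
  rw [asc_append]
  exact ⟨h0.1, h0.2.1, trivial⟩

theorem exists_first_lf {l l₁ : List B} (hl : l.Nodup) {s : B} (hst : Step M l s l₁)
    {t : Refl cs} (hs : Supp l (root cs t)) (hts : t ≠ simpleR cs s) :
    ∃ q i, ¬ cs.IsLeftDescent q s ∧ ¬ cs.IsRightDescent (cs.simple s * q) i ∧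
      t = conjR cs (cs.simple s * q) (simpleR cs i) ∧ KK cs l (cs.simple s * q) ∧
      KK cs l (cs.simple s * q * cs.simple i) := by
  obtain ⟨ω, l'', h1, h2, h3⟩ := exists_full (cs := cs) hl (ω := [s]) (l' := l₁) ⟨l₁, hst, rfl⟩
    ⟨by
      rw [cs.not_isRightDescent_iff, one_mul, cs.length_simple, cs.length_one], trivial⟩
  have h4 := mem_crossings_full h1 h2 h3 hs
  obtain ⟨ω₁, i, ω₂, hω, ht⟩ := exists_of_mem_crossings cs h4
  rw [one_mul] at ht
  rw [hω] at h1 h2
  obtain ⟨h5, h6, h7⟩ := lf_of_path hl h1 h2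
  rcases ω₁ with _ | ⟨s', ω₁⟩
  · exfalso
    rw [List.nil_append, List.singleton_append, List.cons.injEq] at hω
    apply hts
    rw [ht, ← hω.1, cs.wordProd_nil, conjR_one]
  · rw [List.cons_append, List.cons_append, List.cons.injEq] at hω
    obtain ⟨rfl, _⟩ := hω
    rw [cs.wordProd_cons] at h5 h6 h7 ht
    have h8 := (asc_append cs _ _ _).1 h2
    exact ⟨_, i, (asc_tail h8.1).2, h5, ht, h6, h7⟩

open Classical in
variable (cs) in
/-- The lift of the reflection `t` attached to the list `l`. -/
noncomputable def lam (l : List B) (t : Refl cs) : Artin M :=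
  if h : ∃ a, Lf cs l t a then h.choose else 1

theorem lf_lam {l : List B} (hl : l.Nodup) {t : Refl cs} (hs : Supp l (root cs t)) :
    Lf cs l t (lam cs l t) := by
  unfold lam
  rw [dif_pos (exists_lf hl hs)]
  exact (exists_lf hl hs).choose_spec

theorem lam_eq {l : List B} (hl : l.Nodup) {t : Refl cs} (hs : Supp l (root cs t))
    {a : Artin M} (h : Lf cs l t a) : lam cs l t = a :=
  (lf_lam hl hs).unique hl hs h

theorem supp_simple {l : List B} {s : B} (hs : s ∈ l) : Supp l (root cs (simpleR cs s)) := by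
  rw [root_simpleR]
  intro k hk
  have : k ≠ s := fun h => hk (h ▸ hs)
  simp [sr, this]

theorem lam_simple {l : List B} (hl : l.Nodup) {s : B} (hs : s ∈ l) :
    lam cs l (simpleR cs s) = ag s :=
  (lf_lam hl (supp_simple hs)).simple

theorem lam_sub {J l : List B} (hJ : Sub J l) (hl : l.Nodup) (hJn : J.Nodup) {t : Refl cs}
    (hs : Supp J (root cs t)) : lam cs l t = lam cs J t :=
  (lam_eq hJn hs ((lf_lam hl (hs.mono hJ.1)).restrict hJ hs)).symm

theorem lam_step {l l' : List B} {s : B} (h : Step M l s l') (hl : l.Nodup) {t : Refl cs}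
    (hs : Supp l (root cs t)) :
    lam cs l t = ag s * lam cs l' (conjR cs (cs.simple s) t) * (ag s)⁻¹ := by
  by_cases hts : t = simpleR cs s
  · rw [hts, conj_simple_self, lam_simple hl h.self_mem,
      lam_simple (h.nodup hl) ((h.mem s).2 h.self_mem), mul_inv_cancel_right]
  · obtain ⟨q, i, h1, h2, h3, h4, h5⟩ := exists_first_lf hl h hs hts
    obtain ⟨e1, e2, e3, e4, e5⟩ := step_down h hl h1 h3 h2 hts h4 h5
    have hs' : Supp l' (root cs (conjR cs (cs.simple s) t)) := by
      rw [root_conj_simple hts]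
      exact ((WS.simple h.self_mem).supp hs).mono fun a ha => (h.mem a).2 ha
    rw [lam_eq hl hs ⟨_, _, h2, h3, h4, h5, rfl⟩,
      lam_eq (h.nodup hl) hs' ⟨_, _, e1, e2, e3, e4, rfl⟩, e5]

theorem supp_conj {l : List B} {g : W} (hg : WS cs l g) {t : Refl cs}
    (hs : Supp l (root cs t)) : Supp l (root cs (conjR cs g t)) := by
  rcases root_sign cs g t with h | h
  · rw [root_conjR cs h]
    exact hg.supp hs
  · rw [root_conjR_neg cs h]
    intro a ha
    rw [Pi.neg_apply, hg.supp hs a ha, neg_zero]

theorem lam_path {l l' ω : List B} (h : FirePath M l ω l') (hl : l.Nodup) {t : Refl cs}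
    (hs : Supp l (root cs t)) :
    lam cs l t = aw ω * lam cs l' (conjR cs (cs.wordProd ω)⁻¹ t) * (aw ω)⁻¹ := by
  induction ω generalizing l t with
  | nil =>
    have : l = l' := h
    rw [cs.wordProd_nil, inv_one, conjR_one, this]
    simp
  | cons s ω ih =>
    obtain ⟨l₁, h1, h2⟩ := h
    have hs1 : Supp l₁ (root cs (conjR cs (cs.simple s) t)) :=
      (supp_conj (WS.simple h1.self_mem) hs).mono fun a ha => (h1.mem a).2 ha
    rw [lam_step h1 hl hs, ih h2 (h1.nodup hl) hs1, conjR_conjR, cs.wordProd_cons, mul_inv_rev,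
      cs.inv_simple, aw_cons]
    group

/-- The lifts along a path. -/
theorem isLift_path {l l' : List B} (hl : l.Nodup) {ω : List B} (h : FirePath M l ω l')
    (ha : Asc cs 1 ω) : IsLift cs (lam cs l) 1 ω := by
  have main : ∀ ω₂ ω₁ : List B, ω = ω₁ ++ ω₂ → IsLift cs (lam cs l) (cs.wordProd ω₁) ω₂ := by
    intro ω₂
    induction ω₂ with
    | nil => intro _ _; trivial
    | cons i ω₂ ih =>
      intro ω₁ hω
      subst hω
      obtain ⟨h1, h2, h3⟩ := lf_of_path hl h ha
      refine ⟨?_, ?_⟩
      · refine lam_eq hl ?_ ⟨_, _, h1, rfl, h2, h3, rfl⟩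
        apply supp_conj (WS.word fun a haa => h.word_mem (by simp [haa]))
        exact supp_simple (h.word_mem (by simp))
      · have h4 := ih (ω₁ ++ [i]) (by simp)
        rwa [cs.wordProd_append, cs.wordProd_singleton] at h4
  have := main ω [] rfl
  rwa [cs.wordProd_nil] at this

end Pool.Agent.Lib.MP_185a46_al
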