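import Pool.Agent.Lib.MP_185a46_al.Artin

/-!
# The natural words for the square of the longest element
-/

set_option autoImplicit false

open CoxeterSystem

namespace Pool.Agent.Lib.MP_185a46_al

/-! ### Ordered products over a list -/

section Wd

variable {T G : Type*} [Group G]

open Classical in
/-- Product of the `x t`, over the members `t` of `L` that lie in `S`, in the reverse order. -/
noncomputable def wd (x : T → G) (S : Set T) : List T → G
  | [] => 1
  | t :: L => wd x S L * (if t ∈ S then x t else 1)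

@[simp] theorem wd_nil (x : T → G) (S : Set T) : wd x S [] = 1 := rfl

theorem wd_cons_mem (x : T → G) {S : Set T} {t : T} (L : List T) (h : t ∈ S) :
    wd x S (t :: L) = wd x S L * x t := by
  simp [wd, h]

theorem wd_cons_not_mem (x : T → G) {S : Set T} {t : T} (L : List T) (h : t ∉ S) :
    wd x S (t :: L) = wd x S L := by
  simp [wd, h]

theorem wd_append (x : T → G) (S : Set T) (L₁ L₂ : List T) :
    wd x S (L₁ ++ L₂) = wd x S L₂ * wd x S L₁ := by
  induction L₁ with
  | nil => simp
  | cons t L ih => rw [List.cons_append, wd, ih, wd, mul_assoc]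

theorem wd_congr (x : T → G) {S S' : Set T} {L : List T} (h : ∀ t ∈ L, (t ∈ S ↔ t ∈ S')) :
    wd x S L = wd x S' L := by
  induction L with
  | nil => rfl
  | cons t L ih =>
    have ih' := ih (fun u hu => h u (List.mem_cons_of_mem _ hu))
    have ht := h t List.mem_cons_self
    by_cases h1 : t ∈ S
    · rw [wd_cons_mem _ _ h1, wd_cons_mem _ _ (ht.1 h1), ih']
    · rw [wd_cons_not_mem _ _ h1, wd_cons_not_mem _ _ (fun h2 => h1 (ht.2 h2)), ih']

theorem wd_empty (x : T → G) (L : List T) : wd x ∅ L = 1 := by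
  induction L with
  | nil => rfl
  | cons t L ih => rw [wd_cons_not_mem _ _ (Set.notMem_empty t), ih]

open Classical in
/-- The list of letters of the ordered product. -/
noncomputable def wl (S : Set T) : List T → List T
  | [] => []
  | t :: L => wl S L ++ (if t ∈ S then [t] else [])

theorem prod_wl (x : T → G) (S : Set T) (L : List T) : ((wl S L).map x).prod = wd x S L := by
  induction L with
  | nil => rfl
  | cons t L ih =>
    rw [wl, wd, List.map_append, List.prod_append, ih]
    split_ifs <;> simp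

theorem map_wd {H : Type*} [Group H] (f : G →* H) (x : T → G) (S : Set T) (L : List T) :
    f (wd x S L) = wd (fun t => f (x t)) S L := by
  induction L with
  | nil => simp
  | cons t L ih =>
    rw [wd, wd, map_mul, ih]
    split_ifs <;> simp

end Wd

section

variable {B W : Type*} [Group W] {M : CoxeterMatrix B} (cs : CoxeterSystem M W)

/-- A path that goes up. -/
def Asc : W → List B → Prop
  | _, [] => True
  | v, i :: ω => ¬ cs.IsRightDescent v i ∧ Asc (v * cs.simple i) ω

/-- The reflections crossed by a path. -/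
def crossings : W → List B → List (Refl cs)
  | _, [] => []
  | v, i :: ω => conjR cs v (simpleR cs i) :: crossings (v * cs.simple i) ω

theorem asc_append (v : W) (ω ω' : List B) :
    Asc cs v (ω ++ ω') ↔ Asc cs v ω ∧ Asc cs (v * cs.wordProd ω) ω' := by
  induction ω generalizing v with
  | nil => simp [Asc]
  | cons i ω ih =>
    rw [List.cons_append, Asc, Asc, ih, cs.wordProd_cons, mul_assoc, and_assoc]

theorem asc_iff (v : W) (ω : List B) :
    Asc cs v ω ↔ cs.length (v * cs.wordProd ω) = cs.length v + ω.length := by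
  induction ω generalizing v with
  | nil => simp [Asc]
  | cons i ω ih =>
    rw [Asc, ih, cs.wordProd_cons, ← mul_assoc, List.length_cons]
    have h1 := cs.length_mul_simple v i
    have h2 := cs.length_mul_le (v * cs.simple i) (cs.wordProd ω)
    have h3 := cs.length_wordProd_le ω
    constructor
    · rintro ⟨h4, h5⟩
      have := cs.not_isRightDescent_iff.1 h4
      omega
    · intro h
      have h4 : ¬ cs.IsRightDescent v i := by
        rw [cs.not_isRightDescent_iff]
        omega
      refine ⟨h4, ?_⟩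
      have := cs.not_isRightDescent_iff.1 h4
      omega

theorem isReduced_iff_asc (ω : List B) : cs.IsReduced ω ↔ Asc cs 1 ω := by
  rw [asc_iff]
  simp [CoxeterSystem.IsReduced]

theorem crossings_append (v : W) (ω ω' : List B) :
    crossings cs v (ω ++ ω') = crossings cs v ω ++ crossings cs (v * cs.wordProd ω) ω' := by
  induction ω generalizing v with
  | nil => simp [crossings]
  | cons i ω ih =>
    rw [List.cons_append, crossings, crossings, ih, cs.wordProd_cons, mul_assoc,
      List.cons_append]

variable [DecidableEq B] [Fintype B] [Finite W]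

theorem invSet_path {v : W} {ω : List B} (h : Asc cs v ω) :
    invSet cs (v * cs.wordProd ω) = invSet cs v ∪ {t | t ∈ crossings cs v ω} := by
  induction ω generalizing v with
  | nil => simp [crossings]
  | cons i ω ih =>
    rw [cs.wordProd_cons, ← mul_assoc, ih h.2, invSet_mul_simple cs h.1]
    ext t
    simp only [crossings, Set.mem_union, Set.mem_insert_iff, Set.mem_ofPred_eq, List.mem_cons]
    tauto

theorem crossings_not_mem {v : W} {ω : List B} (h : Asc cs v ω) {t : Refl cs}
    (ht : t ∈ crossings cs v ω) : t ∉ invSet cs v := by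
  induction ω generalizing v with
  | nil => simp [crossings] at ht
  | cons i ω ih =>
    rw [crossings, List.mem_cons] at ht
    rcases ht with rfl | ht
    · exact wall_not_mem cs h.1
    · intro h1
      apply ih h.2 ht
      rw [invSet_mul_simple cs h.1]
      exact Set.mem_insert_of_mem _ h1

theorem crossings_nodup {v : W} {ω : List B} (h : Asc cs v ω) : (crossings cs v ω).Nodup := by
  induction ω generalizing v with
  | nil => simp [crossings]
  | cons i ω ih =>
    rw [crossings, List.nodup_cons]
    refine ⟨fun h1 => crossings_not_mem cs h.2 h1 (wall_mem cs h.1), ih h.2⟩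

/-! ### The longest element -/

/-- An element all of whose simple reflections are right descents. -/
def IsTop (w₀ : W) : Prop := ∀ i, cs.IsRightDescent w₀ i

theorem exists_top : ∃ w₀ : W, IsTop cs w₀ := by
  obtain ⟨w₀, hw⟩ := Finite.exists_max (fun w : W => cs.length w)
  refine ⟨w₀, fun i => ?_⟩
  have h1 := hw (w₀ * cs.simple i)
  have h2 := cs.length_mul_simple w₀ i
  unfold CoxeterSystem.IsRightDescent
  omega

variable {cs} {w₀ : W} (hw₀ : IsTop cs w₀)

include hw₀

theorem IsTop.nonpos {x : B → ℝ} (hx : 0 ≤ x) : rho cs w₀ x ≤ 0 :=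
  rho_nonpos_of cs hx fun i _ => hw₀ i

theorem IsTop.mem_invSet (t : Refl cs) : t ∈ invSet cs w₀ := by
  by_contra h
  rw [not_mem_invSet] at h
  have h1 := hw₀.nonpos h
  rw [rho_self_inv] at h1
  exact root_ne_zero cs t (le_antisymm h1 (root_nonneg cs t))

theorem IsTop.inv_nonpos {x : B → ℝ} (hx : 0 ≤ x) : rho cs w₀⁻¹ x ≤ 0 := by
  refine rho_nonpos_of cs hx fun i _ => ?_
  rw [cs.isRightDescent_inv_iff, ← simpleR_mem_invSet]
  exact hw₀.mem_invSet _

theorem IsTop.compl (w : W) : (invSet cs w)ᶜ = invSet cs (w * w₀) := by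
  ext t
  rw [Set.mem_compl_iff, not_mem_invSet, MP_185a46_al.mem_invSet, mul_inv_rev, rho_mul]
  constructor
  · intro h
    exact hw₀.inv_nonpos h
  · intro h
    by_contra h1
    rw [not_nonneg_iff] at h1
    have h2 := hw₀.inv_nonpos (neg_nonneg.2 h1)
    rw [map_neg, neg_nonpos] at h2
    have h3 := le_antisymm h h2
    rw [← rho_mul] at h3
    exact rho_root_ne_zero cs _ t h3

theorem IsTop.length_add (x : W) : cs.length x + cs.length (x⁻¹ * w₀) = cs.length w₀ := by
  induction hn : cs.length x generalizing x with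
  | zero =>
    rw [cs.length_eq_zero_iff] at hn
    subst hn
    simp
  | succ n ih =>
    have hx : x ≠ 1 := by
      rintro rfl
      simp at hn
    obtain ⟨i, hi⟩ := cs.exists_rightDescent_of_ne_one hx
    have h1 := cs.isRightDescent_iff.1 hi
    have h2 := ih (x * cs.simple i) (by omega)
    have h3 := cs.isRightDescent_iff_not_isRightDescent_mul.1 hi
    have h4 : cs.IsLeftDescent ((x * cs.simple i)⁻¹ * w₀) i := by
      rw [← cs.isRightDescent_inv_iff, ← nonpos_iff, mul_inv_rev, inv_inv, rho_mul]
      exact hw₀.inv_nonpos (rho_sr_nonneg cs h3)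
    have h5 := cs.isLeftDescent_iff.1 h4
    rw [mul_inv_rev, cs.inv_simple, mul_assoc, cs.simple_mul_simple_cancel_left] at h5
    rw [mul_inv_rev, cs.inv_simple, mul_assoc] at h2
    omega

theorem IsTop.sq : w₀ * w₀ = 1 := by
  have h1 := hw₀.length_add w₀⁻¹
  rw [cs.length_inv, inv_inv] at h1
  exact cs.length_eq_zero_iff.1 (by omega)

theorem IsTop.inv_eq : w₀⁻¹ = w₀ := inv_eq_of_mul_eq_one_left hw₀.sq

theorem IsTop.sg_eq (x : W) : sg cs w₀ = sg cs x * sg cs (x⁻¹ * w₀) := by
  have h := sg_mul cs (u := x) (v := x⁻¹ * w₀) (by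
    rw [mul_inv_cancel_left]
    exact (hw₀.length_add x).symm)
  rwa [mul_inv_cancel_left] at h

theorem IsTop.exists_star (i : B) : ∃ j : B, w₀ * cs.simple i = cs.simple j * w₀ := by
  have h1 := hw₀.length_add (cs.simple i)
  have h2 := hw₀.length_add (cs.simple i * w₀)
  rw [cs.inv_simple, cs.length_simple] at h1
  rw [mul_inv_rev, cs.inv_simple, hw₀.inv_eq] at h2
  have h3 : cs.length (w₀ * cs.simple i * w₀) = 1 := by omega
  obtain ⟨j, hj⟩ := cs.length_eq_one_iff.1 h3
  refine ⟨j, ?_⟩
  rw [← hj, mul_assoc, mul_assoc, hw₀.sq, mul_one]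

theorem IsTop.sg_sq_comm (i : B) :
    sg cs w₀ * sg cs w₀ * ag i = ag i * (sg cs w₀ * sg cs w₀) := by
  obtain ⟨j, hj⟩ := hw₀.exists_star i
  have h1 := sg_comm cs hj
  have hj' : w₀ * cs.simple j = cs.simple i * w₀ := by
    have h2 : cs.simple j = w₀ * cs.simple i * w₀ := by
      rw [hj, mul_assoc, hw₀.sq, mul_one]
    rw [h2, ← mul_assoc, ← mul_assoc, hw₀.sq, one_mul]
  have h3 := sg_comm cs hj'
  rw [mul_assoc, h1, ← mul_assoc, h3, mul_assoc]

theorem IsTop.sg_sq_central (a : Artin M) :
    sg cs w₀ * sg cs w₀ * a = a * (sg cs w₀ * sg cs w₀) := by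
  have hc : a ∈ Subgroup.centralizer {sg cs w₀ * sg cs w₀} := by
    have htop : Subgroup.closure (Set.range (PresentedGroup.of : B → Artin M)) = ⊤ :=
      PresentedGroup.closure_range_of _
    have ha : a ∈ Subgroup.closure (Set.range (PresentedGroup.of : B → Artin M)) := by
      rw [htop]
      exact Subgroup.mem_top a
    refine (Subgroup.closure_le _).2 ?_ ha
    rintro _ ⟨i, rfl⟩
    rw [SetLike.mem_coe, Subgroup.mem_centralizer_singleton_iff]
    exact (hw₀.sg_sq_comm i).symm
  rw [Subgroup.mem_centralizer_singleton_iff] at hc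
  exact hc.symm

end

/-! ### The products over inversion sets -/

section Lifts

variable {B W : Type*} [Group W] {M : CoxeterMatrix B} (cs : CoxeterSystem M W)
  [DecidableEq B] [Fintype B] [Finite W]

/-- `lam` gives the lifts of the reflections crossed by the path. -/
def IsLift (lam : Refl cs → Artin M) : W → List B → Prop
  | _, [] => True
  | v, i :: ω => lam (conjR cs v (simpleR cs i)) = sg cs v * ag i * (sg cs v)⁻¹ ∧
      IsLift lam (v * cs.simple i) ω

theorem isLift_append {lam : Refl cs → Artin M} {v : W} {ω ω' : List B} :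
    IsLift cs lam v (ω ++ ω') ↔ IsLift cs lam v ω ∧ IsLift cs lam (v * cs.wordProd ω) ω' := by
  induction ω generalizing v with
  | nil => simp [IsLift]
  | cons i ω ih =>
    rw [List.cons_append, IsLift, IsLift, ih, cs.wordProd_cons, mul_assoc v, and_assoc]

theorem crossings_length (v : W) (ω : List B) :
    (crossings cs v ω).length = ω.length := by
  induction ω generalizing v with
  | nil => rfl
  | cons i ω ih => rw [crossings, List.length_cons, ih, List.length_cons]

variable {cs} in
theorem crossings_split {ω : List B} {L₁ L₂ : List (Refl cs)}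
    (hL : crossings cs 1 ω = L₁ ++ L₂) :
    ∃ ω₁ ω₂, ω = ω₁ ++ ω₂ ∧ L₁ = crossings cs 1 ω₁ ∧ L₂ = crossings cs (cs.wordProd ω₁) ω₂ := by
  have hlen : L₁.length ≤ ω.length := by
    rw [← crossings_length cs 1 ω, hL, List.length_append]
    omega
  refine ⟨ω.take L₁.length, ω.drop L₁.length, (List.take_append_drop _ _).symm, ?_⟩
  have h1 : crossings cs 1 (ω.take L₁.length ++ ω.drop L₁.length) = L₁ ++ L₂ := by
    rw [List.take_append_drop, hL]
  rw [crossings_append, one_mul] at h1
  have h2 := List.append_inj h1 (by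
    rw [crossings_length, List.length_take]
    omega)
  exact ⟨h2.1.symm, h2.2.symm⟩

theorem wd_path {lam : Refl cs → Artin M} {v : W} {ω : List B} (h : Asc cs v ω)
    (hl : IsLift cs lam v ω) (w : W) :
    wd (fun t => lam t * lam t) (invSet cs w) (crossings cs v ω) =
      sg cs (v * cs.wordProd ω) * (sg cs (w⁻¹ * (v * cs.wordProd ω)))⁻¹ * sg cs (w⁻¹ * v) *
        (sg cs v)⁻¹ := by
  induction ω generalizing v with
  | nil => simp [crossings]
  | cons i ω ih =>
    have h1 := ih h.2 hl.2
    rw [cs.wordProd_cons, ← mul_assoc v]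
    have hasc := h.1
    have hroot := root_wall cs hasc
    have hsg := sg_mul_simple cs hasc
    by_cases hm : conjR cs v (simpleR cs i) ∈ invSet cs w
    · rw [crossings, wd_cons_mem _ _ hm, h1, hl.1, hsg]
      have hd : cs.IsRightDescent (w⁻¹ * v) i := by
        rw [mem_invSet, hroot, ← rho_mul] at hm
        exact (nonpos_iff cs).1 hm
      have hd' := cs.isRightDescent_iff_not_isRightDescent_mul.1 hd
      have h2 := sg_mul_simple cs hd'
      rw [cs.simple_mul_simple_cancel_right, mul_assoc w⁻¹] at h2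
      rw [h2]
      group
    · rw [crossings, wd_cons_not_mem _ _ hm, h1, hsg]
      have hd : ¬ cs.IsRightDescent (w⁻¹ * v) i := by
        rw [not_mem_invSet, hroot, ← rho_mul] at hm
        exact (nonneg_iff cs).1 hm
      have h2 := sg_mul_simple cs hd
      rw [mul_assoc w⁻¹] at h2
      rw [h2]
      group

variable {cs} {w₀ : W} (hw₀ : IsTop cs w₀)

include hw₀

theorem IsTop.wd_invSet {lam : Refl cs → Artin M} {ω : List B} (h : Asc cs 1 ω)
    (hl : IsLift cs lam 1 ω) (hω : cs.wordProd ω = w₀) (w : W) :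
    wd (fun t => lam t * lam t) (invSet cs w) (crossings cs 1 ω) = sg cs w * sg cs w⁻¹ := by
  rw [wd_path cs h hl, one_mul, hω, mul_one, sg_one, inv_one, mul_one, hw₀.sg_eq w]
  group

theorem IsTop.natural {lam : Refl cs → Artin M} {ω : List B} (h : Asc cs 1 ω)
    (hl : IsLift cs lam 1 ω) (hω : cs.wordProd ω = w₀) (w : W) :
    wd (fun t => lam t * lam t) (invSet cs w) (crossings cs 1 ω) *
      wd (fun t => lam t * lam t) (invSet cs w)ᶜ (crossings cs 1 ω) = sg cs w₀ * sg cs w₀ := by
  rw [hw₀.compl, hw₀.wd_invSet h hl hω, hw₀.wd_invSet h hl hω]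
  have h1 := hw₀.sg_eq w⁻¹
  rw [inv_inv] at h1
  have h2 := hw₀.sg_eq (w * w₀)⁻¹
  rw [inv_inv, mul_assoc, hw₀.sq, mul_one] at h2
  have h3 : sg cs (w * w₀)⁻¹ = sg cs w₀ * (sg cs w)⁻¹ := by
    rw [h2, mul_inv_cancel_right]
  rw [h3]
  have h4 := hw₀.sg_sq_central (sg cs w)
  calc sg cs w * sg cs w⁻¹ * (sg cs (w * w₀) * (sg cs w₀ * (sg cs w)⁻¹))
      = sg cs w * (sg cs w⁻¹ * sg cs (w * w₀)) * sg cs w₀ * (sg cs w)⁻¹ := by group
    _ = sg cs w * sg cs w₀ * sg cs w₀ * (sg cs w)⁻¹ := by rw [← h1]
    _ = sg cs w₀ * sg cs w₀ := by rw [mul_assoc (sg cs w), ← h4, mul_inv_cancel_right]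

theorem IsTop.mem_crossings {ω : List B} (h : Asc cs 1 ω) (hω : cs.wordProd ω = w₀)
    (t : Refl cs) : t ∈ crossings cs 1 ω := by
  have h1 := invSet_path cs h
  rw [one_mul, hω, invSet_one, Set.empty_union] at h1
  have h2 := hw₀.mem_invSet t
  rw [h1] at h2
  exact h2

theorem IsTop.split {ω : List B} (h : Asc cs 1 ω) (hω : cs.wordProd ω = w₀)
    {L₁ L₂ : List (Refl cs)} (hL : crossings cs 1 ω = L₁ ++ L₂) :
    ∃ y : W, invSet cs y = {t | t ∈ L₂} := by
  obtain ⟨ω₁, ω₂, rfl, rfl, rfl⟩ := crossings_split hL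
  refine ⟨cs.wordProd ω₁ * w₀, ?_⟩
  rw [← hw₀.compl]
  have h0 := crossings_nodup cs h
  rw [crossings_append, one_mul] at h0
  have h1 := (asc_append cs _ _ _).1 h
  have h2 := invSet_path cs h1.1
  rw [one_mul, invSet_one, Set.empty_union] at h2
  rw [h2]
  ext t
  have h3 := hw₀.mem_crossings h hω t
  rw [crossings_append, one_mul, List.mem_append] at h3
  rw [List.nodup_append] at h0
  simp only [Set.mem_compl_iff, Set.mem_ofPred_eq]
  constructor
  · intro h4
    exact h3.resolve_left h4
  · intro h4 h5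
    exact h0.2.2 t h5 t h4 rfl

end Lifts

end Pool.Agent.Lib.MP_185a46_al
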