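import Pool.Agent.Lib.MP_185a46_al.Natural

/-!
# The presentation of the pure Artin group by the natural words
-/

set_option autoImplicit false

open CoxeterSystem

namespace Pool.Agent.Lib.MP_185a46_al

/-! ### Twisted functions -/

/-- Pairs of a function `W → G` and an element of `W`; the group law is that of a wreath product. -/
@[ext]
structure EG (W G : Type*) where
  f : W → G
  u : W

namespace EG

variable {W G : Type*} [Group W] [Group G]

instance : Mul (EG W G) := ⟨fun a b => ⟨fun w => a.f w * b.f (w * a.u), a.u * b.u⟩⟩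
instance : One (EG W G) := ⟨⟨fun _ => 1, 1⟩⟩
instance : Inv (EG W G) := ⟨fun a => ⟨fun w => (a.f (w * a.u⁻¹))⁻¹, a.u⁻¹⟩⟩

@[simp] theorem mul_f (a b : EG W G) (w : W) : (a * b).f w = a.f w * b.f (w * a.u) := rfl
@[simp] theorem mul_u (a b : EG W G) : (a * b).u = a.u * b.u := rfl
@[simp] theorem one_f (w : W) : (1 : EG W G).f w = 1 := rfl
@[simp] theorem one_u : (1 : EG W G).u = 1 := rfl
@[simp] theorem inv_f (a : EG W G) (w : W) : (a⁻¹).f w = (a.f (w * a.u⁻¹))⁻¹ := rfl
@[simp] theorem inv_u (a : EG W G) : (a⁻¹).u = a.u⁻¹ := rfl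

instance : Group (EG W G) :=
  Group.ofLeftAxioms
    (fun a b c => EG.ext (funext fun w => by simp [mul_assoc]) (by simp [mul_assoc]))
    (fun a => EG.ext (funext fun w => by simp) (by simp))
    (fun a => EG.ext (funext fun w => by simp) (by simp))

end EG

section

variable {B W : Type*} [Group W] {M : CoxeterMatrix B} (cs : CoxeterSystem M W)
  [DecidableEq B] [Fintype B] [Finite W]

/-! ### Rank two cosets -/

/-- The reflections `t` for which `v⁻¹` maps the root to the plane of `α_i` and `α_j`. -/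
def planeSet (v : W) (i j : B) : Set (Refl cs) :=
  {t | ∀ k, k ≠ i → k ≠ j → rho cs v⁻¹ (root cs t) k = 0}

theorem planeSet_swap (v : W) (i j : B) : planeSet cs v i j = planeSet cs v j i := by
  ext t
  exact ⟨fun h k h1 h2 => h k h2 h1, fun h k h1 h2 => h k h2 h1⟩

/-- The parabolic subgroup of rank two. -/
abbrev par (i j : B) : Subgroup W := Subgroup.closure {cs.simple i, cs.simple j}

theorem par_apply {i j : B} {g : W} (hg : g ∈ par cs i j) {k : B} (hi : k ≠ i) (hj : k ≠ j)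
    (x : B → ℝ) : rho cs g x k = x k := by
  induction hg using Subgroup.closure_induction generalizing x with
  | mem g hg =>
    rcases hg with rfl | rfl
    · exact simple_apply_ne cs hi x
    · exact simple_apply_ne cs hj x
  | one => rw [rho_one]
  | mul a b _ _ iha ihb => rw [rho_mul, iha, ihb]
  | inv a _ iha => rw [← iha (rho cs a⁻¹ x), rho_self_inv]

theorem wordProd_alt_mem (i j : B) (k : ℕ) : cs.wordProd (alt i j k) ∈ par cs i j := by
  induction k generalizing i j with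
  | zero => simp
  | succ k ih =>
    rw [alt_succ, cs.wordProd_cons]
    refine mul_mem (Subgroup.subset_closure (Or.inl rfl)) ?_
    have := ih j i
    rwa [par, Set.pair_comm] at this

variable {cs} in
theorem invSet_mul_par {v g : W} {i j : B} (hg : g ∈ par cs i j) {t : Refl cs}
    (ht : t ∉ planeSet cs v i j) : t ∈ invSet cs (v * g) ↔ t ∈ invSet cs v := by
  have : ∃ k, k ≠ i ∧ k ≠ j ∧ rho cs v⁻¹ (root cs t) k ≠ 0 := by
    by_contra h
    push Not at h
    exact ht h
  obtain ⟨k, hi, hj, hk⟩ := this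
  have h1 : rho cs (v * g)⁻¹ (root cs t) k = rho cs v⁻¹ (root cs t) k := by
    rw [mul_inv_rev, rho_mul, par_apply cs (inv_mem hg) hi hj]
  rw [mem_invSet, mem_invSet]
  constructor
  · intro h
    rcases root_sign cs v⁻¹ t with h2 | h2
    · exfalso
      have h3 := h k
      have h4 := h2 k
      rw [h1] at h3
      exact hk (le_antisymm h3 h4)
    · exact h2
  · intro h
    rcases root_sign cs (v * g)⁻¹ t with h2 | h2
    · exfalso
      have h3 := h k
      have h4 := h2 k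
      rw [h1] at h4
      exact hk (le_antisymm h3 h4)
    · exact h2

variable {cs} in
theorem plane_mul_par {v g : W} {i j : B} (hg : g ∈ par cs i j) {t : Refl cs}
    (ht : t ∈ planeSet cs v i j) {k : B} (hi : k ≠ i) (hj : k ≠ j) :
    rho cs (v * g)⁻¹ (root cs t) k = 0 := by
  rw [mul_inv_rev, rho_mul, par_apply cs (inv_mem hg) hi hj]
  exact ht k hi hj

theorem sign_comb {w : W} {i j : B} {x : B → ℝ} (hx : 0 ≤ x)
    (hs : ∀ k, k ≠ i → k ≠ j → x k = 0) (hi : ¬ cs.IsRightDescent w i)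
    (hj : ¬ cs.IsRightDescent w j) : 0 ≤ rho cs w x := by
  refine rho_nonneg_of cs hx fun k hk => ?_
  by_cases h1 : k = i
  · rw [h1]; exact hi
  by_cases h2 : k = j
  · rw [h2]; exact hj
  exact absurd (hs k h1 h2) hk

theorem sign_comb' {w : W} {i j : B} {x : B → ℝ} (hx : 0 ≤ x)
    (hs : ∀ k, k ≠ i → k ≠ j → x k = 0) (hi : cs.IsRightDescent w i)
    (hj : cs.IsRightDescent w j) : rho cs w x ≤ 0 := by
  refine rho_nonpos_of cs hx fun k hk => ?_
  by_cases h1 : k = i
  · rw [h1]; exact hi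
  by_cases h2 : k = j
  · rw [h2]; exact hj
  exact absurd (hs k h1 h2) hk

variable {cs} in
theorem plane_not_mem {v : W} {i j : B} (hi : ¬ cs.IsRightDescent v i)
    (hj : ¬ cs.IsRightDescent v j) {t : Refl cs} (ht : t ∈ planeSet cs v i j) :
    t ∉ invSet cs v := by
  intro h
  have h1 := sign_comb cs (neg_nonneg.2 h) (fun k h2 h3 => by
    rw [Pi.neg_apply, ht k h2 h3, neg_zero]) hi hj
  rw [map_neg, rho_self_inv, neg_nonneg] at h1
  exact root_ne_zero cs t (le_antisymm h1 (root_nonneg cs t))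

theorem projection {v : W} {i j : B} (hi : ¬ cs.IsRightDescent v i)
    (hj : ¬ cs.IsRightDescent v j) (y : W) :
    ∃ u : W, invSet cs u = invSet cs v ∪ (invSet cs y ∩ planeSet cs v i j) := by
  classical
  obtain ⟨g, hg, hmin⟩ : ∃ g ∈ par cs i j, ∀ g' ∈ par cs i j,
      cs.length (y⁻¹ * v * g) ≤ cs.length (y⁻¹ * v * g') := by
    have hne : ∃ n, ∃ g ∈ par cs i j, cs.length (y⁻¹ * v * g) = n := ⟨_, 1, one_mem _, rfl⟩
    obtain ⟨g, hg, hgn⟩ := Nat.find_spec hne
    refine ⟨g, hg, fun g' hg' => ?_⟩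
    rw [hgn]
    exact Nat.find_min' hne ⟨g', hg', rfl⟩
  have hasc : ∀ k, cs.simple k ∈ par cs i j → ¬ cs.IsRightDescent (y⁻¹ * v * g) k := by
    intro k hk h
    have h1 := hmin (g * cs.simple k) (mul_mem hg hk)
    unfold CoxeterSystem.IsRightDescent at h
    rw [← mul_assoc] at h1
    omega
  have hai := hasc i (Subgroup.subset_closure (Or.inl rfl))
  have haj := hasc j (Subgroup.subset_closure (Or.inr rfl))
  refine ⟨v * g, ?_⟩
  ext t
  by_cases ht : t ∈ planeSet cs v i j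
  · have hnv := plane_not_mem hi hj ht
    have hsupp : ∀ k, k ≠ i → k ≠ j → rho cs (v * g)⁻¹ (root cs t) k = 0 :=
      fun k h1 h2 => plane_mul_par hg ht h1 h2
    have hy : rho cs y⁻¹ (root cs t) = rho cs (y⁻¹ * v * g) (rho cs (v * g)⁻¹ (root cs t)) := by
      rw [← rho_mul]
      congr 2
      group
    have : t ∈ invSet cs (v * g) ↔ t ∈ invSet cs y := by
      rcases root_sign cs (v * g)⁻¹ t with h | h
      · refine iff_of_false ?_ ?_
        · rw [not_mem_invSet]
          exact h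
        · rw [not_mem_invSet, hy]
          exact sign_comb cs h hsupp hai haj
      · refine iff_of_true h ?_
        rw [mem_invSet, hy]
        have h1 := sign_comb cs (neg_nonneg.2 h) (fun k h2 h3 => by
          rw [Pi.neg_apply, hsupp k h2 h3, neg_zero]) hai haj
        rw [map_neg] at h1
        exact neg_nonneg.1 h1
    rw [this]
    simp [hnv, ht]
  · rw [invSet_mul_par hg ht]
    simp [ht]

/-! ### Consequences of the natural relations -/

section Relations

variable {cs}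
variable {G : Type*} [Group G] {x : Refl cs → G} {z : G} {L : List (Refl cs)}

theorem wd_commute (hnd : L.Nodup)
    (hsplit : ∀ L₁ L₂, L = L₁ ++ L₂ → ∃ y : W, invSet cs y = {t | t ∈ L₂})
    (hz : ∀ w, wd x (invSet cs w) L * wd x (invSet cs w)ᶜ L = z)
    {v : W} {i j : B} (hi : ¬ cs.IsRightDescent v i) (hj : ¬ cs.IsRightDescent v j)
    {L₁ L₂ : List (Refl cs)} {e : Refl cs} (hL : L = L₁ ++ e :: L₂)
    (he : e ∈ planeSet cs v i j) :
    x e * (wd x (invSet cs v) L₁ * wd x (invSet cs v ∪ planeSet cs v i j)ᶜ L₂) =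
      wd x (invSet cs v) L₁ * wd x (invSet cs v ∪ planeSet cs v i j)ᶜ L₂ * x e := by
  obtain ⟨y, hy⟩ := hsplit (L₁ ++ [e]) L₂ (by rw [hL]; simp)
  obtain ⟨y', hy'⟩ := hsplit L₁ (e :: L₂) hL
  obtain ⟨u, hu⟩ := projection cs hi hj y
  obtain ⟨u', hu'⟩ := projection cs hi hj y'
  rw [hy] at hu
  rw [hy'] at hu'
  have hev := plane_not_mem hi hj he
  rw [hL, List.nodup_append, List.nodup_cons] at hnd
  obtain ⟨hnd1, ⟨hnd2, hnd3⟩, hnd4⟩ := hnd
  set X := planeSet cs v i j with hX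
  set I := invSet cs v with hI
  have hXI : ∀ t ∈ X, t ∉ I := fun t ht => plane_not_mem hi hj ht
  have heL2 : e ∉ L₂ := hnd2
  have hL12 : ∀ t ∈ L₁, t ∉ L₂ := fun t ht h => hnd4 t ht t (List.mem_cons_of_mem _ h) rfl
  have heL1 : e ∉ L₁ := fun h => hnd4 e h e List.mem_cons_self rfl
  have h1 := hz u
  have h2 := hz u'
  rw [hL, hu, wd_append, wd_append, wd_cons_not_mem (S := I ∪ _), wd_cons_mem] at h1
  · rw [hL, hu', wd_append, wd_append, wd_cons_mem, wd_cons_not_mem (S := (I ∪ _)ᶜ)] at h2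
    · have c1 : wd x (I ∪ {t | t ∈ L₂} ∩ X) L₂ = wd x (I ∪ X) L₂ := wd_congr _ fun t ht => by
        simp [ht]
      have c2 : wd x (I ∪ {t | t ∈ e :: L₂} ∩ X) L₂ = wd x (I ∪ X) L₂ := wd_congr _ fun t ht => by
        simp [ht]
      have c3 : wd x (I ∪ {t | t ∈ L₂} ∩ X) L₁ = wd x I L₁ := wd_congr _ fun t ht => by
        simp [hL12 t ht]
      have c4 : wd x (I ∪ {t | t ∈ e :: L₂} ∩ X) L₁ = wd x I L₁ := wd_congr _ fun t ht => by
        have : t ≠ e := fun h => heL1 (h ▸ ht)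
        simp [hL12 t ht, this]
      have c5 : wd x (I ∪ {t | t ∈ L₂} ∩ X)ᶜ L₂ = wd x (I ∪ X)ᶜ L₂ := wd_congr _ fun t ht => by
        simp [ht]
      have c6 : wd x (I ∪ {t | t ∈ e :: L₂} ∩ X)ᶜ L₂ = wd x (I ∪ X)ᶜ L₂ :=
        wd_congr _ fun t ht => by simp [ht]
      have c7 : wd x (I ∪ {t | t ∈ L₂} ∩ X)ᶜ L₁ = wd x Iᶜ L₁ := wd_congr _ fun t ht => by
        simp [hL12 t ht]
      have c8 : wd x (I ∪ {t | t ∈ e :: L₂} ∩ X)ᶜ L₁ = wd x Iᶜ L₁ := wd_congr _ fun t ht => by
        have : t ≠ e := fun h => heL1 (h ▸ ht)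
        simp [hL12 t ht, this]
      rw [c1, c3, c5, c7] at h1
      rw [c2, c4, c6, c8, ← h1] at h2
      simp only [mul_assoc] at h2
      have h3 := mul_left_cancel h2
      simp only [← mul_assoc] at h3
      have h4 := mul_right_cancel h3
      rw [← mul_assoc]
      exact h4
    · simp [he]
    · simp [he]
  · simp [he, hev, heL2]
  · simp [he, hev, heL2]

theorem wd_sort (hnd : L.Nodup)
    (hsplit : ∀ L₁ L₂, L = L₁ ++ L₂ → ∃ y : W, invSet cs y = {t | t ∈ L₂})
    (hz : ∀ w, wd x (invSet cs w) L * wd x (invSet cs w)ᶜ L = z)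
    {v : W} {i j : B} (hi : ¬ cs.IsRightDescent v i) (hj : ¬ cs.IsRightDescent v j)
    {C : Set (Refl cs)} (hC : C ⊆ planeSet cs v i j) :
    wd x (invSet cs v ∪ C) L * wd x (invSet cs v ∪ planeSet cs v i j)ᶜ L =
      wd x (invSet cs v) L * wd x ((invSet cs v ∪ planeSet cs v i j)ᶜ ∪ C) L := by
  set X := planeSet cs v i j with hX
  set I := invSet cs v with hI
  have hXI : ∀ t ∈ X, t ∉ I := fun t ht => plane_not_mem hi hj ht
  have key : ∀ L₁ L₂ : List (Refl cs), L = L₁ ++ L₂ →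
      wd x (I ∪ C) L * wd x (I ∪ X)ᶜ L =
        wd x (I ∪ C) L₂ * wd x I L₁ * (wd x (I ∪ X)ᶜ L₂ * wd x ((I ∪ X)ᶜ ∪ C) L₁) := by
    intro L₁
    induction L₁ using List.reverseRecOn with
    | nil =>
      intro L₂ h
      rw [List.nil_append] at h
      rw [h]
      simp
    | append_singleton L₁ e ih =>
      intro L₂ h
      have h' : L = L₁ ++ e :: L₂ := by rw [h]; simp
      rw [ih (e :: L₂) h', wd_append, wd_append]
      by_cases heI : e ∈ I
      · have heX : e ∉ X := fun h1 => hXI e h1 heI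
        have heC : e ∉ C := fun h1 => heX (hC h1)
        rw [wd_cons_mem _ _ (by simp [heI] : e ∈ I ∪ C),
          wd_cons_not_mem _ _ (by simp [heI] : e ∉ (I ∪ X)ᶜ), wd_cons_mem _ _ heI,
          wd_cons_not_mem _ _ (by simp [heI, heC] : e ∉ (I ∪ X)ᶜ ∪ C)]
        simp [mul_assoc]
      · by_cases heX : e ∈ X
        · by_cases heC : e ∈ C
          · have hcomm := wd_commute hnd hsplit hz hi hj h' heX
            rw [← hX, ← hI] at hcomm
            rw [wd_cons_mem _ _ (by simp [heC] : e ∈ I ∪ C),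
              wd_cons_not_mem _ _ (by simp [heX] : e ∉ (I ∪ X)ᶜ), wd_cons_not_mem _ _ heI,
              wd_cons_mem _ _ (by simp [heC] : e ∈ (I ∪ X)ᶜ ∪ C)]
            simp only [wd_nil, one_mul]
            calc wd x (I ∪ C) L₂ * x e * wd x I L₁ * (wd x (I ∪ X)ᶜ L₂ *
                  wd x ((I ∪ X)ᶜ ∪ C) L₁)
                = wd x (I ∪ C) L₂ * (x e * (wd x I L₁ * wd x (I ∪ X)ᶜ L₂)) *
                    wd x ((I ∪ X)ᶜ ∪ C) L₁ := by group
              _ = wd x (I ∪ C) L₂ * wd x I L₁ * (wd x (I ∪ X)ᶜ L₂ *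
                    (x e * wd x ((I ∪ X)ᶜ ∪ C) L₁)) := by rw [hcomm]; group
          · rw [wd_cons_not_mem _ _ (by simp [heC, heI] : e ∉ I ∪ C),
              wd_cons_not_mem _ _ (by simp [heX] : e ∉ (I ∪ X)ᶜ), wd_cons_not_mem _ _ heI,
              wd_cons_not_mem _ _ (by simp [heC, heX] : e ∉ (I ∪ X)ᶜ ∪ C)]
            simp [mul_assoc]
        · have heC : e ∉ C := fun h1 => heX (hC h1)
          rw [wd_cons_not_mem _ _ (by simp [heC, heI] : e ∉ I ∪ C),
            wd_cons_mem _ _ (by simp [heX, heI] : e ∈ (I ∪ X)ᶜ), wd_cons_not_mem _ _ heI,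
            wd_cons_mem _ _ (by simp [heX, heI] : e ∈ (I ∪ X)ᶜ ∪ C)]
          simp [mul_assoc]
  have h1 := key L [] (by simp)
  rw [h1]
  simp

/-- The relation of an antipodal pair `w, w'` in a rank two coset with bottom `v` and top `w₁`. -/
theorem wd_polygon (hnd : L.Nodup)
    (hsplit : ∀ L₁ L₂, L = L₁ ++ L₂ → ∃ y : W, invSet cs y = {t | t ∈ L₂})
    (hz : ∀ w, wd x (invSet cs w) L * wd x (invSet cs w)ᶜ L = z)
    {v : W} {i j : B} (hi : ¬ cs.IsRightDescent v i) (hj : ¬ cs.IsRightDescent v j)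
    {w w' w₁ : W} {C : Set (Refl cs)} (hC : C ⊆ planeSet cs v i j)
    (hw : invSet cs w = invSet cs v ∪ C)
    (hw' : invSet cs w' = invSet cs v ∪ (planeSet cs v i j \ C))
    (hw₁ : invSet cs w₁ = invSet cs v ∪ planeSet cs v i j) :
    wd x (invSet cs w) L * (wd x (invSet cs v) L)⁻¹ =
      wd x (invSet cs w₁) L * (wd x (invSet cs w') L)⁻¹ := by
  set X := planeSet cs v i j with hX
  set I := invSet cs v with hI
  have hXI : ∀ t ∈ X, t ∉ I := fun t ht => plane_not_mem hi hj ht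
  have h1 := wd_sort (x := x) hnd hsplit hz hi hj (C := X \ C) Set.sdiff_subset
  rw [← hX, ← hI] at h1
  have h2 : (I ∪ X)ᶜ ∪ (X \ C) = (I ∪ C)ᶜ := by
    ext t
    have h3 := hXI t
    have h4 := @hC t
    simp only [Set.mem_union, Set.mem_compl_iff, Set.mem_sdiff]
    tauto
  rw [h2] at h1
  have h5 := hz w
  have h6 := hz w₁
  rw [hw] at h5
  rw [hw₁] at h6
  rw [hw, hw', hw₁]
  rw [← h6] at h5
  have e1 : (wd x I L)⁻¹ = wd x (I ∪ C)ᶜ L * (wd x (I ∪ X)ᶜ L)⁻¹ * (wd x (I ∪ X \ C) L)⁻¹ := by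
    rw [eq_mul_inv_iff_mul_eq, eq_mul_inv_iff_mul_eq, mul_assoc, h1, inv_mul_cancel_left]
  rw [e1, ← mul_assoc, ← mul_assoc, h5, mul_assoc (wd x (I ∪ X) L), mul_inv_cancel, mul_one]

end Relations

end

end Pool.Agent.Lib.MP_185a46_al
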