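import Pool.Agent.Lib.MP_185a46_al.Geom
import Pool.Agent.Lib.MP_185a46_al.Defs

/-!
# Positivity of roots
-/

set_option autoImplicit false

open CoxeterSystem

namespace Pool.Agent.Lib.MP_185a46_al

variable {B W : Type*} [Group W] {M : CoxeterMatrix B} (cs : CoxeterSystem M W)

/-- The braid relation in `W`. -/
theorem wordProd_alt (i j : B) :
    cs.wordProd (alt i j (M i j)) = cs.wordProd (alt j i (M i j)) := by
  have h1 : cs.wordProd (alt i j (2 * M i j)) = 1 := by
    unfold CoxeterSystem.wordProd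
    rw [alt_prod_pow, cs.simple_mul_simple_pow]
  rw [two_mul, alt_add, cs.wordProd_append, ← alt_reverse i j, cs.wordProd_reverse] at h1
  exact mul_inv_eq_one.1 h1

theorem length_alt_lt {i j : B} (h0 : M i j ≠ 0) {k : ℕ} (hk : M i j < k) :
    cs.length (cs.wordProd (alt i j k)) < k := by
  obtain ⟨r, rfl⟩ : ∃ r, k = M i j + 1 + r := ⟨k - (M i j + 1), by omega⟩
  obtain ⟨m, hm⟩ : ∃ m, M i j = m + 1 := ⟨M i j - 1, by omega⟩
  have h1 : cs.wordProd (alt i j (M i j + 1)) = cs.wordProd (alt j i m) := by
    rw [alt_succ, cs.wordProd_cons, ← wordProd_alt]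
    rw [hm, alt_succ, cs.wordProd_cons, cs.simple_mul_simple_cancel_left]
  rw [alt_add, cs.wordProd_append, h1]
  have h2 := cs.length_mul_le (cs.wordProd (alt j i m))
    (cs.wordProd (alt (nxt i j (M i j + 1)) (nxt j i (M i j + 1)) r))
  have h3 := cs.length_wordProd_le (alt j i m)
  have h4 := cs.length_wordProd_le (alt (nxt i j (M i j + 1)) (nxt j i (M i j + 1)) r)
  rw [alt_length] at h3 h4
  omega

variable [DecidableEq B] [Fintype B]

theorem rho_wordProd_alt (i j : B) (k : ℕ) :
    rho cs (cs.wordProd (alt i j k)) (sr (nxt i j k)) =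
      cc (-2 * gram M i j) (k + 1) • sr i + cc (-2 * gram M i j) k • sr j := by
  rw [rho_wordProd, alt_rfl']

theorem rho_wordProd_alt_inv (i j : B) (k : ℕ) :
    rho cs (cs.wordProd (alt j i k))⁻¹ (sr i) =
      cc (-2 * gram M i j) (k + 1) • sr (nxt i j k) +
        cc (-2 * gram M i j) k • sr (nxt j i k) := by
  rw [← cs.wordProd_reverse, rho_wordProd, alt_rev_rfl']

section Finite

variable [Finite W]

include cs in
theorem M_ne_zero {i j : B} (hij : i ≠ j) : M i j ≠ 0 := by
  intro h0
  obtain ⟨n, hn, hpow⟩ := isOfFinOrder_iff_pow_eq_one.1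
    (isOfFinOrder_of_finite (cs.simple i * cs.simple j))
  have hg : -2 * gram M i j = 2 := by
    unfold gram
    rw [h0]
    simp
  have h1 := rho_wordProd_alt cs i j (2 * n)
  have h2 : cs.wordProd (alt i j (2 * n)) = 1 := by
    unfold CoxeterSystem.wordProd
    rw [alt_prod_pow, hpow]
  rw [h2, nxt_two_mul, rho_one, hg, cc_two, cc_two] at h1
  have h3 := congrFun h1 j
  simp only [sr, Pi.add_apply, Pi.smul_apply, Pi.single_eq_same, Pi.single_eq_of_ne hij.symm,
    smul_eq_mul, mul_zero, zero_add, mul_one] at h3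
  have : (0 : ℝ) < ((2 * n : ℕ) : ℝ) := by positivity
  linarith

theorem rho_sr_nonneg_aux : ∀ (n : ℕ) (w : W) (i : B), cs.length w = n →
    ¬ cs.IsRightDescent w i → 0 ≤ rho cs w (sr i) := by
  intro n
  induction n using Nat.strong_induction_on with
  | _ n ih =>
    intro w i hn hi
    by_cases hw : w = 1
    · subst hw
      rw [rho_one]
      exact sr_nonneg i
    obtain ⟨j, hj⟩ := cs.exists_rightDescent_of_ne_one hw
    have hij : i ≠ j := by
      rintro rfl
      exact hi hj
    have h0 : M i j ≠ 0 := M_ne_zero cs hij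
    classical
    let P : ℕ → Prop := fun k => cs.length (w * cs.wordProd (alt j i k)) + k = cs.length w
    have hP1 : P 1 := by
      show cs.length (w * cs.wordProd (alt j i 1)) + 1 = cs.length w
      rw [alt_succ, alt_zero, cs.wordProd_singleton]
      exact cs.isRightDescent_iff.1 hj
    have hn1 : 1 ≤ n := by
      have : cs.length (w * cs.wordProd (alt j i 1)) + 1 = cs.length w := hP1
      omega
    obtain ⟨k, hk, hkn⟩ : ∃ k, P k ∧ ¬ P (k + 1) ∧ 1 ≤ k := by
      refine ⟨Nat.findGreatest P n, Nat.findGreatest_spec hn1 hP1, ?_,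
        Nat.le_findGreatest hn1 hP1⟩
      intro h
      have h1 : cs.length (w * cs.wordProd (alt j i (Nat.findGreatest P n + 1))) +
        (Nat.findGreatest P n + 1) = cs.length w := h
      have h2 : Nat.findGreatest P n + 1 ≤ n := by omega
      have h3 := Nat.le_findGreatest h2 h
      omega
    obtain ⟨hk1, hk0⟩ := hkn
    have hk' : cs.length (w * cs.wordProd (alt j i k)) + k = cs.length w := hk
    set v := w * cs.wordProd (alt j i k) with hv
    -- the next letter is an ascent
    have hasc1 : ¬ cs.IsRightDescent v (nxt j i k) := by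
      intro h
      apply hk1
      show cs.length (w * cs.wordProd (alt j i (k + 1))) + (k + 1) = cs.length w
      rw [alt_succ', cs.wordProd_append, cs.wordProd_singleton, ← mul_assoc, ← hv]
      have := cs.isRightDescent_iff.1 h
      omega
    -- the previous letter is an ascent
    have hasc2 : ¬ cs.IsRightDescent v (nxt i j k) := by
      obtain ⟨k', rfl⟩ : ∃ k', k = k' + 1 := ⟨k - 1, by omega⟩
      rw [nxt_succ]
      have h1 : v = w * cs.wordProd (alt j i k') * cs.simple (nxt j i k') := by
        rw [hv, alt_succ', cs.wordProd_append, cs.wordProd_singleton, mul_assoc]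
      rw [cs.not_isRightDescent_iff]
      have h2 : v * cs.simple (nxt j i k') = w * cs.wordProd (alt j i k') := by
        rw [h1, cs.simple_mul_simple_cancel_right]
      have h3 : cs.length w ≤ cs.length (w * cs.wordProd (alt j i k')) + k' := by
        have h4 := cs.length_mul_le (w * cs.wordProd (alt j i k'))
          (cs.wordProd (alt j i k'))⁻¹
        rw [mul_inv_cancel_right, cs.length_inv] at h4
        have h5 := cs.length_wordProd_le (alt j i k')
        rw [alt_length] at h5
        omega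
      have h6 := cs.length_mul_simple v (nxt j i k')
      rw [h2] at h6 ⊢
      omega
    have hvn : cs.length v < n := by omega
    have hp1 := ih _ hvn v (nxt j i k) rfl hasc1
    have hp2 := ih _ hvn v (nxt i j k) rfl hasc2
    have hw' : w = v * (cs.wordProd (alt j i k))⁻¹ := by
      rw [hv, mul_inv_cancel_right]
    have hkM : k + 1 ≤ M i j := by
      by_contra hcon
      have h1 := length_alt_lt cs (i := i) (j := j) h0 (k := k + 1) (by omega)
      have h2 : w * cs.simple i = v * (cs.wordProd (alt i j (k + 1)))⁻¹ := by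
        rw [alt_succ, cs.wordProd_cons, mul_inv_rev, cs.inv_simple, ← mul_assoc, ← hw']
      have h3 := cs.not_isRightDescent_iff.1 hi
      have h4 := cs.length_mul_le v (cs.wordProd (alt i j (k + 1)))⁻¹
      rw [← h2, cs.length_inv] at h4
      omega
    rw [hw', rho_mul, rho_wordProd_alt_inv, map_add, map_smul, map_smul]
    exact add_nonneg (smul_nonneg (cc_nonneg hij h0 hkM) hp2)
      (smul_nonneg (cc_nonneg hij h0 (by omega)) hp1)

theorem rho_sr_nonneg {w : W} {i : B} (h : ¬ cs.IsRightDescent w i) : 0 ≤ rho cs w (sr i) :=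
  rho_sr_nonneg_aux cs _ w i rfl h

theorem rho_sr_nonpos {w : W} {i : B} (h : cs.IsRightDescent w i) : rho cs w (sr i) ≤ 0 := by
  have h1 := rho_sr_nonneg cs (cs.isRightDescent_iff_not_isRightDescent_mul.1 h)
  rw [rho_mul, rho_simple_sr, map_neg] at h1
  exact neg_nonneg.1 h1

theorem rho_sr_ne_zero (w : W) (i : B) : rho cs w (sr i) ≠ 0 := by
  intro h
  have h1 := congrArg (rho cs w⁻¹) h
  rw [rho_inv_self, map_zero] at h1
  exact sr_ne_zero i h1

theorem nonneg_iff {w : W} {i : B} : 0 ≤ rho cs w (sr i) ↔ ¬ cs.IsRightDescent w i := by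
  refine ⟨fun h h' => ?_, rho_sr_nonneg cs⟩
  exact rho_sr_ne_zero cs w i (le_antisymm (rho_sr_nonpos cs h') h)

theorem nonpos_iff {w : W} {i : B} : rho cs w (sr i) ≤ 0 ↔ cs.IsRightDescent w i := by
  refine ⟨fun h => ?_, rho_sr_nonpos cs⟩
  by_contra h'
  exact rho_sr_ne_zero cs w i (le_antisymm h (rho_sr_nonneg cs h'))

theorem nonneg_or_nonpos (w : W) (i : B) : 0 ≤ rho cs w (sr i) ∨ rho cs w (sr i) ≤ 0 := by
  by_cases h : cs.IsRightDescent w i
  · right
    exact rho_sr_nonpos cs h
  · left
    exact rho_sr_nonneg cs h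

theorem rho_injective : Function.Injective (rho cs) := by
  rw [injective_iff_map_eq_one]
  intro w hw
  by_contra h
  obtain ⟨i, hi⟩ := cs.exists_rightDescent_of_ne_one h
  have h1 := rho_sr_nonpos cs hi
  rw [hw] at h1
  exact sr_ne_zero i (le_antisymm h1 (sr_nonneg i))

/-! ### The positive root of a reflection -/

theorem exists_root (t : Refl cs) :
    ∃ p : W × B, (t : W) = p.1 * cs.simple p.2 * p.1⁻¹ ∧ 0 ≤ rho cs p.1 (sr p.2) := by
  obtain ⟨t, w, i, rfl⟩ := t
  rcases nonneg_or_nonpos cs w i with h | h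
  · exact ⟨(w, i), rfl, h⟩
  · refine ⟨(w * cs.simple i, i), ?_, ?_⟩
    · simp [mul_assoc]
    · rw [rho_mul, rho_simple_sr, map_neg]
      exact neg_nonneg.2 h

/-- The positive root of a reflection. -/
noncomputable def root (t : Refl cs) : B → ℝ :=
  rho cs (exists_root cs t).choose.1 (sr (exists_root cs t).choose.2)

theorem root_nonneg (t : Refl cs) : 0 ≤ root cs t := (exists_root cs t).choose_spec.2

theorem root_ne_zero (t : Refl cs) : root cs t ≠ 0 := rho_sr_ne_zero cs _ _

theorem bf_root (t : Refl cs) : bf M (root cs t) (root cs t) = 1 := by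
  unfold root
  rw [bf_rho, bf_sr_self]

theorem rho_conj_simple (w : W) (i : B) (x : B → ℝ) :
    rho cs (w * cs.simple i * w⁻¹) x = rfl' M (rho cs w (sr i)) x := by
  rw [rho_mul, rho_mul, rho_simple, rfl'_apply, rfl'_apply, map_sub, map_smul, rho_self_inv]
  congr 3
  rw [← bf_rho cs w, rho_self_inv]

theorem rho_refl (t : Refl cs) (x : B → ℝ) : rho cs t x = rfl' M (root cs t) x := by
  conv_lhs => rw [(exists_root cs t).choose_spec.1]
  rw [rho_conj_simple]
  rfl

/-- Two nonnegative unit vectors with the same reflection are equal. -/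
theorem unit_unique {x y : B → ℝ} (hx : bf M x x = 1) (hy : bf M y y = 1) (hx0 : 0 ≤ x)
    (hy0 : 0 ≤ y) (h : rfl' M x y = -y) : x = y := by
  rw [rfl'_apply] at h
  have h1 : y = bf M x y • x := by
    have h2 : (2 : ℝ) • y = (2 : ℝ) • (bf M x y • x) := by
      rw [smul_smul, two_smul]
      nth_rw 1 [sub_eq_iff_eq_add.1 h]
      abel
    exact smul_right_injective _ (two_ne_zero) h2
  have h3 : (bf M x y - 1) * (bf M x y + 1) = 0 := by
    have h4 : bf M y y = 1 := hy
    rw [h1, map_smul, map_smul, LinearMap.smul_apply, hx] at h4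
    simp only [smul_eq_mul] at h4
    linear_combination h4
  rcases mul_eq_zero.1 h3 with h5 | h5
  · rw [sub_eq_zero.1 h5, one_smul] at h1
    exact h1.symm
  · exfalso
    rw [eq_neg_of_add_eq_zero_left h5] at h1
    have h6 : y ≤ 0 := by
      rw [h1, neg_smul, one_smul]
      exact neg_nonpos.2 hx0
    have h7 : y = 0 := le_antisymm h6 hy0
    rw [h7] at hy
    simp at hy

theorem root_eq {t : Refl cs} {w : W} {i : B} (ht : (t : W) = w * cs.simple i * w⁻¹)
    (h : 0 ≤ rho cs w (sr i)) : root cs t = rho cs w (sr i) := by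
  refine unit_unique (bf_root cs t) ?_ (root_nonneg cs t) h ?_
  · rw [bf_rho, bf_sr_self]
  · rw [← rho_refl, ht, rho_mul, rho_mul, rho_inv_self, rho_simple_sr, map_neg]

@[simp] theorem simpleR_val (i : B) : (simpleR cs i : W) = cs.simple i := rfl

/-- Conjugation of reflections. -/
def conjR (w : W) (t : Refl cs) : Refl cs := ⟨w * t * w⁻¹, t.2.conj w⟩

@[simp] theorem conjR_val (w : W) (t : Refl cs) : (conjR cs w t : W) = w * t * w⁻¹ := rfl

theorem conjR_conjR (u v : W) (t : Refl cs) : conjR cs u (conjR cs v t) = conjR cs (u * v) t := by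
  apply Subtype.ext
  simp [mul_assoc]

@[simp] theorem conjR_one (t : Refl cs) : conjR cs 1 t = t := by
  apply Subtype.ext
  simp

theorem conjR_inv_conjR (v : W) (t : Refl cs) : conjR cs v⁻¹ (conjR cs v t) = t := by
  rw [conjR_conjR, inv_mul_cancel, conjR_one]

theorem conjR_conjR_inv (v : W) (t : Refl cs) : conjR cs v (conjR cs v⁻¹ t) = t := by
  rw [conjR_conjR, mul_inv_cancel, conjR_one]

@[simp] theorem root_simpleR (i : B) : root cs (simpleR cs i) = sr i := by
  have := root_eq cs (t := simpleR cs i) (w := 1) (i := i) (by simp)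
    (by rw [rho_one]; exact sr_nonneg i)
  rw [this, rho_one]

theorem root_injective : Function.Injective (root cs) := by
  intro t u h
  apply Subtype.ext
  apply rho_injective cs
  refine LinearMap.ext fun x => ?_
  rw [rho_refl, rho_refl, h]

theorem root_sign (w : W) (t : Refl cs) :
    0 ≤ rho cs w (root cs t) ∨ rho cs w (root cs t) ≤ 0 := by
  unfold root
  rw [← rho_mul]
  exact nonneg_or_nonpos cs _ _

theorem rho_root_ne_zero (w : W) (t : Refl cs) : rho cs w (root cs t) ≠ 0 := by
  unfold root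
  rw [← rho_mul]
  exact rho_sr_ne_zero cs _ _

theorem not_nonneg_iff (w : W) (t : Refl cs) :
    ¬ 0 ≤ rho cs w (root cs t) ↔ rho cs w (root cs t) ≤ 0 := by
  constructor
  · intro h
    exact (root_sign cs w t).resolve_left h
  · intro h h'
    exact rho_root_ne_zero cs w t (le_antisymm h h')

theorem root_conjR {w : W} {t : Refl cs} (h : 0 ≤ rho cs w (root cs t)) :
    root cs (conjR cs w t) = rho cs w (root cs t) := by
  obtain ⟨hp, hp0⟩ := (exists_root cs t).choose_spec
  set p := (exists_root cs t).choose with hpdef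
  have h1 : root cs t = rho cs p.1 (sr p.2) := rfl
  rw [h1, ← rho_mul] at h ⊢
  refine root_eq cs ?_ h
  rw [conjR_val, hp]
  simp [mul_assoc]

theorem root_conjR_neg {w : W} {t : Refl cs} (h : rho cs w (root cs t) ≤ 0) :
    root cs (conjR cs w t) = -rho cs w (root cs t) := by
  refine unit_unique (bf_root cs _) ?_ (root_nonneg cs _) (neg_nonneg.2 h) ?_
  · rw [map_neg, map_neg, LinearMap.neg_apply, neg_neg, bf_rho, bf_root]
  · rw [← rho_refl, conjR_val, rho_mul, rho_mul, map_neg, map_neg, map_neg, rho_inv_self,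
      rho_refl, rfl'_self (bf_root cs t), map_neg]

theorem simple_apply_ne {i j : B} (hj : j ≠ i) (x : B → ℝ) :
    rho cs (cs.simple i) x j = x j := by
  rw [rho_simple, rfl'_apply]
  simp [sr, hj]

theorem simple_nonneg {i : B} {t : Refl cs} (ht : t ≠ simpleR cs i) :
    0 ≤ rho cs (cs.simple i) (root cs t) := by
  by_contra h
  rw [not_nonneg_iff] at h
  apply ht
  have h1 : ∀ j, j ≠ i → root cs t j = 0 := by
    intro j hj
    have h2 := h j
    rw [simple_apply_ne cs hj] at h2
    exact le_antisymm h2 (root_nonneg cs t j)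
  have h3 : root cs t = root cs t i • sr i := by
    funext j
    by_cases hj : j = i
    · subst hj
      simp [sr]
    · rw [h1 j hj]
      simp [sr, hj]
  have h4 := bf_root cs t
  rw [h3, map_smul, map_smul, LinearMap.smul_apply, bf_sr_self, smul_eq_mul, smul_eq_mul,
    mul_one] at h4
  have h5 : root cs t i = 1 := by
    have h6 : 0 ≤ root cs t i := root_nonneg cs t i
    nlinarith
  rw [h5, one_smul] at h3
  apply root_injective cs
  rw [h3, root_simpleR]

/-! ### Inversion sets -/

/-- The (left) inversion set of `w`. -/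
def invSet (w : W) : Set (Refl cs) := {t | rho cs w⁻¹ (root cs t) ≤ 0}

theorem mem_invSet {w : W} {t : Refl cs} : t ∈ invSet cs w ↔ rho cs w⁻¹ (root cs t) ≤ 0 := Iff.rfl

theorem not_mem_invSet {w : W} {t : Refl cs} :
    t ∉ invSet cs w ↔ 0 ≤ rho cs w⁻¹ (root cs t) := by
  rw [mem_invSet, ← not_nonneg_iff, not_not]

theorem invSet_one : invSet cs (1 : W) = ∅ := by
  ext t
  rw [mem_invSet, inv_one, rho_one]
  constructor
  · intro h
    exact root_ne_zero cs t (le_antisymm h (root_nonneg cs t))
  · intro h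
    exact absurd h (Set.notMem_empty _)

theorem simpleR_mem_invSet {w : W} {i : B} :
    simpleR cs i ∈ invSet cs w ↔ cs.IsLeftDescent w i := by
  rw [mem_invSet, root_simpleR, nonpos_iff, cs.isRightDescent_inv_iff]

/-- `t` crosses from `w` to `w s_i`. -/
theorem mem_invSet_mul_simple {w : W} {i : B} {t : Refl cs} (ht : t ≠ conjR cs w (simpleR cs i)) :
    t ∈ invSet cs (w * cs.simple i) ↔ t ∈ invSet cs w := by
  have hu : conjR cs w⁻¹ t ≠ simpleR cs i := by
    intro h
    apply ht
    rw [← h, conjR_conjR_inv]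
  have h1 := simple_nonneg cs hu
  by_cases h : t ∈ invSet cs w
  · refine iff_of_true ?_ h
    rw [root_conjR_neg cs h, map_neg, neg_nonneg] at h1
    rw [mem_invSet, mul_inv_rev, cs.inv_simple, rho_mul]
    exact h1
  · refine iff_of_false ?_ h
    rw [not_mem_invSet] at h ⊢
    rw [root_conjR cs h] at h1
    rw [mul_inv_rev, cs.inv_simple, rho_mul]
    exact h1

theorem root_wall {w : W} {i : B} (h : ¬ cs.IsRightDescent w i) :
    root cs (conjR cs w (simpleR cs i)) = rho cs w (sr i) := by
  rw [root_conjR cs (by rw [root_simpleR]; exact rho_sr_nonneg cs h), root_simpleR]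

theorem wall_not_mem {w : W} {i : B} (h : ¬ cs.IsRightDescent w i) :
    conjR cs w (simpleR cs i) ∉ invSet cs w := by
  rw [not_mem_invSet, root_wall cs h, rho_inv_self]
  exact sr_nonneg i

theorem conjR_mul_simple (w : W) (i : B) :
    conjR cs (w * cs.simple i) (simpleR cs i) = conjR cs w (simpleR cs i) := by
  apply Subtype.ext
  simp [mul_assoc]

theorem wall_mem {w : W} {i : B} (h : ¬ cs.IsRightDescent w i) :
    conjR cs w (simpleR cs i) ∈ invSet cs (w * cs.simple i) := by
  rw [mem_invSet, root_wall cs h, mul_inv_rev, cs.inv_simple, rho_mul, rho_inv_self,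
    rho_simple_sr]
  exact neg_nonpos.2 (sr_nonneg i)

theorem invSet_mul_simple {w : W} {i : B} (h : ¬ cs.IsRightDescent w i) :
    invSet cs (w * cs.simple i) = insert (conjR cs w (simpleR cs i)) (invSet cs w) := by
  ext t
  rw [Set.mem_insert_iff]
  by_cases ht : t = conjR cs w (simpleR cs i)
  · refine iff_of_true ?_ (Or.inl ht)
    rw [ht]
    exact wall_mem cs h
  · rw [mem_invSet_mul_simple cs ht]
    simp [ht]

theorem rho_eq_sum (w : W) (x : B → ℝ) : rho cs w x = ∑ i, x i • rho cs w (sr i) := by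
  have hx : x = ∑ i, x i • sr i := by
    funext j
    rw [Finset.sum_apply]
    simp [sr, Pi.single_apply]
  conv_lhs => rw [hx]
  rw [map_sum]
  exact Finset.sum_congr rfl fun i _ => map_smul _ _ _

theorem rho_nonneg_of {w : W} {x : B → ℝ} (hx : 0 ≤ x)
    (h : ∀ i, x i ≠ 0 → ¬ cs.IsRightDescent w i) : 0 ≤ rho cs w x := by
  rw [rho_eq_sum]
  refine Finset.sum_nonneg fun i _ => ?_
  by_cases hi : x i = 0
  · rw [hi, zero_smul]
  · exact smul_nonneg (hx i) (rho_sr_nonneg cs (h i hi))

theorem rho_nonpos_of {w : W} {x : B → ℝ} (hx : 0 ≤ x)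
    (h : ∀ i, x i ≠ 0 → cs.IsRightDescent w i) : rho cs w x ≤ 0 := by
  rw [rho_eq_sum]
  refine Finset.sum_nonpos fun i _ => ?_
  by_cases hi : x i = 0
  · rw [hi, zero_smul]
  · exact smul_nonpos_of_nonneg_of_nonpos (hx i) (rho_sr_nonpos cs (h i hi))

/-- Left multiplication by a simple reflection. -/
theorem mem_invSet_simple_mul {w : W} {i : B} {t : Refl cs} (ht : t ≠ simpleR cs i) :
    t ∈ invSet cs (cs.simple i * w) ↔ conjR cs (cs.simple i) t ∈ invSet cs w := by
  rw [mem_invSet, mem_invSet, root_conjR cs (simple_nonneg cs ht), mul_inv_rev, cs.inv_simple,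
    rho_mul]

end Finite

end Pool.Agent.Lib.MP_185a46_al
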