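import Pool.Agent.Lib.MP_185a46_al.Dual

/-!
# Powers of the Coxeter element and the full twist
-/

set_option autoImplicit false
set_option linter.unusedSectionVars false

open CoxeterSystem

namespace Pool.Agent.Lib.MP_185a46_al

section Heap

variable {B : Type*} [DecidableEq B] [Fintype B] {M : CoxeterMatrix B}

/-- Admissible words, with offset `n`. -/
def Adm (M : CoxeterMatrix B) (l : List B) (n : B → ℕ) (ω : List B) : Prop :=
  ∀ ω₁ ω₂, ω = ω₁ ++ ω₂ → ∀ a b, bef l a b → M a b ≠ 2 →
    n b + ω₁.count b ≤ n a + ω₁.count a ∧ n a + ω₁.count a ≤ n b + ω₁.count b + 1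

/-- Two admissible words with the same letter counts have the same product. -/
theorem heap {N : Type*} [Monoid N] {f : B → N}
    (hf : ∀ a b, M a b = 2 → f a * f b = f b * f a) {l : List B} :
    ∀ (ω ω' : List B) (n : B → ℕ), (∀ a ∈ ω, a ∈ l) → (∀ a ∈ ω', a ∈ l) → Adm M l n ω →
      Adm M l n ω' → (∀ a, ω.count a = ω'.count a) → (ω.map f).prod = (ω'.map f).prod := by
  intro ω
  induction ω with
  | nil =>
    intro ω' n _ _ _ _ hc
    have : ω' = [] := by
      rw [List.eq_nil_iff_forall_not_mem]
      intro a ha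
      have h1 := hc a
      have h2 := List.count_pos_iff.2 ha
      simp at h1
      omega
    rw [this]
  | cons s ω ih =>
    intro ω' n hω hω' hadm hadm' hc
    have hs' : s ∈ ω' := by
      rw [← List.count_pos_iff, ← hc, List.count_cons_self]
      omega
    obtain ⟨α, s', γ, hω'eq, hs's, hα⟩ := exists_first (P := fun b => b = s) ⟨s, hs', rfl⟩
    subst hs's
    have hone := hadm [s'] ω rfl
    have hcs : ∀ b, b ≠ s' → [s'].count b = 0 := by
      intro b hb
      rw [List.count_eq_zero]
      simpa using hb
    have hcss : [s'].count s' = 1 := by simp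
    have hα2 : ∀ a ∈ α, M a s' = 2 := by
      intro a ha
      by_contra hM
      have has : a ≠ s' := hα a ha
      obtain ⟨α₁, α₂, rfl⟩ := List.append_of_mem ha
      have h2 := hadm' (α₁ ++ [a]) (α₂ ++ s' :: γ) (by rw [hω'eq]; simp)
      have hcnt : 0 < (α₁ ++ [a]).count a := List.count_pos_iff.2 (by simp)
      have hcnt' : (α₁ ++ [a]).count s' = 0 := by
        rw [List.count_eq_zero]
        intro h
        apply hα s' _ rfl
        simp only [List.mem_append, List.mem_cons, List.not_mem_nil, or_false] at h ⊢
        tauto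
      have hal : a ∈ l := hω' a (by rw [hω'eq]; simp)
      have hsl : s' ∈ l := hω s' List.mem_cons_self
      rcases bef_total hal hsl has with hb | hb
      · have h3 := hone a s' hb hM
        have h4 := h2 a s' hb hM
        rw [hcss, hcs a has] at h3
        omega
      · have hM' : M s' a ≠ 2 := by rwa [M.symmetric]
        have h3 := hone s' a hb hM'
        have h4 := h2 s' a hb hM'
        rw [hcss, hcs a has] at h3
        omega
    rw [hω'eq, Step.prod' hf hα2, List.map_cons, List.prod_cons]
    congr 1
    refine ih (α ++ γ) (fun a => n a + [s'].count a) (fun a ha => hω a (List.mem_cons_of_mem _ ha))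
      (fun a ha => hω' a ?_) ?_ ?_ ?_
    · rw [hω'eq]
      simp only [List.mem_append, List.mem_cons] at ha ⊢
      tauto
    · intro ω₁ ω₂ h a b hab hM
      have h1 := hadm (s' :: ω₁) ω₂ (by rw [h]; rfl) a b hab hM
      have h2 : ∀ c, (s' :: ω₁).count c = [s'].count c + ω₁.count c := by
        intro c
        rw [← List.singleton_append, List.count_append]
      rw [h2, h2] at h1
      simp only
      omega
    · intro ω₁ ω₂ h a b hab hM
      rcases List.append_eq_append_iff.1 h with ⟨δ, h1, h2⟩ | ⟨δ, h1, h2⟩
      · -- `ω₁ = α ++ δ`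
        have h3 := hadm' (α ++ s' :: δ) ω₂ (by rw [hω'eq, h2]; simp) a b hab hM
        have h4 : ∀ c, (α ++ s' :: δ).count c = [s'].count c + ω₁.count c := by
          intro c
          rw [h1, List.count_append, List.count_append, ← List.singleton_append,
            List.count_append]
          omega
        rw [h4, h4] at h3
        simp only
        omega
      · -- `α = ω₁ ++ δ`
        have h3 := hadm' ω₁ (δ ++ s' :: γ) (by rw [hω'eq, h1]; simp) a b hab hM
        have h5 := hone a b hab hM
        have hz : ω₁.count s' = 0 := by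
          rw [List.count_eq_zero]
          intro hmem
          exact hα s' (by rw [h1]; simp [hmem]) rfl
        by_cases ha : a = s'
        · subst ha
          have hb0 : ω₁.count b = 0 := by
            rw [List.count_eq_zero]
            intro hmem
            apply hM
            rw [M.symmetric]
            exact hα2 b (by rw [h1]; simp [hmem])
          simp only
          omega
        · by_cases hb : b = s'
          · subst hb
            have ha0 : ω₁.count a = 0 := by
              rw [List.count_eq_zero]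
              intro hmem
              apply hM
              exact hα2 a (by rw [h1]; simp [hmem])
            simp only
            omega
          · have h6 := hcs a ha
            have h7 := hcs b hb
            simp only
            omega
    · intro a
      have h1 := hc a
      have hcc : ∀ v : List B, (s' :: v).count a = [s'].count a + v.count a := by
        intro v
        rw [← List.singleton_append, List.count_append]
      rw [hω'eq, List.count_append, hcc ω, hcc γ] at h1
      rw [List.count_append]
      omega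

theorem Step.source2 {l l' : List B} {s : B} (h : Step M l s l') (hl : l.Nodup) :
    ∀ b, bef l b s → M b s = 2 := by
  obtain ⟨A, C, rfl, rfl, hA⟩ := h
  intro b hb
  rw [List.nodup_append, List.nodup_cons] at hl
  obtain ⟨h1, ⟨h2, h3⟩, h4⟩ := hl
  have hsA : s ∉ A := fun h => h4 s h s List.mem_cons_self rfl
  rw [bef_append] at hb
  rcases hb with hb | hb | hb
  · exact absurd (bef_mem hb).2 hsA
  · rcases hb with ⟨_, hb⟩ | hb
    · exact absurd hb h2
    · exact absurd (bef_mem hb).2 h2
  · exact hA b hb.1

theorem Step.bef_last {l l' : List B} {s : B} (h : Step M l s l') {b : B} (hb : b ∈ l)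
    (hbs : b ≠ s) : bef l' b s := by
  obtain ⟨A, C, rfl, rfl, hA⟩ := h
  rw [bef_append]
  right; right
  simp only [List.mem_append, List.mem_cons, hbs, false_or] at hb ⊢
  exact ⟨hb, Or.inl trivial⟩

theorem FirePath.count {l l' ω : List B} (h : FirePath M l ω l') (hl : l.Nodup) {a b : B}
    (hab : bef l a b) (hM : M a b ≠ 2) : (bef l' a b ∧ ω.count a = ω.count b) ∨
      (bef l' b a ∧ ω.count a = ω.count b + 1) := by
  induction ω generalizing l a b with
  | nil =>
    have : l = l' := h
    subst this
    left
    exact ⟨hab, rfl⟩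
  | cons s ω ih =>
    obtain ⟨l₁, h1, h2⟩ := h
    have hne := (bef_asymm hl hab).1
    by_cases ha : a = s
    · subst ha
      have hb : bef l₁ b a := h1.bef_last (bef_mem hab).2 (Ne.symm hne)
      rw [List.count_cons_self, List.count_cons_of_ne hne]
      rcases ih h2 (h1.nodup hl) hb (by rwa [M.symmetric]) with ⟨h3, h4⟩ | ⟨h3, h4⟩
      · right
        exact ⟨h3, by omega⟩
      · left
        exact ⟨h3, by omega⟩
    · by_cases hb : b = s
      · subst hb
        exact absurd (h1.source2 hl a hab) hM
      · rw [List.count_cons_of_ne (Ne.symm ha), List.count_cons_of_ne (Ne.symm hb)]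
        exact ih h2 (h1.nodup hl) ((h1.bef_iff ha hb).2 hab) hM

theorem FirePath.adm {l l' ω : List B} (h : FirePath M l ω l') (hl : l.Nodup) :
    Adm M l (fun _ => 0) ω := by
  intro ω₁ ω₂ hω a b hab hM
  subst hω
  obtain ⟨l₁, h1, h2⟩ := firePath_append.1 h
  simp only [zero_add]
  rcases h1.count hl hab hM with h3 | h3
  · omega
  · omega

theorem firePath_rotate (l₁ l₂ : List B) : FirePath M (l₁ ++ l₂) l₁ (l₂ ++ l₁) := by
  induction l₁ generalizing l₂ with
  | nil => simp [FirePath]
  | cons s l₁ ih =>
    refine ⟨l₁ ++ l₂ ++ [s], ⟨[], l₁ ++ l₂, rfl, rfl, fun a ha => by simp at ha⟩, ?_⟩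
    have h1 := ih (l₂ ++ [s])
    rw [← List.append_assoc] at h1
    rw [show l₂ ++ s :: l₁ = l₂ ++ [s] ++ l₁ by simp]
    exact h1

theorem firePath_power (l : List B) (m : ℕ) :
    FirePath M l (List.replicate m l).flatten l := by
  induction m with
  | zero => simp [FirePath]
  | succ m ih =>
    rw [List.replicate_succ, List.flatten_cons, firePath_append]
    refine ⟨l, ?_, ih⟩
    have := firePath_rotate (M := M) l []
    rwa [List.append_nil, List.nil_append] at this

theorem count_power {l : List B} (hl : l.Nodup) {a : B} (ha : a ∈ l) (m : ℕ) :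
    (List.replicate m l).flatten.count a = m := by
  induction m with
  | zero => simp
  | succ m ih =>
    rw [List.replicate_succ, List.flatten_cons, List.count_append, ih,
      List.count_eq_one_of_mem hl ha]
    omega

theorem prod_power {N : Type*} [Monoid N] (f : B → N) (l : List B) (m : ℕ) :
    ((List.replicate m l).flatten.map f).prod = (l.map f).prod ^ m := by
  induction m with
  | zero => simp
  | succ m ih =>
    rw [List.replicate_succ, List.flatten_cons, List.map_append, List.prod_append, ih, pow_succ']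

end Heap

section Top

variable {B W : Type*} [Group W] {M : CoxeterMatrix B} {cs : CoxeterSystem M W}
  [DecidableEq B] [Fintype B] [Finite W]

theorem sr_injective : Function.Injective (sr : B → B → ℝ) := by
  intro i j h
  by_contra hne
  have h1 := congrFun h i
  simp [sr, hne] at h1

/-- A nonnegative preimage of a simple root is simple. -/
theorem simple_of_pos {f : Module.End ℝ (B → ℝ)}
    (hbf : ∀ x y, bf M (f x) (f y) = bf M x y) (hinj : Function.Injective f) {y : B → ℝ} {i : B}
    (hy : 0 ≤ y) (hf : ∀ j, y j ≠ 0 → 0 ≤ f (sr j)) (h : f y = sr i) :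
    ∃ j, y j ≠ 0 ∧ y = sr j := by
  obtain ⟨j, hj⟩ : ∃ j, y j ≠ 0 := by
    by_contra hcon
    push Not at hcon
    have h1 : y = 0 := funext hcon
    rw [h1, map_zero] at h
    exact sr_ne_zero i h.symm
  have hsum : f y = ∑ k, y k • f (sr k) := by
    have hx : y = ∑ k, y k • sr k := by
      funext j
      rw [Finset.sum_apply]
      simp [sr, Pi.single_apply]
    conv_lhs => rw [hx]
    rw [map_sum]
    exact Finset.sum_congr rfl fun k _ => map_smul _ _ _
  have h1 : ∀ m, m ≠ i → f (sr j) m = 0 := by
    intro m hm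
    have h2 := congrFun h m
    rw [hsum, Finset.sum_apply] at h2
    have h3 : (sr i : B → ℝ) m = 0 := by simp [sr, hm]
    rw [h3] at h2
    have h4 : ∀ k ∈ Finset.univ, 0 ≤ (y k • f (sr k)) m := by
      intro k _
      by_cases hk : y k = 0
      · rw [hk, zero_smul]
        exact le_refl _
      · exact mul_nonneg (hy k) (hf k hk m)
    have h5 := (Finset.sum_eq_zero_iff_of_nonneg h4).1 h2 j (Finset.mem_univ j)
    rw [Pi.smul_apply, smul_eq_mul] at h5
    exact (mul_eq_zero.1 h5).resolve_left hj
  have h2 : f (sr j) = f (sr j) i • sr i := by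
    funext m
    by_cases hm : m = i
    · subst hm
      simp [sr]
    · rw [h1 m hm]
      simp [sr, hm]
  have h3 : (0 : ℝ) ≤ f (sr j) i := hf j hj i
  have h4 : bf M (f (sr j)) (f (sr j)) = 1 := by
    rw [hbf, bf_sr_self]
  rw [h2, map_smul, map_smul, LinearMap.smul_apply, bf_sr_self, smul_eq_mul, smul_eq_mul,
    mul_one] at h4
  have h5 : f (sr j) i = 1 := by nlinarith
  rw [h5, one_smul] at h2
  exact ⟨j, hj, hinj (h.trans h2.symm)⟩

/-- The longest element of the parabolic subgroup of `l`. -/
structure PTop (cs : CoxeterSystem M W) (l : List B) (w : W) : Prop where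
  ws : WS cs l w
  desc : ∀ j ∈ l, cs.IsRightDescent w j

theorem PTop.mem_invSet {l : List B} {w : W} (h : PTop cs l w) {t : Refl cs}
    (ht : Supp l (root cs t)) : t ∈ invSet cs w := by
  by_contra hn
  rw [not_mem_invSet] at hn
  have h3 := rho_nonpos_of cs (w := w) hn (fun i hi => by
    apply h.desc
    by_contra hi'
    exact hi (h.ws.inv.supp ht i hi'))
  rw [rho_self_inv] at h3
  exact root_ne_zero cs t (le_antisymm h3 (root_nonneg cs t))

theorem PTop.exists_star {l : List B} {w : W} (h : PTop cs l w) {i : B} (hi : i ∈ l) :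
    ∃ j, j ∈ l ∧ rho cs w (sr i) = -sr j := by
  have h1 : rho cs w (sr i) ≤ 0 := rho_sr_nonpos cs (h.desc i hi)
  have hsi : Supp l (sr i) := by
    have := supp_simple (cs := cs) hi
    rwa [root_simpleR] at this
  set y : B → ℝ := -rho cs w (sr i) with hy
  have hys : Supp l y := by
    intro a ha
    rw [hy, Pi.neg_apply, h.ws.supp hsi a ha, neg_zero]
  obtain ⟨j, hj, hyj⟩ := simple_of_pos (M := M) (f := -rho cs w⁻¹) (y := y) (i := i)
    (by
      intro x y
      simp only [LinearMap.neg_apply, map_neg, neg_neg]
      exact bf_rho cs _ _ _)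
    (by
      intro x y hxy
      simp only [LinearMap.neg_apply, neg_inj] at hxy
      have h2 := congrArg (rho cs w) hxy
      rwa [rho_self_inv, rho_self_inv] at h2)
    (neg_nonneg.2 h1)
    (by
      intro j hj
      have hjl : j ∈ l := by
        by_contra hcon
        exact hj (hys j hcon)
      have h2 := h.mem_invSet (t := simpleR cs j) (supp_simple hjl)
      rw [MP_185a46_al.mem_invSet, root_simpleR] at h2
      rw [LinearMap.neg_apply]
      exact neg_nonneg.2 h2)
    (by
      rw [LinearMap.neg_apply, hy, map_neg, neg_neg, rho_inv_self])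
  refine ⟨j, ?_, ?_⟩
  · by_contra hcon
    exact hj (hys j hcon)
  · rw [← hyj, hy, neg_neg]

theorem PTop.sq {l : List B} {w : W} (h : PTop cs l w) : w * w = 1 := by
  by_contra hne
  obtain ⟨j, hj⟩ := cs.exists_rightDescent_of_ne_one hne
  rw [← nonpos_iff] at hj
  by_cases hjl : j ∈ l
  · obtain ⟨k, hk, h1⟩ := h.exists_star hjl
    obtain ⟨m, _, h2⟩ := h.exists_star hk
    rw [rho_mul, h1, map_neg, h2, neg_neg] at hj
    exact sr_ne_zero m (le_antisymm hj (sr_nonneg m))
  · have h1 := (h.ws.mul h.ws) (sr j) j hjl
    have h2 := hj j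
    rw [h1] at h2
    simp only [sr, Pi.single_eq_same, Pi.zero_apply] at h2
    linarith

theorem PTop.inv_eq {l : List B} {w : W} (h : PTop cs l w) : w⁻¹ = w :=
  inv_eq_of_mul_eq_one_left h.sq

theorem PTop.unique {l : List B} {w w' : W} (h : PTop cs l w) (h' : PTop cs l w') :
    w = w' := by
  by_contra hne
  have hne' : w * w' ≠ 1 := by
    intro h1
    apply hne
    rw [← h.inv_eq]
    exact inv_eq_of_mul_eq_one_right h1
  obtain ⟨j, hj⟩ := cs.exists_rightDescent_of_ne_one hne'
  rw [← nonpos_iff] at hj
  by_cases hjl : j ∈ l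
  · obtain ⟨k, hk, h1⟩ := h'.exists_star hjl
    obtain ⟨m, _, h2⟩ := h.exists_star hk
    rw [rho_mul, h1, map_neg, h2, neg_neg] at hj
    exact sr_ne_zero m (le_antisymm hj (sr_nonneg m))
  · have h1 := (h.ws.mul h'.ws) (sr j) j hjl
    have h2 := hj j
    rw [h1] at h2
    simp only [sr, Pi.single_eq_same, Pi.zero_apply] at h2
    linarith

/-- The involution of the diagram given by the longest element. -/
theorem PTop.exists_invol {l : List B} {w : W} (h : PTop cs l w) :
    ∃ st : B → B, (∀ i ∈ l, st i ∈ l) ∧ (∀ i, st (st i) = i) ∧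
      ∀ i ∈ l, rho cs w (sr i) = -sr (st i) := by
  classical
  have hex : ∀ i, ∃ j, (i ∈ l → j ∈ l ∧ rho cs w (sr i) = -sr j) ∧ (i ∉ l → j = i) := by
    intro i
    by_cases hi : i ∈ l
    · obtain ⟨j, hj⟩ := h.exists_star hi
      exact ⟨j, fun _ => hj, fun h => absurd hi h⟩
    · exact ⟨i, fun h => absurd h hi, fun _ => rfl⟩
  choose st h1 h2 using hex
  refine ⟨st, fun i hi => (h1 i hi).1, fun i => ?_, fun i hi => (h1 i hi).2⟩
  by_cases hi : i ∈ l
  · have h3 := (h1 i hi).2
    have h4 := (h1 _ (h1 i hi).1).2
    have h5 := congrArg (rho cs w) h3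
    rw [← rho_mul, h.sq, rho_one, map_neg, h4, neg_neg] at h5
    exact (sr_injective h5).symm
  · rw [h2 i hi, h2 i hi]

theorem PTop.conj_simple {l : List B} {w : W} (_h : PTop cs l w) {i j : B}
    (hij : rho cs w (sr i) = -sr j) : w * cs.simple i = cs.simple j * w := by
  have h1 : conjR cs w (simpleR cs i) = simpleR cs j := by
    apply root_injective cs
    rw [root_conjR_neg cs (by
      rw [root_simpleR, hij]
      exact neg_nonpos.2 (sr_nonneg j)), root_simpleR, root_simpleR, hij, neg_neg]
  have h2 := congrArg Subtype.val h1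
  rw [conjR_val, simpleR_val, simpleR_val] at h2
  rw [← h2, inv_mul_cancel_right]

theorem gram_star {w : W} {a b a' b' : B} (ha : rho cs w (sr a) = -sr a')
    (hb : rho cs w (sr b) = -sr b') : gram M a b = gram M a' b' := by
  rw [← bf_sr, ← bf_rho cs w, ha, hb, map_neg, map_neg, LinearMap.neg_apply, neg_neg, bf_sr]

/-- The orientation after a full path. -/
theorem bef_star {l l' ω : List B} (hl : l.Nodup) (hp : FirePath M l ω l') {a b a' b' : B}
    (hbef : bef l' a b) (hM : M a b ≠ 2) (ha' : a' ∈ l) (hb' : b' ∈ l)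
    (ha : rho cs (cs.wordProd ω) (sr a) = -sr a')
    (hb : rho cs (cs.wordProd ω) (sr b) = -sr b') : bef l a' b' := by
  have hl' := hp.nodup hl
  have hne := (bef_asymm hl' hbef).1
  have hal := (hp.mem a).1 (bef_mem hbef).1
  have hbl := (hp.mem b).1 (bef_mem hbef).2
  have hne' : a' ≠ b' := by
    intro h1
    apply hne
    have h2 : rho cs (cs.wordProd ω) (sr a) = rho cs (cs.wordProd ω) (sr b) := by
      rw [ha, hb, h1]
    have h3 := congrArg (rho cs (cs.wordProd ω)⁻¹) h2
    rw [rho_inv_self, rho_inv_self] at h3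
    exact sr_injective h3
  rcases bef_total ha' hb' hne' with h1 | h1
  · exact h1
  · exfalso
    have hsa : Supp l (sr a) := by
      have := supp_simple (cs := cs) hal
      rwa [root_simpleR] at this
    have hsb : Supp l (sr b) := by
      have := supp_simple (cs := cs) hbl
      rwa [root_simpleR] at this
    have h2 := hp.om_eq (cs := cs) hl hsa hsb
    rw [ha, hb, map_neg, map_neg, LinearMap.neg_apply, neg_neg, om_sr, om_sr,
      omM_of_bef hl' hbef, omM_of_bef' hl h1, ← gram_star ha hb] at h2
    apply hM
    exact two_of_gram hne (M_ne_zero cs hne) (by linarith)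

/-- The square of the longest element of a parabolic subgroup as an admissible word. -/
theorem PTop.word {l l' ω : List B} (hl : l.Nodup) (hp : FirePath M l ω l') (ha : Asc cs 1 ω)
    (h : PTop cs l (cs.wordProd ω)) :
    ∃ ω' : List B, (∀ a ∈ ω', a ∈ l) ∧ Adm M l (fun _ => 0) ω' ∧
      (aw ω' : Artin M) = sg cs (cs.wordProd ω) * sg cs (cs.wordProd ω) ∧
      ∀ a b, a ∈ l → b ∈ l → M a b ≠ 2 → ω'.count a = ω'.count b := by
  obtain ⟨st, h1, h2, h3⟩ := h.exists_invol
  have hinj : Function.Injective st := by
    intro a b hab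
    rw [← h2 a, ← h2 b, hab]
  have hcount : ∀ (a : B) (ω : List B), (ω.map st).count a = ω.count (st a) := by
    intro a ω
    have h4 := List.count_map_of_injective ω st hinj (st a)
    rwa [h2] at h4
  have hMst : ∀ a b, a ∈ l → b ∈ l → M a b ≠ 2 → a ≠ b → M (st a) (st b) ≠ 2 := by
    intro a b hal hbl hM hab hM'
    apply hM
    apply two_of_gram hab (M_ne_zero cs hab)
    rw [gram_star (h3 a hal) (h3 b hbl)]
    exact gram_of_two hM'
  -- the two cases for a pair of neighbours
  have key : ∀ a b, bef l a b → M a b ≠ 2 →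
      (bef l (st a) (st b) ∧ ω.count a = ω.count b) ∨
        (bef l (st b) (st a) ∧ ω.count a = ω.count b + 1) := by
    intro a b hab hM
    have hal := (bef_mem hab).1
    have hbl := (bef_mem hab).2
    rcases hp.count hl hab hM with ⟨h4, h5⟩ | ⟨h4, h5⟩
    · left
      exact ⟨bef_star hl hp h4 hM (h1 a hal) (h1 b hbl) (h3 a hal) (h3 b hbl), h5⟩
    · right
      exact ⟨bef_star hl hp h4 (by rwa [M.symmetric]) (h1 b hbl) (h1 a hal) (h3 b hbl)
        (h3 a hal), h5⟩
  have hadm : ∀ ω₁ ω₂, ω = ω₁ ++ ω₂ → ∀ a b, bef l a b → M a b ≠ 2 →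
      ω₁.count b ≤ ω₁.count a ∧ ω₁.count a ≤ ω₁.count b + 1 := by
    intro ω₁ ω₂ hω a b hab hM
    have h4 := hp.adm hl ω₁ ω₂ hω a b hab hM
    simpa using h4
  refine ⟨ω ++ ω.map st, ?_, ?_, ?_, ?_⟩
  · intro a haa
    rw [List.mem_append, List.mem_map] at haa
    rcases haa with haa | ⟨b, hb, rfl⟩
    · exact hp.word_mem haa
    · exact h1 b (hp.word_mem hb)
  · intro ω₁ ω₂ hω a b hab hM
    simp only [zero_add]
    rcases List.append_eq_append_iff.1 hω with ⟨δ, h4, h5⟩ | ⟨δ, h4, h5⟩
    · obtain ⟨δ₁, δ₂, h6, h7, h8⟩ := List.map_eq_append_iff.1 h5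
      rw [h4, List.count_append, List.count_append, ← h7, hcount, hcount]
      have hal := (bef_mem hab).1
      have hbl := (bef_mem hab).2
      have hne := (bef_asymm hl hab).1
      have hM' := hMst a b hal hbl hM hne
      rcases key a b hab hM with ⟨h9, h10⟩ | ⟨h9, h10⟩
      · have h11 := hadm δ₁ δ₂ h6 _ _ h9 hM'
        omega
      · have h11 := hadm δ₁ δ₂ h6 _ _ h9 (by rwa [M.symmetric])
        omega
    · exact hadm ω₁ δ h4 a b hab hM
  · have h4 : (aw ω : Artin M) = sg cs (cs.wordProd ω) :=
      (sg_wordProd cs ((isReduced_iff_asc cs ω).2 ha)).symm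
    have h5 : ∀ v : List B, (∀ a ∈ v, a ∈ l) → (aw (v.map st) : Artin M) =
        sg cs (cs.wordProd ω) * aw v * (sg cs (cs.wordProd ω))⁻¹ := by
      intro v hv
      induction v with
      | nil => simp
      | cons i v ih =>
        have h6 := sg_comm cs (h.conj_simple (h3 i (hv i List.mem_cons_self)))
        rw [List.map_cons, aw_cons, aw_cons, ih fun a ha => hv a (List.mem_cons_of_mem _ ha)]
        have h7 : (ag (st i) : Artin M) =
            sg cs (cs.wordProd ω) * ag i * (sg cs (cs.wordProd ω))⁻¹ := by
          rw [h6, mul_inv_cancel_right]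
        rw [h7]
        group
    rw [aw_append, h5 ω fun a ha => hp.word_mem ha, h4, mul_inv_cancel_right]
  · have main : ∀ a b, bef l a b → M a b ≠ 2 →
        (ω ++ ω.map st).count a = (ω ++ ω.map st).count b := by
      intro a b hab hM
      rw [List.count_append, List.count_append, hcount, hcount]
      have hal := (bef_mem hab).1
      have hbl := (bef_mem hab).2
      have hne := (bef_asymm hl hab).1
      have hM' := hMst a b hal hbl hM hne
      rcases key a b hab hM with ⟨h9, h10⟩ | ⟨h9, h10⟩
      · rcases key _ _ h9 hM' with ⟨h11, h12⟩ | ⟨h11, h12⟩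
        · omega
        · rw [h2, h2] at h11
          exact absurd h11 (bef_asymm hl hab).2
      · rcases key _ _ h9 (by rwa [M.symmetric]) with ⟨h11, h12⟩ | ⟨h11, h12⟩
        · rw [h2, h2] at h11
          exact absurd h11 (bef_asymm hl hab).2
        · omega
    intro a b hal hbl hM
    by_cases hab : a = b
    · rw [hab]
    rcases bef_total hal hbl hab with h4 | h4
    · exact main a b h4 hM
    · exact (main b a h4 (by rwa [M.symmetric])).symm

/-- A list is connected if no proper nonempty part is closed under neighbours. -/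
def Conn (M : CoxeterMatrix B) (l : List B) : Prop :=
  ∀ p : B → Prop, (∀ a ∈ l, ∀ b ∈ l, M a b ≠ 2 → p a → p b) → (∃ a ∈ l, p a) → ∀ b ∈ l, p b

/-- The full twist of a connected parabolic subgroup is a power of the Coxeter element. -/
theorem conn_power {l : List B} (hl : l.Nodup) (hc : Conn M l) (hne : l ≠ []) :
    ∃ (w : W) (m : ℕ), PTop cs l w ∧ (aw l : Artin M) ^ m = sg cs w * sg cs w := by
  obtain ⟨ω, l', h1, h2, h3⟩ := exists_full (cs := cs) hl (ω := []) (l' := l) rfl trivial
  rw [List.nil_append] at h1 h2 h3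
  have hws : WS cs l (cs.wordProd ω) := WS.word fun a ha => h1.word_mem ha
  have htop : PTop cs l (cs.wordProd ω) := ⟨hws, h3⟩
  obtain ⟨ω', h4, h5, h6, h7⟩ := htop.word hl h1 h2
  obtain ⟨a₀, ha₀⟩ := List.exists_mem_of_ne_nil l hne
  have h8 : ∀ b ∈ l, ω'.count b = ω'.count a₀ :=
    hc (fun b => ω'.count b = ω'.count a₀) (fun a ha b hb hM hp => by
      rw [← hp]
      exact (h7 a b ha hb hM).symm) ⟨a₀, ha₀, rfl⟩
  refine ⟨cs.wordProd ω, ω'.count a₀, htop, ?_⟩
  have h9 := firePath_power (M := M) l (ω'.count a₀)
  have h10 : ((List.replicate (ω'.count a₀) l).flatten.map (ag : B → Artin M)).prod =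
      (ω'.map ag).prod := by
    refine heap (fun a b => ag_comm) (l := l) _ _ _ (fun a ha => h9.word_mem ha) h4
      (h9.adm hl) h5 fun a => ?_
    by_cases ha : a ∈ l
    · rw [count_power hl ha, h8 a ha]
    · have e1 : ω'.count a = 0 := List.count_eq_zero.2 fun h => ha (h4 a h)
      rw [e1]
      exact List.count_eq_zero.2 fun h => ha (h9.word_mem h)
  rw [prod_power] at h10
  rw [← h6]
  exact h10

end Top

end Pool.Agent.Lib.MP_185a46_al
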